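import Pool.Agent.MP_b00c97_gt.Lav.Fusion

/-!
# MP_b00c97_gt, block D: mixing of tails, deciding measurable events
-/

set_option autoImplicit false

open Set MeasureTheory Filter

namespace Pool.Agent.MP_b00c97_gt.Lav

variable {K : Type} [LinearOrder K]

theorem mem_pr {δ : K} {q : Cond K} {S : (K → ℕ → ℕ) → Code} {hS : Measurable[𝓑 (Iio δ)] S}
    {x : K → ℕ → ℕ} :
    x ∈ (pr δ q S hS).body ↔ x ∈ (q.res (Iio δ)).body ∧ x δ ∈ Br (S x) := by
  classical
  have h1 : ∀ γ < δ, (pr δ q S hS).t γ = q.t γ := fun γ h => if_pos h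
  have h2 : (pr δ q S hS).t δ = S := by
    change (if δ < δ then q.t δ else if δ = δ then S else fun _ => triv) = S
    rw [if_neg (lt_irrefl δ), if_pos rfl]
  have h3 : ∀ γ, δ < γ → (pr δ q S hS).t γ = fun _ => triv := by
    intro γ h
    change (if γ < δ then q.t γ else if γ = δ then S else fun _ => triv) = fun _ => triv
    rw [if_neg (not_lt.2 h.le), if_neg h.ne']
  rw [Cond.mem_res]
  constructor
  · intro h
    refine ⟨fun γ hγ => ?_, ?_⟩
    · have := h γ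
      rwa [h1 γ hγ] at this
    · have := h δ
      rwa [h2] at this
  · rintro ⟨ha, hb⟩ γ
    rcases lt_trichotomy γ δ with hγ | rfl | hγ
    · rw [h1 γ hγ]; exact ha γ hγ
    · rw [h2]; exact hb
    · rw [h3 γ hγ, Br_triv]; exact mem_univ _

theorem suppIn_pr {δ : K} {q : Cond K} {S : (K → ℕ → ℕ) → Code}
    {hS : Measurable[𝓑 (Iio δ)] S} : (pr δ q S hS).SuppIn (Iic δ) := by
  classical
  intro γ h
  have h' : δ < γ := not_le.1 h
  change (if γ < δ then q.t γ else if γ = δ then S else fun _ => triv) = fun _ => triv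
  rw [if_neg (not_lt.2 h'.le), if_neg h'.ne']

variable [WellFoundedLT K]

/-- Mixing of tails. -/
theorem mix_tails {I J : Set K} (hJ : IsLowerSet J) (hJI : J ⊆ I) {n : ℕ} {F : Finset K}
    (hF : (F : Set K) ⊆ J) {p q : Cond K} (hp : p.SuppIn I) (hq : q.SuppIn J)
    (h : LeN n F q (p.res J)) (C : Set (Cond K)) (hC : C.Countable)
    (hCI : ∀ d ∈ C, d.SuppIn I ∧ d ≤ p) (hcov : ∀ x ∈ q.body, ∃ d ∈ C, x ∈ (d.res J).body) :
    ∃ (r : Cond K) (d : ℕ → Cond K) (j : (K → ℕ → ℕ) → ℕ), r.SuppIn I ∧ LeN n F r p ∧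
      (∀ γ ∈ J, r.t γ = q.t γ) ∧ (∀ i, d i ∈ C) ∧ Measurable[𝓑 J] j ∧
      ∀ x ∈ r.body, x ∈ (d (j x)).body := by
  classical
  obtain ⟨x₀, hx₀⟩ := q.exists_mem
  obtain ⟨d₀, hd₀, -⟩ := hcov x₀ hx₀
  obtain ⟨d, hd⟩ := hC.exists_eq_range ⟨d₀, hd₀⟩
  have hdC : ∀ i, d i ∈ C := fun i => hd ▸ mem_range_self i
  set j : (K → ℕ → ℕ) → ℕ := fun x =>
    if h : ∃ i, x ∈ ((d i).res J).body then Nat.find h else 0 with hjdef
  have hjm : Measurable[𝓑 J] j := by
    refine meas_of_eq fun i => ?_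
    have hm : ∀ i, MeasurableSet[𝓑 J] {x | x ∈ ((d i).res J).body} := fun i =>
      Cond.meas_body hJ ((d i).suppIn_res J)
    refine meas_ev _ (meas_or (meas_and (hm i) (meas_all (P := fun k x => k < i →
      ¬ x ∈ ((d k).res J).body) fun k => meas_imp (meas_const _) (meas_not (hm k))))
      (meas_and (meas_not (meas_ex hm)) (meas_const (i = 0)))) fun x => ?_
    simp only [hjdef]
    by_cases hx : ∃ i, x ∈ ((d i).res J).body
    · rw [dif_pos hx, Nat.find_eq_iff]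
      constructor
      · intro hh; exact Or.inl ⟨hh.1, fun k hk => hh.2 k hk⟩
      · rintro (hh | hh)
        · exact ⟨hh.1, fun k hk => hh.2 k hk⟩
        · exact absurd hx hh.1
    · rw [dif_neg hx]
      constructor
      · intro hh; exact Or.inr ⟨hx, hh.symm⟩
      · rintro (hh | hh)
        · exact absurd ⟨i, hh.1⟩ hx
        · exact hh.2.symm
  have hjspec : ∀ x, (∃ i, x ∈ ((d i).res J).body) → x ∈ ((d (j x)).res J).body := by
    intro x hx
    have : j x = Nat.find hx := dif_pos hx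
    rw [this]
    exact Nat.find_spec hx
  have hrd : ∀ x ∈ (Cond.mix J hJ q d j hjm).body, x ∈ (d (j x)).body := by
    intro x hx
    rw [Cond.mem_mix] at hx
    have hxq : x ∈ q.body := by
      rw [← Cond.body_res_of_suppIn hq, Cond.mem_res]
      exact hx.1
    obtain ⟨e, he, hxe⟩ := hcov x hxq
    rw [hd] at he
    obtain ⟨i, rfl⟩ := he
    have h1 := Cond.mem_res.1 (hjspec x ⟨i, hxe⟩)
    intro γ
    by_cases hγ : γ ∈ J
    · exact h1 γ hγ
    · exact hx.2 γ hγ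
  refine ⟨Cond.mix J hJ q d j hjm, d, j, ?_, ⟨?_, ?_⟩, ?_, hdC, hjm, hrd⟩
  · exact Cond.suppIn_mix (hq.mono hJI) fun i => (hCI _ (hdC i)).1
  · intro x hx
    exact (hCI _ (hdC (j x))).2 (hrd x hx)
  · intro γ hγ x hx τ hτ
    have hγJ : γ ∈ J := hF hγ
    rw [Cond.mix_t hγJ]
    have hxq : x ∈ q.body := by
      rw [← Cond.body_res_of_suppIn hq, Cond.mem_res]
      exact (Cond.mem_mix.1 hx).1
    have := h.2 γ hγ x hxq τ hτ
    rwa [Cond.res_t p hγJ] at this
  · intro γ hγ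
    exact Cond.mix_t hγ

/-- Reduction to a smaller set of coordinates. -/
theorem acc_reduce {I J : Set K} (hJ : IsLowerSet J) (hJI : J ⊆ I) (hA : Acc J) (n : ℕ)
    (F : Finset K) (hF : (F : Set K) ⊆ J) (p : Cond K) (hp : p.SuppIn I) (D : Set (Cond K))
    (hD : DenseBelow I p D) :
    ∃ (r : Cond K) (d : ℕ → Cond K) (j : (K → ℕ → ℕ) → ℕ), r.SuppIn I ∧ LeN n F r p ∧
      (∀ i, d i ∈ D ∧ (d i).SuppIn I ∧ d i ≤ p) ∧ Measurable[𝓑 J] j ∧
      ∀ x ∈ r.body, x ∈ (d (j x)).body := by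
  classical
  set D₁ : Set (Cond K) := {e | ∃ d ∈ D, d.SuppIn I ∧ d ≤ p ∧ e = d.res J} with hD₁
  have hdense : DenseBelow J (p.res J) D₁ := by
    intro q hq hqp
    obtain ⟨d, hdD, hdI, hd⟩ := hD (Cond.glue J hJ q p)
      (Cond.suppIn_glue (hq.mono hJI) hp) (Cond.glue_le hqp)
    refine ⟨d.res J, ⟨d, hdD, hdI, hd.trans (Cond.glue_le hqp), rfl⟩, d.suppIn_res J, ?_⟩
    intro x hx
    have h1 := Cond.res_mono hd hJ hx
    rw [Cond.mem_res_glue, Cond.body_res_of_suppIn hq] at h1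
    exact h1
  obtain ⟨q, hqJ, hq, C₁, hC₁, hC₁c, hcov⟩ := hA F n (p.res J) D₁ hF (p.suppIn_res J) hdense
  have hch : ∀ e : Cond K, ∃ d : Cond K, e ∈ C₁ → d ∈ D ∧ d.SuppIn I ∧ d ≤ p ∧ e = d.res J := by
    intro e
    by_cases he : e ∈ C₁
    · obtain ⟨d, h1, h2, h3, h4⟩ := (hC₁ he).1
      exact ⟨d, fun _ => ⟨h1, h2, h3, h4⟩⟩
    · exact ⟨e, fun h => absurd h he⟩
  choose φ hφ using hch
  obtain ⟨r, d, j, h1, h2, -, h4, h5, h6⟩ := mix_tails hJ hJI hF hp hqJ hq (φ '' C₁)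
    (hC₁c.image φ) (by
      rintro _ ⟨e, he, rfl⟩
      exact ⟨(hφ e he).2.1, (hφ e he).2.2.1⟩) (by
      intro x hx
      obtain ⟨e, he, hxe⟩ := hcov x hx
      refine ⟨φ e, mem_image_of_mem φ he, ?_⟩
      rw [← (hφ e he).2.2.2]
      exact hxe)
  refine ⟨r, d, j, h1, h2, fun i => ?_, h5, h6⟩
  obtain ⟨e, he, h7⟩ := h4 i
  rw [← h7]
  exact ⟨(hφ e he).1, (hφ e he).2.1, (hφ e he).2.2.1⟩

/-- Countably many dense sets. -/
theorem acc_countable {I : Set K} (hI : IsLowerSet I) (hA : Acc I) (n : ℕ) (F : Finset K)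
    (hF : (F : Set K) ⊆ I) (p : Cond K) (hp : p.SuppIn I) (D : ℕ → Set (Cond K))
    (hD : ∀ i, DenseBelow I p (D i)) :
    ∃ r : Cond K, r.SuppIn I ∧ LeN n F r p ∧
      ∀ i, Cov r.body {d ∈ D i | d.SuppIn I ∧ d ≤ p} := by
  obtain ⟨q, h1, h2, h3⟩ := fusion_scheme hI F hF n p hp
    (fun m _ q => Cov q.body {d ∈ D (m - n) | d.SuppIn I ∧ d ≤ p})
    (by
      rintro m F' p' q' hle ⟨C, hC, hCc, hcov⟩
      exact ⟨C, hC, hCc, fun x hx => hcov x (hle.1 hx)⟩)
    (by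
      intro m F' p' hm hFF' hF'I _ hp'I hp'
      obtain ⟨q, hqI, hq, C, hC, hCc, hcov⟩ := hA F' m p' {d ∈ D (m - n) | d ≤ p} hF'I hp'I (by
        intro q hqI hq
        obtain ⟨d, hd1, hd2, hd3⟩ := hD (m - n) q hqI (hq.trans hp'.1)
        exact ⟨d, ⟨hd1, hd3.trans (hq.trans hp'.1)⟩, hd2, hd3⟩)
      refine ⟨q, hqI, hq, C, fun d hd => ?_, hCc, hcov⟩
      have := hC hd
      exact ⟨this.1.1, this.2, this.1.2⟩)
  refine ⟨q, h1, h2, fun i => ?_⟩
  obtain ⟨F', -, -, -, h4⟩ := h3 (n + i) (Nat.le_add_right n i)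
  rwa [Nat.add_sub_cancel_left] at h4

/-- The events which are decided densely in `P_I`. -/
@[reducible]
def decided {I : Set K} (hI : IsLowerSet I) (hA : Acc I) : MeasurableSpace (K → ℕ → ℕ) where
  MeasurableSet' A := ∀ p : Cond K, p.SuppIn I →
    ∃ q : Cond K, q.SuppIn I ∧ q ≤ p ∧ (q.body ⊆ A ∨ Disjoint q.body A)
  measurableSet_empty p hp := ⟨p, hp, le_rfl, Or.inr (disjoint_empty _)⟩
  measurableSet_compl A h p hp := by
    obtain ⟨q, h1, h2, h3⟩ := h p hp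
    refine ⟨q, h1, h2, ?_⟩
    rcases h3 with h3 | h3
    · exact Or.inr (disjoint_compl_right_iff_subset.2 h3)
    · exact Or.inl (disjoint_compl_right_iff_subset.1 (by rwa [compl_compl]))
  measurableSet_iUnion A h p hp := by
    by_cases hex : ∃ (i : ℕ) (q : Cond K), q.SuppIn I ∧ q ≤ p ∧ q.body ⊆ A i
    · obtain ⟨i, q, h1, h2, h3⟩ := hex
      exact ⟨q, h1, h2, Or.inl (h3.trans (subset_iUnion A i))⟩
    · push Not at hex
      obtain ⟨r, h1, h2, h3⟩ := acc_countable hI hA 0 ∅ (by simp) p hp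
        (fun i => {d | Disjoint d.body (A i)}) (by
          intro i q hq hqp
          obtain ⟨r, h1, h2, h3⟩ := h i q hq
          rcases h3 with h3 | h3
          · exact absurd h3 (hex i r h1 (h2.trans hqp))
          · exact ⟨r, h3, h1, h2⟩)
      refine ⟨r, h1, h2.1, Or.inr ?_⟩
      rw [disjoint_iUnion_right]
      intro i
      obtain ⟨C, hC, -, hcov⟩ := h3 i
      rw [disjoint_left]
      intro x hx hxA
      obtain ⟨d, hd, hxd⟩ := hcov x hx
      exact disjoint_left.1 (hC hd).1 hxd hxA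

theorem ml_step {I : Set K} (hI : IsLowerSet I) (hA : Acc I) (h : ∀ δ ∈ I, ML (Iio δ)) :
    ML I := by
  intro A p hAm hp
  have hle : 𝓑 I ≤ decided hI hA := by
    refine MeasurableSpace.comap_le_iff_le_map.2 (measurable_iff_le_map.1
      ((@measurable_pi_iff (K → ℕ → ℕ) I (fun _ => ℕ → ℕ) (decided hI hA) _ _).2 ?_))
    rintro ⟨δ, hδ⟩
    refine meas_real.2 fun n k => ?_
    intro p hp
    set σ : List ℕ := List.replicate (n + 1) 0 with hσ
    have hS : Measurable[𝓑 (Iio δ)] fun x => comp (p.t δ x) (cone σ) :=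
      meas_comp (p.meas δ) measurable_const
    have hAm : MeasurableSet[𝓑 (Iio δ)] {x | (nd (p.t δ x) σ).reverse.getD n 0 = k} :=
      meas_rel1 (meas_nd (p.meas δ) σ) (fun ν => ν.reverse.getD n 0 = k)
    obtain ⟨q', hq'I, hq', hdec⟩ := h δ hδ _ (p.res (Iio δ)) hAm (p.suppIn_res _)
    have hle : pr δ q' (fun x => comp (p.t δ x) (cone σ)) hS ≤ p.res (Iic δ) := by
      intro x hx
      rw [mem_pr, Cond.body_res_of_suppIn hq'I] at hx
      rw [Cond.mem_res]
      intro γ hγ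
      rcases (show γ ≤ δ from hγ).lt_or_eq with hlt | rfl
      · exact Cond.mem_res.1 (hq' hx.1) γ hlt
      · exact Br_comp_subset _ _ hx.2
    have hIic : Iic δ ⊆ I := fun γ hγ => hI hγ hδ
    refine ⟨Cond.glue (Iic δ) (isLowerSet_Iic δ) (pr δ q' _ hS) p,
      Cond.suppIn_glue (suppIn_pr.mono hIic) hp, Cond.glue_le hle, ?_⟩
    have key : ∀ x ∈ (Cond.glue (Iic δ) (isLowerSet_Iic δ) (pr δ q' _ hS) p).body,
        x ∈ q'.body ∧ (nd (p.t δ x) σ).reverse.getD n 0 = x δ n := by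
      intro x hx
      have h1 : x ∈ (pr δ q' (fun x => comp (p.t δ x) (cone σ)) hS).body := by
        rw [← Cond.body_res_of_suppIn suppIn_pr, Cond.mem_res]
        exact (Cond.mem_glue.1 hx).1
      rw [mem_pr, Cond.body_res_of_suppIn hq'I] at h1
      refine ⟨h1.1, ?_⟩
      have h2 := pre_idx h1.2 0
      have h3 : nd (comp (p.t δ x) (cone σ)) [] = nd (p.t δ x) σ := rfl
      rw [add_zero] at h2
      change pre (x δ) (nd (p.t δ x) σ).length = nd (p.t δ x) σ at h2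
      rw [← h2, pre_eq, List.reverse_reverse]
      have h4 : n < (nd (p.t δ x) σ).length := by
        rw [nd_length, hσ, List.length_replicate]; omega
      rw [List.getD_eq_getElem _ _ (by simpa using h4)]
      simp
    rcases hdec with hdec | hdec
    · left
      intro x hx
      have h1 := key x hx
      have h2 : (nd (p.t δ x) σ).reverse.getD n 0 = k := hdec h1.1
      rw [h1.2] at h2
      exact h2
    · right
      rw [disjoint_left]
      intro x hx hxk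
      have h1 := key x hx
      refine disjoint_left.1 hdec h1.1 ?_
      change (nd (p.t δ x) σ).reverse.getD n 0 = k
      rw [h1.2]
      exact hxk
  exact hle A hAm p hp

/-- Deciding measurable events. -/
theorem ml_of_acc {I : Set K} (hI : IsLowerSet I) (hA : Acc I) (h : ∀ δ ∈ I, Acc (Iio δ)) :
    ML I := by
  refine ml_step hI hA fun δ => ?_
  induction δ using WellFoundedLT.induction with
  | ind δ ih =>
    intro hδ
    exact ml_step (isLowerSet_Iio δ) (h δ hδ) fun δ' hδ' => ih δ' hδ' (hI (le_of_lt hδ') hδ)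

/-- Deciding countably valued functions. -/
theorem ml_fun {I : Set K} (hI : IsLowerSet I) (hA : Acc I) (hM : ML I) {ι : Type} [Countable ι]
    (f : (K → ℕ → ℕ) → ι) (hf : ∀ i, MeasurableSet[𝓑 I] {x | f x = i}) (p : Cond K)
    (hp : p.SuppIn I) :
    ∃ (q : Cond K) (i : ι), q.SuppIn I ∧ q ≤ p ∧ ∀ x ∈ q.body, f x = i := by
  by_contra hcon
  push Not at hcon
  have : Nonempty ι := ⟨f 0⟩
  obtain ⟨e, he⟩ := exists_surjective_nat ι
  obtain ⟨r, -, -, h3⟩ := acc_countable hI hA 0 ∅ (by simp) p hp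
    (fun i => {d | ∀ x ∈ d.body, f x ≠ e i}) (by
      intro i q hq hqp
      obtain ⟨r, h1, h2, h3⟩ := hM _ q (hf (e i)) hq
      rcases h3 with h3 | h3
      · obtain ⟨x, hx, hx'⟩ := hcon r (e i) h1 (h2.trans hqp)
        exact absurd (h3 hx) hx'
      · exact ⟨r, fun x hx hx' => disjoint_left.1 h3 hx hx', h1, h2⟩)
  obtain ⟨x, hx⟩ := r.exists_mem
  obtain ⟨i, hi⟩ := he (f x)
  obtain ⟨C, hC, -, hcov⟩ := h3 i
  obtain ⟨d, hd, hxd⟩ := hcov x hx
  exact (hC hd).1 x hxd hi.symm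

/-- Avoiding countably many small events. -/
theorem avoid {I : Set K} (hI : IsLowerSet I) (hA : Acc I) (hM : ML I) (n : ℕ) (F : Finset K)
    (hF : (F : Set K) ⊆ I) (p : Cond K) (hp : p.SuppIn I) (A : ℕ → Set (K → ℕ → ℕ))
    (hAm : ∀ i, MeasurableSet[𝓑 I] (A i))
    (h : ∀ i (r : Cond K), r.SuppIn I → r ≤ p → ¬ r.body ⊆ A i) :
    ∃ q : Cond K, q.SuppIn I ∧ LeN n F q p ∧ ∀ i, Disjoint q.body (A i) := by
  obtain ⟨r, h1, h2, h3⟩ := acc_countable hI hA n F hF p hp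
    (fun i => {d | Disjoint d.body (A i)}) (by
      intro i q hq hqp
      obtain ⟨r, h1, h2, h3⟩ := hM _ q (hAm i) hq
      rcases h3 with h3 | h3
      · exact absurd h3 (h i r h1 (h2.trans hqp))
      · exact ⟨r, h3, h1, h2⟩)
  refine ⟨r, h1, h2, fun i => ?_⟩
  obtain ⟨C, hC, -, hcov⟩ := h3 i
  rw [disjoint_left]
  intro x hx hxA
  obtain ⟨d, hd, hxd⟩ := hcov x hx
  exact disjoint_left.1 (hC hd).1 hxd hxA

end Pool.Agent.MP_b00c97_gt.Lav
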