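import Pool.Agent.MP_b00c97_gt.Lav.Ops
import Pool.Agent.MP_b00c97_gt.Lav.Dec

/-!
# MP_b00c97_gt: block C1, pure decision at one coordinate
-/

set_option autoImplicit false

open Set MeasureTheory Filter

namespace Pool.Agent.MP_b00c97_gt.Lav

section aux

variable {K : Type} [LinearOrder K]

/-- Below `r`, all points which at `δ` pass through the node `σ` of `S` and lie in the subtree
given by `g` are in a member of `C`. -/
def Wit (δ : K) (S : (K → ℕ → ℕ) → Code) (σ : List ℕ) (r : Cond K)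
    (g : (K → ℕ → ℕ) → Code) (C : Set (Cond K)) : Prop :=
  Measurable[𝓑 (Iio δ)] g ∧ (∀ x, (g x).1 = []) ∧ C.Countable ∧
    ∀ x ∈ r.body, x δ ∈ Br (comp (comp (S x) (cone σ)) (g x)) → ∃ d ∈ C, x ∈ d.body

/-- The conditions which are decided above the node `σ` with the value `a`. -/
def NN (δ : K) (S : (K → ℕ → ℕ) → Code) (D : ℕ → Set (Cond K)) (σ : List ℕ) (a : ℕ) :
    Set (Cond K) :=
  {r | ∃ g C, Wit δ S σ r g C ∧ C ⊆ D a}

theorem NN_mono {δ : K} {S : (K → ℕ → ℕ) → Code} {D : ℕ → Set (Cond K)} {σ : List ℕ} {a : ℕ}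
    {r s : Cond K} (h : s ≤ r) (hr : r ∈ NN δ S D σ a) : s ∈ NN δ S D σ a := by
  obtain ⟨g, C, ⟨h1, h2, h3, h4⟩, h5⟩ := hr
  exact ⟨g, C, ⟨h1, h2, h3, fun x hx => h4 x (h hx)⟩, h5⟩

/-- The least index of a member of the sequence `d` containing `x`. -/
noncomputable def lix (d : ℕ → Cond K) (x : K → ℕ → ℕ) : ℕ := sInf {j | x ∈ (d j).body}

theorem lix_mem {d : ℕ → Cond K} {x : K → ℕ → ℕ} (h : ∃ j, x ∈ (d j).body) :
    x ∈ (d (lix d x)).body :=
  Nat.sInf_mem (s := {j | x ∈ (d j).body}) h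

theorem meas_lix {I : Set K} (hI : IsLowerSet I) {d : ℕ → Cond K} (hd : ∀ j, (d j).SuppIn I)
    (i : ℕ) : MeasurableSet[𝓑 I] {x | lix d x = i} := by
  have h : ∀ j, MeasurableSet[𝓑 I] {x | x ∈ (d j).body} := fun j => Cond.meas_body hI (hd j)
  refine meas_ev _ (meas_or (meas_and (h i) (meas_all fun k : ℕ =>
    meas_imp (meas_const (k < i)) (meas_not (h k)))) (meas_and (meas_const (i = 0))
      (meas_all fun k => meas_not (h k)))) fun x => ?_
  simp only [mem_ofPred_eq]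
  constructor
  · intro hx
    by_cases hex : ∃ j, x ∈ (d j).body
    · left
      refine ⟨hx ▸ lix_mem hex, fun k hk hxk => ?_⟩
      have : lix d x ≤ k := Nat.sInf_le (s := {j | x ∈ (d j).body}) hxk
      omega
    · right
      push Not at hex
      refine ⟨?_, hex⟩
      rw [← hx, lix]
      have : {j | x ∈ (d j).body} = ∅ := by
        ext j
        simp only [mem_ofPred_eq, mem_empty_iff_false, iff_false]
        exact hex j
      rw [this, Nat.sInf_empty]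
  · rintro (⟨h1, h2⟩ | ⟨rfl, h2⟩)
    · have h3 : lix d x ≤ i := Nat.sInf_le (s := {j | x ∈ (d j).body}) h1
      by_contra hne
      exact h2 _ (lt_of_le_of_ne h3 hne) (lix_mem ⟨i, h1⟩)
    · rw [lix]
      have : {j | x ∈ (d j).body} = ∅ := by
        ext j
        simp only [mem_ofPred_eq, mem_empty_iff_false, iff_false]
        exact h2 j
      rw [this, Nat.sInf_empty]

theorem meas_infinite {Ω : Type*} {m : MeasurableSpace Ω} {P : ℕ → Ω → Prop}
    (h : ∀ k, MeasurableSet[m] {ω | P k ω}) : MeasurableSet[m] {ω | {k | P k ω}.Infinite} := by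
  refine meas_ev _ (meas_all fun N : ℕ => meas_ex fun k : ℕ =>
    meas_and (meas_const (N ≤ k)) (h k)) fun ω => ?_
  rw [← Nat.frequently_atTop_iff_infinite, frequently_atTop]
  simp only [mem_ofPred_eq]

theorem upd_lt {δ : K} (x : K → ℕ → ℕ) (l : ℕ → ℕ) :
    ∀ γ ∈ Iio δ, Function.update x δ l γ = x γ :=
  fun _ hγ => Function.update_of_ne (ne_of_lt hγ) _ _

/-- Changing the coordinate `δ` of a point of a condition with support in `Iic δ`. -/
theorem upd_mem {δ : K} {d : Cond K} (hd : d.SuppIn (Iic δ)) {x : K → ℕ → ℕ}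
    (hx : x ∈ (d.res (Iio δ)).body) {l : ℕ → ℕ} (hl : l ∈ Br (d.t δ x)) :
    Function.update x δ l ∈ d.body := by
  intro γ
  rcases lt_trichotomy γ δ with h | h | h
  · rw [dep (d.meas γ) (y := x) fun ε hε => upd_lt x l ε (lt_trans hε h), upd_lt x l γ h]
    exact Cond.mem_res.1 hx γ h
  · subst h
    rw [dep (d.meas γ) (y := x) fun ε hε => upd_lt x l ε hε, Function.update_self]
    exact hl
  · rw [hd γ (fun h' => absurd (mem_Iic.1 h') (not_le.2 h)), Br_triv]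
    exact mem_univ _

theorem comp_cone_cons (a b : Code) (σ : List ℕ) (k : ℕ) :
    Br (comp (comp a (cone σ)) (comp (cone [k]) b)) = Br (comp (comp a (cone (k :: σ))) b) := by
  refine Br_congr fun τ => ?_
  rw [nd_comp, nd_comp, nd_comp, nd_comp, nd_comp, nd_cone, nd_cone, nd_cone]
  simp

theorem comp_cone_nil (a b : Code) : Br (comp (comp a (cone [])) b) = Br (comp a b) := by
  refine Br_congr fun τ => ?_
  rw [nd_comp, nd_comp, nd_comp, nd_cone]
  simp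

end aux

variable {K : Type} [LinearOrder K] [WellFoundedLT K]

theorem claim1 (δ : K) (hA : Acc (Iio δ)) (hM : ML (Iio δ)) (n : ℕ) (F : Finset K)
    (hF : (F : Set K) ⊆ Iio δ) (p : Cond K) (hp : p.SuppIn (Iio δ))
    (S : (K → ℕ → ℕ) → Code) (hS : Measurable[𝓑 (Iio δ)] S) (D : ℕ → Set (Cond K))
    (hD : DenseBelow (Iic δ) (pr δ p S hS) (⋃ a, D a))
    (b : (K → ℕ → ℕ) → ℕ) (hb : Measurable[𝓑 (Iio δ)] b)
    (hb' : ∀ a, ∀ d ∈ D a, ∀ x ∈ d.body, a < b x) :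
    ∃ (q : Cond K) (g : (K → ℕ → ℕ) → Code) (A : (K → ℕ → ℕ) → ℕ) (C : ℕ → Set (Cond K)),
      q.SuppIn (Iio δ) ∧ LeN n F q p ∧ Measurable[𝓑 (Iio δ)] g ∧ (∀ x, (g x).1 = []) ∧
      Measurable[𝓑 (Iio δ)] A ∧ (∀ a, (C a).Countable ∧ C a ⊆ D a) ∧
      ∀ x ∈ q.body, x δ ∈ Br (comp (S x) (g x)) → ∃ d ∈ C (A x), x ∈ d.body := by
  classical
  have hlow : IsLowerSet (Iio δ) := isLowerSet_Iio δ
  -- step 0: decide everything that can be decided, for all nodes
  let E : List ℕ → Set (Cond K) := fun σ => {r | (∃ a, r ∈ NN δ S D σ a) ∨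
    ∀ s : Cond K, s.SuppIn (Iio δ) → s ≤ r → ∀ a, s ∉ NN δ S D σ a}
  have hE : ∀ σ, DenseBelow (Iio δ) p (E σ) := by
    intro σ q hq _
    by_cases h : ∃ s : Cond K, s.SuppIn (Iio δ) ∧ s ≤ q ∧ ∃ a, s ∈ NN δ S D σ a
    · obtain ⟨s, h1, h2, h3⟩ := h
      exact ⟨s, Or.inl h3, h1, h2⟩
    · refine ⟨q, Or.inr fun s h1 h2 a h3 => h ⟨s, h1, h2, a, h3⟩, hq, le_rfl⟩
  obtain ⟨q₀, hq₀, hle₀, hcov⟩ := acc_countable hlow hA n F hF p hp
    (fun i => E (Denumerable.ofNat (List ℕ) i)) (fun i => hE _)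
  have hseq : ∀ σ, ∃ d : ℕ → Cond K, (∀ j, d j ∈ E σ ∧ (d j).SuppIn (Iio δ)) ∧
      ∀ x ∈ q₀.body, ∃ j, x ∈ (d j).body := by
    intro σ
    obtain ⟨C, hC, hCc, hCcov⟩ := hcov (Encodable.encode σ)
    rw [Denumerable.ofNat_encode] at hC
    obtain ⟨x₀, hx₀⟩ := q₀.exists_mem
    obtain ⟨d₀, hd₀, -⟩ := hCcov x₀ hx₀
    obtain ⟨d, hd⟩ := hCc.exists_eq_range ⟨d₀, hd₀⟩
    refine ⟨d, fun j => ?_, fun x hx => ?_⟩
    · have : d j ∈ C := hd ▸ mem_range_self j
      exact ⟨(hC this).1, (hC this).2.1⟩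
    · obtain ⟨e, he, hxe⟩ := hCcov x hx
      rw [hd] at he
      obtain ⟨j, rfl⟩ := he
      exact ⟨j, hxe⟩
  choose ds hds hdcov using hseq
  have hwit : ∀ σ j, ∃ (a : ℕ) (g : (K → ℕ → ℕ) → Code) (C : Set (Cond K)),
      Measurable[𝓑 (Iio δ)] g ∧ (∀ x, (g x).1 = []) ∧ C.Countable ∧ C ⊆ D a ∧
      ((∃ a, ds σ j ∈ NN δ S D σ a) → ∀ x ∈ (ds σ j).body,
        x δ ∈ Br (comp (comp (S x) (cone σ)) (g x)) → ∃ d ∈ C, x ∈ d.body) := by
    intro σ j
    by_cases h : ∃ a, ds σ j ∈ NN δ S D σ a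
    · obtain ⟨a, g, C, ⟨h1, h2, h3, h4⟩, h5⟩ := h
      exact ⟨a, g, C, h1, h2, h3, h5, fun _ => h4⟩
    · exact ⟨0, fun _ => triv, ∅, measurable_const, fun _ => rfl, countable_empty,
        empty_subset _, fun h' => absurd h' h⟩
  choose α γ Γ hγm hγs hΓc hΓD hΓ using hwit
  let J : List ℕ → (K → ℕ → ℕ) → ℕ := fun σ x => lix (ds σ) x
  have hJm : ∀ σ i, MeasurableSet[𝓑 (Iio δ)] {x | J σ x = i} := fun σ i =>
    meas_lix hlow (fun j => (hds σ j).2) i
  have hJ : ∀ σ, ∀ x ∈ q₀.body, x ∈ (ds σ (J σ x)).body := fun σ x hx => lix_mem (hdcov σ x hx)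
  let gd : List ℕ → (K → ℕ → ℕ) → Prop := fun σ x => ∃ a, ds σ (J σ x) ∈ NN δ S D σ a
  have hgdm : ∀ σ, MeasurableSet[𝓑 (Iio δ)] {x | gd σ x} := fun σ =>
    meas_rel1 (hJm σ) (fun j => ∃ a, ds σ j ∈ NN δ S D σ a)
  let A : List ℕ → (K → ℕ → ℕ) → ℕ := fun σ x => α σ (J σ x)
  have hAm : ∀ σ a, MeasurableSet[𝓑 (Iio δ)] {x | A σ x = a} := fun σ a =>
    meas_rel1 (hJm σ) (fun j => α σ j = a)
  let g : List ℕ → (K → ℕ → ℕ) → Code := fun σ x => γ σ (J σ x) x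
  have hgm : ∀ σ, Measurable[𝓑 (Iio δ)] (g σ) := fun σ =>
    meas_sel (g := fun j x => γ σ j x) (hJm σ) (fun j => hγm σ j)
  have K1 : ∀ σ, ∀ x ∈ q₀.body, gd σ x → x δ ∈ Br (comp (comp (S x) (cone σ)) (g σ x)) →
      ∃ d ∈ Γ σ (J σ x), x ∈ d.body := fun σ x hx hg hxδ =>
    hΓ σ (J σ x) hg x (hJ σ x hx) hxδ
  have K2 : ∀ σ, ∀ x ∈ q₀.body, gd σ x → A σ x < b x := by
    intro σ x hx hg
    set l := br (comp (comp (S x) (cone σ)) (g σ x)) 0 with hl
    have hdep := upd_lt (δ := δ) x l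
    have e1 : S (Function.update x δ l) = S x := dep hS hdep
    have e2 : g σ (Function.update x δ l) = g σ x := dep (hgm σ) hdep
    have e3 : J σ (Function.update x δ l) = J σ x :=
      (dep_set (hJm σ (J σ x)) hdep).2 rfl
    have e4 : b (Function.update x δ l) = b x := dep hb hdep
    have e5 : Function.update x δ l ∈ q₀.body := (dep_set (Cond.meas_body hlow hq₀) hdep).2 hx
    obtain ⟨d, hd, hxd⟩ := K1 σ (Function.update x δ l) e5
      (by change ∃ a, ds σ (J σ (Function.update x δ l)) ∈ NN δ S D σ a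
          rw [e3]; exact hg)
      (by rw [e1, e2, Function.update_self]; exact br_mem _ _)
    have := hb' _ d (hΓD _ _ hd) _ hxd
    rw [e3, e4] at this
    exact this
  have K3 : ∀ σ a, ∀ r : Cond K, r.SuppIn (Iio δ) → r ≤ q₀ → (∀ x ∈ r.body, ¬ gd σ x) →
      r ∉ NN δ S D σ a := by
    intro σ a r hr hrq hbad hmem
    obtain ⟨r', j, hr', hr'r, hj⟩ := ml_fun hlow hA hM (J σ) (hJm σ) r hr
    have h1 : r' ≤ ds σ j := by
      intro x hx
      have := hJ σ x (hrq (hr'r hx))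
      rwa [hj x hx] at this
    obtain ⟨x, hx⟩ := r'.exists_mem
    have h2 : ¬ ∃ a, ds σ j ∈ NN δ S D σ a := by
      have := hbad x (hr'r hx)
      change ¬ ∃ a, ds σ (J σ x) ∈ NN δ S D σ a at this
      rwa [hj x hx] at this
    rcases (hds σ j).1 with h3 | h3
    · exact h2 h3
    · exact h3 r' hr' h1 a (NN_mono hr'r hmem)
  -- steps (i), (ii): infinitely many good successors of the same colour make a node good
  let BB : List ℕ × ℕ → Set (K → ℕ → ℕ) := fun i =>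
    {x | ¬ gd i.1 x ∧ {k | gd (k :: i.1) x ∧ A (k :: i.1) x = i.2}.Infinite}
  have hBBm : ∀ i, MeasurableSet[𝓑 (Iio δ)] (BB i) := fun i =>
    meas_and (meas_not (hgdm i.1)) (meas_infinite fun k => meas_and (hgdm _) (hAm _ _))
  have hBB : ∀ i (r : Cond K), r.SuppIn (Iio δ) → r ≤ q₀ → ¬ r.body ⊆ BB i := by
    rintro ⟨σ, a⟩ r hr hrq hsub
    refine K3 σ a r hr hrq (fun x hx => (hsub hx).1) ?_
    refine ⟨fun x => glue1 (fun k => gd (k :: σ) x ∧ A (k :: σ) x = a) (fun k => g (k :: σ) x),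
      ⋃ k, ⋃ j, ⋃ (_ : α (k :: σ) j = a), Γ (k :: σ) j, ⟨?_, fun x => glue1_fst _ _, ?_, ?_⟩, ?_⟩
    · exact meas_glue1 (fun k => meas_and (hgdm _) (hAm _ _)) (fun k => hgm _)
    · exact countable_iUnion fun k => countable_iUnion fun j => countable_iUnion fun _ => hΓc _ _
    · intro x hx hxδ
      have hxB := hsub hx
      obtain ⟨h1, h2⟩ := Br_comp.1 hxδ
      rw [mem_Br_glue1 hxB.2 (fun k => hγs _ _ _)] at h2
      obtain ⟨⟨h3, h4⟩, h5⟩ := h2
      set k := idx (comp (S x) (cone σ)) (x δ) 0 with hk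
      have h6 : x δ ∈ Br (comp (comp (S x) (cone (k :: σ))) (g (k :: σ) x)) := by
        rw [← comp_cone_cons]
        exact Br_comp.2 ⟨h1, h5⟩
      obtain ⟨d, hd, hxd⟩ := K1 (k :: σ) x (hrq hx) h3 h6
      exact ⟨d, mem_iUnion.2 ⟨k, mem_iUnion.2 ⟨_, mem_iUnion.2 ⟨h4, hd⟩⟩⟩, hxd⟩
    · intro d hd
      simp only [mem_iUnion] at hd
      obtain ⟨k, j, h1, h2⟩ := hd
      rw [← h1]
      exact hΓD _ _ h2
  obtain ⟨q₁, hq₁, hle₁, hdis₁⟩ := avoid hlow hA hM n F hF q₀ hq₀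
    (fun i => BB (Denumerable.ofNat (List ℕ × ℕ) i)) (fun i => hBBm _) (fun i r => hBB _ r)
  have hbad : ∀ σ, ∀ x ∈ q₁.body, ¬ gd σ x → {k | ¬ gd (k :: σ) x}.Infinite := by
    intro σ x hx hng
    have hfin : ∀ a, {k | gd (k :: σ) x ∧ A (k :: σ) x = a}.Finite := by
      intro a
      by_contra hinf
      have h1 := hdis₁ (Encodable.encode (σ, a))
      simp only [Denumerable.ofNat_encode] at h1
      exact disjoint_left.1 h1 hx ⟨hng, hinf⟩
    have hfin' : {k | gd (k :: σ) x}.Finite := by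
      refine ((finite_lt_nat (b x)).biUnion fun a _ => hfin a).subset fun k hk => ?_
      exact mem_biUnion (K2 (k :: σ) x (hle₁.1 hx) hk : A (k :: σ) x ∈ {i | i < b x}) ⟨hk, rfl⟩
    have : {k | ¬ gd (k :: σ) x} = {k | gd (k :: σ) x}ᶜ := rfl
    rw [this]
    exact hfin'.infinite_compl
  -- step (iii): the empty node is good
  let P : (K → ℕ → ℕ) → List ℕ → ℕ → Prop := fun x σ k => ¬ gd (k :: σ) x
  have hPm : ∀ σ k, MeasurableSet[𝓑 (Iio δ)] {x | P x σ k} := fun σ k => meas_not (hgdm _)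
  have htree : ∀ x, ¬ gd [] x → ∀ σ, InTree (P x) σ → ¬ gd σ x := by
    intro x hx σ hσ
    cases σ with
    | nil => exact hx
    | cons k τ => exact hσ.1
  have hstar : ∀ r : Cond K, r.SuppIn (Iio δ) → r ≤ q₁ → ¬ r.body ⊆ {x | ¬ gd [] x} := by
    intro r hr hrq hsub
    let h : (K → ℕ → ℕ) → Code := fun x => filt (P x)
    have hhm : Measurable[𝓑 (Iio δ)] h := meas_filt hPm
    have hinf : ∀ x ∈ r.body, ∀ σ, InTree (P x) σ → {k | P x σ k}.Infinite := fun x hx σ hσ =>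
      hbad σ x (hrq hx) (htree x (hsub hx) σ hσ)
    have hT : Measurable[𝓑 (Iio δ)] fun x => comp (S x) (h x) := meas_comp hS hhm
    have hle : pr δ r (fun x => comp (S x) (h x)) hT ≤ pr δ p S hS := by
      intro x hx
      rw [mem_pr] at hx ⊢
      rw [Cond.body_res_of_suppIn hr] at hx
      rw [Cond.body_res_of_suppIn hp]
      exact ⟨hle₀.1 (hle₁.1 (hrq hx.1)), Br_comp_subset _ _ hx.2⟩
    obtain ⟨d, hd, hdS, hdle⟩ := hD _ suppIn_pr hle
    obtain ⟨a, hda⟩ := mem_iUnion.1 hd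
    have hdr : ∀ x ∈ (d.res (Iio δ)).body, ∀ l ∈ Br (d.t δ x), x ∈ r.body ∧
        l ∈ Br (comp (S x) (h x)) := by
      intro x hx l hl
      have h1 := hdle (upd_mem hdS hx hl)
      rw [mem_pr, Cond.body_res_of_suppIn hr, Function.update_self] at h1
      have hdep := upd_lt (δ := δ) x l
      refine ⟨(dep_set (Cond.meas_body hlow hr) hdep).1 h1.1, ?_⟩
      have e1 : comp (S (Function.update x δ l)) (h (Function.update x δ l)) =
          comp (S x) (h x) := dep hT hdep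
      rw [← e1]
      exact h1.2
    have hdr1 : d.res (Iio δ) ≤ r := fun x hx => (hdr x hx _ (br_mem _ 0)).1
    have hdr2 : ∀ x ∈ (d.res (Iio δ)).body, Br (d.t δ x) ⊆ Br (comp (S x) (h x)) :=
      fun x hx l hl => (hdr x hx l hl).2
    have hqm : Measurable[𝓑 (Iio δ)] fun x => quot (S x) (d.t δ x) := meas_quot hS (d.meas δ)
    obtain ⟨r₂, σ, hr₂, hr₂d, hσ⟩ := ml_fun hlow hA hM (fun x => (quot (S x) (d.t δ x)).1)
      (meas_code.1 hqm).1 (d.res (Iio δ)) (d.suppIn_res _)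
    have hbad₂ : ∀ x ∈ r₂.body, ¬ gd σ x := by
      intro x hx
      have hxd := hr₂d hx
      have hxr := hdr1 hxd
      obtain ⟨ρ, hρ⟩ := exists_nd (hdr2 x hxd) []
      rw [nd_comp, nd_nil] at hρ
      have h1 : σ = nd (h x) ρ := by
        rw [← hσ x hx, ← ix_nd (S x) (nd (h x) ρ), hρ]
        rfl
      have h2 := filt_spec (hinf x hxr) ρ
      rw [h1]
      change ¬ gd (nd (filt (P x)) ρ) x
      rw [h2.1]
      exact htree x (hsub hxr) _ h2.2
    refine K3 σ a r₂ hr₂ (fun x hx => hle₁.1 (hrq (hdr1 (hr₂d hx)))) hbad₂ ?_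
    refine ⟨fun x => (([] : List ℕ), (quot (S x) (d.t δ x)).2), {d}, ⟨?_, fun _ => rfl,
      countable_singleton _, ?_⟩, by rintro _ rfl; exact hda⟩
    · exact meas_code.2 ⟨fun τ => meas_const (([] : List ℕ) = τ), (meas_code.1 hqm).2⟩
    · intro x hx hxδ
      refine ⟨d, rfl, ?_⟩
      have hxd := hr₂d hx
      have hsubS : Br (d.t δ x) ⊆ Br (S x) := (hdr2 x hxd).trans (Br_comp_subset _ _)
      have h1 : Br (comp (comp (S x) (cone σ)) ([], (quot (S x) (d.t δ x)).2)) =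
          Br (d.t δ x) := by
        rw [← Br_quot hsubS]
        refine Br_congr fun τ => ?_
        rw [nd_comp_cone, ← hσ x hx]
      rw [h1] at hxδ
      have h2 := upd_mem hdS hxd hxδ
      rwa [Function.update_eq_self] at h2
  obtain ⟨q₂, hq₂, hle₂, hdis₂⟩ := avoid hlow hA hM n F hF q₁ hq₁
    (fun _ => {x | ¬ gd [] x}) (fun _ => meas_not (hgdm _)) (fun _ r => hstar r)
  refine ⟨q₂, g [], A [], fun a => ⋃ j, ⋃ (_ : α [] j = a), Γ [] j, hq₂,
    hle₂.trans (hle₁.trans hle₀), hgm _, fun x => hγs _ _ _, meas_of_eq (hAm _),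
    fun a => ⟨?_, ?_⟩, ?_⟩
  · exact countable_iUnion fun j => countable_iUnion fun _ => hΓc _ _
  · intro d hd
    simp only [mem_iUnion] at hd
    obtain ⟨j, h1, h2⟩ := hd
    rw [← h1]
    exact hΓD _ _ h2
  · intro x hx hxδ
    have hg : gd [] x := by
      by_contra hng
      exact disjoint_left.1 (hdis₂ 0) hx hng
    rw [← comp_cone_nil] at hxδ
    obtain ⟨d, hd, hxd⟩ := K1 [] x (hle₁.1 (hle₂.1 hx)) hg hxδ
    exact ⟨d, mem_iUnion.2 ⟨_, mem_iUnion.2 ⟨rfl, hd⟩⟩, hxd⟩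

end Pool.Agent.MP_b00c97_gt.Lav
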