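import Pool.Agent.MP_b00c97_gt.Lav.Ops
import Pool.Agent.MP_b00c97_gt.Lav.Claim1

/-!
# MP_b00c97_gt, part P': block C2 (piecewise version of claim1)
-/

set_option autoImplicit false

open Set MeasureTheory Filter

namespace Pool.Agent.MP_b00c97_gt.Lav

variable {K : Type} [LinearOrder K] [WellFoundedLT K]

theorem c2_Br_comp_assoc (a b c : Code) : Br (comp a (comp b c)) = Br (comp (comp a b) c) :=
  Br_congr fun τ => by rw [nd_comp, nd_comp, nd_comp, nd_comp]

/-- `pr` is monotone in the condition. -/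
theorem c2_pr_le_pr {δ : K} {q p : Cond K} {S : (K → ℕ → ℕ) → Code} {hS : Measurable[𝓑 (Iio δ)] S}
    (h : q ≤ p.res (Iio δ)) : pr δ q S hS ≤ pr δ p S hS := by
  intro x hx
  rw [mem_pr] at hx ⊢
  refine ⟨?_, hx.2⟩
  have h1 := Cond.res_mono h (isLowerSet_Iio δ)
  have h2 : x ∈ ((p.res (Iio δ)).res (Iio δ)).body := h1 hx.1
  rwa [Cond.body_res_of_suppIn (p.suppIn_res _)] at h2

/-- The conclusion of `claim2` before gluing, for the frozen indices in `T`. -/
theorem claim2_aux (δ : K) (hA : Acc (Iio δ)) (hM : ML (Iio δ)) (n : ℕ) (F : Finset K)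
    (hF : (F : Set K) ⊆ Iio δ) (p : Cond K)
    (D : List ℕ → ℕ → Set (Cond K))
    (hD : ∀ τ ∈ Sg n, DenseBelow (Iic δ) (pr δ p (fun x => comp (p.t δ x) (tail n τ))
      (meas_comp (p.meas δ) measurable_const)) (⋃ a, D τ a))
    (b : List ℕ → (K → ℕ → ℕ) → ℕ) (hb : ∀ τ, Measurable[𝓑 (Iio δ)] (b τ))
    (hb' : ∀ τ a, ∀ d ∈ D τ a, ∀ x ∈ d.body, a < b τ x) (T : Finset (List ℕ))
    (hT : (T : Set (List ℕ)) ⊆ Sg n) :
    ∃ (q : Cond K) (g : List ℕ → (K → ℕ → ℕ) → Code) (A : List ℕ → (K → ℕ → ℕ) → ℕ)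
      (C : List ℕ → ℕ → Set (Cond K)),
      q.SuppIn (Iio δ) ∧ LeN n F q (p.res (Iio δ)) ∧ (∀ τ, Measurable[𝓑 (Iio δ)] (g τ)) ∧
      (∀ τ x, (g τ x).1 = []) ∧ (∀ τ, Measurable[𝓑 (Iio δ)] (A τ)) ∧
      (∀ τ a, (C τ a).Countable ∧ C τ a ⊆ D τ a) ∧
      ∀ x ∈ q.body, ∀ τ ∈ T, x δ ∈ Br (comp (comp (p.t δ x) (tail n τ)) (g τ x)) →
        ∃ d ∈ C τ (A τ x), x ∈ d.body := by
  classical
  induction T using Finset.induction_on with
  | empty =>
    refine ⟨p.res (Iio δ), fun _ _ => triv, fun _ _ => 0, fun _ _ => ∅, p.suppIn_res _,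
      LeN.refl _ _ _, fun _ => measurable_const, fun _ _ => rfl, fun _ => measurable_const,
      fun _ _ => ⟨countable_empty, empty_subset _⟩, ?_⟩
    intro x _ τ hτ
    simp at hτ
  | insert τ T hτT ih =>
    rw [Finset.coe_insert, insert_subset_iff] at hT
    obtain ⟨q, g, A, C, hq, hqp, hg, hg1, hAm, hC, hx⟩ := ih hT.2
    have hdense : DenseBelow (Iic δ) (pr δ q (fun x => comp (p.t δ x) (tail n τ))
        (meas_comp (p.meas δ) measurable_const)) (⋃ a, D τ a) := by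
      intro r hr hrq
      exact hD τ hT.1 r hr (le_trans hrq (c2_pr_le_pr hqp.1))
    obtain ⟨q', g', A', C', hq', hqq', hg', hg1', hAm', hC', hx'⟩ :=
      claim1 δ hA hM n F hF q hq (fun x => comp (p.t δ x) (tail n τ))
        (meas_comp (p.meas δ) measurable_const) (D τ) hdense (b τ) (hb τ) (hb' τ)
    refine ⟨q', Function.update g τ g', Function.update A τ A', Function.update C τ C', hq',
      hqq'.trans hqp, ?_, ?_, ?_, ?_, ?_⟩
    · intro σ
      by_cases h : σ = τ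
      · subst h
        rw [Function.update_self]
        exact hg'
      · rw [Function.update_of_ne h]
        exact hg σ
    · intro σ x
      by_cases h : σ = τ
      · subst h
        rw [Function.update_self]
        exact hg1' x
      · rw [Function.update_of_ne h]
        exact hg1 σ x
    · intro σ
      by_cases h : σ = τ
      · subst h
        rw [Function.update_self]
        exact hAm'
      · rw [Function.update_of_ne h]
        exact hAm σ
    · intro σ a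
      by_cases h : σ = τ
      · subst h
        rw [Function.update_self]
        exact hC' a
      · rw [Function.update_of_ne h]
        exact hC σ a
    · intro x hxq σ hσ hxδ
      rcases Finset.mem_insert.1 hσ with h | h
      · subst h
        rw [Function.update_self] at hxδ
        rw [Function.update_self, Function.update_self]
        exact hx' x hxq hxδ
      · have hne : σ ≠ τ := fun he => hτT (he ▸ h)
        rw [Function.update_of_ne hne] at hxδ
        rw [Function.update_of_ne hne, Function.update_of_ne hne]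
        exact hx x (hqq'.1 hxq) σ h hxδ

theorem claim2 (δ : K) (hA : Acc (Iio δ)) (hM : ML (Iio δ)) (n : ℕ) (F : Finset K)
    (hF : (F : Set K) ⊆ Iio δ) (p : Cond K) (hp : p.SuppIn (Iic δ))
    (D : List ℕ → ℕ → Set (Cond K))
    (hD : ∀ τ ∈ Sg n, DenseBelow (Iic δ) (pr δ p (fun x => comp (p.t δ x) (tail n τ))
      (meas_comp (p.meas δ) measurable_const)) (⋃ a, D τ a))
    (b : List ℕ → (K → ℕ → ℕ) → ℕ) (hb : ∀ τ, Measurable[𝓑 (Iio δ)] (b τ))
    (hb' : ∀ τ a, ∀ d ∈ D τ a, ∀ x ∈ d.body, a < b τ x) :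
    ∃ (q : Cond K) (A : List ℕ → (K → ℕ → ℕ) → ℕ) (C : List ℕ → ℕ → Set (Cond K)),
      q.SuppIn (Iic δ) ∧ LeN n (insert δ F) q p ∧ (∀ τ, Measurable[𝓑 (Iio δ)] (A τ)) ∧
      (∀ τ a, (C τ a).Countable ∧ C τ a ⊆ D τ a) ∧
      ∀ x ∈ q.body, ∀ τ ∈ Sg n, x δ ∈ Br (comp (q.t δ x) (tail n τ)) →
        ∃ d ∈ C τ (A τ x), x ∈ d.body := by
  classical
  obtain ⟨q, g, A, C, hq, hqp, hg, hg1, hAm, hC, hx⟩ :=
    claim2_aux δ hA hM n F hF p D hD b hb hb' (Sg_finite n).toFinset (by simp)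
  have hS : Measurable[𝓑 (Iio δ)] fun x => comp (p.t δ x) (glueS n fun τ => g τ x) :=
    meas_comp (p.meas δ) (meas_glueS n hg)
  have ht1 : (pr δ q _ hS).t δ = fun x => comp (p.t δ x) (glueS n fun τ => g τ x) := by
    simp [pr]
  have ht2 : ∀ γ, γ < δ → (pr δ q _ hS).t γ = q.t γ := by
    intro γ hγ
    simp [pr, hγ]
  have hbq : ∀ x ∈ (pr δ q _ hS).body, x ∈ q.body := by
    intro x hx
    have := (mem_pr.1 hx).1
    rwa [Cond.body_res_of_suppIn hq] at this
  refine ⟨pr δ q _ hS, A, C, suppIn_pr, ⟨?_, ?_⟩, hAm, hC, ?_⟩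
  · intro x hxr γ
    rcases lt_trichotomy γ δ with h | h | h
    · exact Cond.mem_res.1 (hqp.1 (hbq x hxr)) γ h
    · rw [h]
      exact Br_comp_subset _ _ (mem_pr.1 hxr).2
    · rw [hp γ (by simpa using h), Br_triv]
      exact mem_univ _
  · intro γ hγ x hxr τ hτ
    rcases Finset.mem_insert.1 hγ with h | h
    · subst h
      rw [ht1, nd_comp, nd_glueS (fun σ => hg1 σ x) hτ]
    · have hlt : γ < δ := hF h
      rw [ht2 γ hlt, hqp.2 γ h x (hbq x hxr) τ hτ, Cond.res_t p (mem_Iio.2 hlt)]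
  · intro x hxr τ hτ hxδ
    rw [ht1] at hxδ
    have hmem : x δ ∈ Br (comp (p.t δ x) (glueS n fun τ => g τ x)) := (mem_pr.1 hxr).2
    have h1 : x δ ∈ Br (comp (p.t δ x) (tail n τ)) :=
      (mem_Br_comp_tail (a := p.t δ x) (b := comp (p.t δ x) (glueS n fun τ => g τ x))
        (Br_comp_subset _ _) (fun σ hσ => by rw [nd_comp, nd_glueS (fun σ => hg1 σ x) hσ]) hτ
        hmem).1 hxδ
    have h2 := (Br_comp.1 h1).2
    have h3 := (mem_Br_glueS (fun σ => hg1 σ x)).1 (Br_comp.1 hmem).2 τ hτ h2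
    refine hx x (hbq x hxr) τ ((Sg_finite n).mem_toFinset.2 hτ) ?_
    rw [← c2_Br_comp_assoc]
    exact Br_comp.2 ⟨(Br_comp.1 hmem).1, h3⟩

end Pool.Agent.MP_b00c97_gt.Lav
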