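import Pool.Agent.MP_b00c97_gt.Lav.Ops
import Pool.Agent.MP_b00c97_gt.Lav.Dec
import Pool.Agent.MP_b00c97_gt.Lav.Claim2

/-!
# MP_b00c97_gt, block A: every lower set of coordinates is accessible
-/

set_option autoImplicit false

open Set MeasureTheory Filter

namespace Pool.Agent.MP_b00c97_gt.Lav

variable {K : Type} [LinearOrder K] [WellFoundedLT K]

/-- The reduction: a condition in `P_I` whose frozen coordinates are `≤ δ`. -/
theorem acc_step {I : Set K} (hI : IsLowerSet I) (hA : ∀ δ ∈ I, Acc (Iio δ))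
    (hM : ∀ δ ∈ I, ML (Iio δ)) : Acc I := by
  classical
  intro F n p D hFI hp hD
  rcases F.eq_empty_or_nonempty with rfl | hne
  · obtain ⟨d, hd, hds, hdp⟩ := hD p hp le_rfl
    exact ⟨d, hds, ⟨hdp, by simp⟩, {d}, by
      rintro e rfl; exact ⟨hd, hds⟩, countable_singleton d, fun x hx => ⟨d, rfl, hx⟩⟩
  set δ := F.max' hne with hδ
  have hδF : δ ∈ F := F.max'_mem hne
  have hδI : δ ∈ I := hFI hδF
  have hJ : IsLowerSet (Iic δ) := isLowerSet_Iic δ
  have hJI : Iic δ ⊆ I := fun ε hε => hI hε hδI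
  have hF' : ((F.erase δ : Finset K) : Set K) ⊆ Iio δ := by
    intro ε hε
    rw [Finset.mem_coe, Finset.mem_erase] at hε
    exact lt_of_le_of_ne (F.le_max' ε hε.2) hε.1
  have hins : insert δ (F.erase δ) = F := Finset.insert_erase hδF
  set D₁ : Set (Cond K) := {e | ∃ d ∈ D, d.SuppIn I ∧ d ≤ p ∧ e = d.res (Iic δ)} with hD₁
  -- density
  have hdense : ∀ q : Cond K, q.SuppIn (Iic δ) → q ≤ p.res (Iic δ) →
      ∃ e ∈ D₁, e.SuppIn (Iic δ) ∧ e ≤ q := by
    intro q hq hqp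
    obtain ⟨d, hd, hds, hdr⟩ := hD (Cond.glue (Iic δ) hJ q p)
      (Cond.suppIn_glue (hq.mono hJI) hp) (Cond.glue_le hqp)
    refine ⟨d.res (Iic δ), ⟨d, hd, hds, hdr.trans (Cond.glue_le hqp), rfl⟩,
      Cond.suppIn_res _ _, ?_⟩
    intro x hx
    have h1 := Cond.res_mono hdr hJ hx
    rw [Cond.mem_res_glue, Cond.body_res_of_suppIn hq] at h1
    exact h1
  obtain ⟨q, A, C, hq, hqn, -, hC, hcov⟩ := claim2 δ (hA δ hδI) (hM δ hδI) n (F.erase δ) hF'
    (p.res (Iic δ)) (Cond.suppIn_res _ _) (fun _ a => if a = 0 then D₁ else ∅)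
    (by
      intro τ _ q hq hqp
      obtain ⟨e, he, hes, heq⟩ := hdense q hq (hqp.trans (by
        intro x hx
        rw [mem_pr] at hx
        rw [Cond.mem_res] at hx ⊢
        intro γ hγ
        rcases lt_or_eq_of_le (mem_Iic.1 hγ) with h | h
        · have h1 := hx.1 γ h
          rwa [Cond.res_t _ hγ] at h1
        · subst h
          have h1 := Br_comp_subset _ _ hx.2
          rwa [Cond.res_t _ hγ] at h1))
      exact ⟨e, mem_iUnion.2 ⟨0, by simpa using he⟩, hes, heq⟩)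
    (fun _ _ => 1) (fun _ => measurable_const)
    (by
      intro τ a d hd x _
      by_cases ha : a = 0
      · omega
      · simp [ha] at hd)
  rw [hins] at hqn
  -- the countable set of the chosen members of `D`
  have hCD : ∀ τ a, ∀ e ∈ C τ a, ∃ d ∈ D, d.SuppIn I ∧ d ≤ p ∧ e = d.res (Iic δ) := by
    intro τ a e he
    have h1 := (hC τ a).2 he
    by_cases ha : a = 0
    · have h2 : e ∈ D₁ := by simpa [ha] using h1
      exact h2
    · simp [ha] at h1
  choose! f hf1 hf2 hf3 hf4 using hCD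
  set C' : Set (Cond K) := ⋃ τ ∈ Sg n, ⋃ a, (f τ a) '' (C τ a) with hC'
  have hC'c : C'.Countable :=
    (Sg_finite n).countable.biUnion fun τ _ => countable_iUnion fun a => (hC τ a).1.image _
  obtain ⟨r, d, j, hr, hrn, -, hdC, -, hrd⟩ := mix_tails hJ hJI
    (F := F) (fun ε hε => mem_Iic.2 (F.le_max' ε (Finset.mem_coe.1 hε))) hp hq hqn C' hC'c
    (by
      intro d hd
      rw [hC'] at hd
      simp only [mem_iUnion, mem_image] at hd
      obtain ⟨τ, -, a, e, he, rfl⟩ := hd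
      exact ⟨hf2 τ a e he, hf3 τ a e he⟩)
    (by
      intro x hx
      obtain ⟨τ, ⟨hτ, hτu⟩, -⟩ := existsUnique_tail n (idx (q.t δ x) (x δ))
      obtain ⟨e, he, hxe⟩ := hcov x hx τ hτ (Br_comp.2 ⟨hx δ, hτu⟩)
      refine ⟨f τ (A τ x) e, ?_, ?_⟩
      · rw [hC']
        simp only [mem_iUnion, mem_image]
        exact ⟨τ, hτ, A τ x, e, he, rfl⟩
      · rw [← hf4 τ (A τ x) e he]
        exact hxe)
  refine ⟨r, hr, hrn, C', ?_, hC'c, fun x hx => ⟨d (j x), hdC _, hrd x hx⟩⟩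
  intro d hd
  rw [hC'] at hd
  simp only [mem_iUnion, mem_image] at hd
  obtain ⟨τ, -, a, e, he, rfl⟩ := hd
  exact ⟨hf1 τ a e he, hf2 τ a e he⟩

theorem acc_Iio (δ : K) : Acc (Iio δ) := by
  induction δ using WellFoundedLT.induction with
  | ind δ ih =>
    refine acc_step (isLowerSet_Iio δ) (fun ε hε => ih ε hε) fun ε hε => ?_
    exact ml_of_acc (isLowerSet_Iio ε) (ih ε hε) fun η hη => ih η (lt_trans hη hε)

theorem acc_all (I : Set K) (hI : IsLowerSet I) : Acc I :=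
  acc_step hI (fun δ _ => acc_Iio δ) fun δ _ =>
    ml_of_acc (isLowerSet_Iio δ) (acc_Iio δ) fun η _ => acc_Iio η

theorem ml_all (I : Set K) (hI : IsLowerSet I) : ML I :=
  ml_of_acc hI (acc_all I hI) fun δ _ => acc_Iio δ

end Pool.Agent.MP_b00c97_gt.Lav
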