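import Pool.Agent.MP_b00c97_gt.Lav.Loc
import Pool.Agent.MP_b00c97_gt.Lav.AccAll

/-!
# MP_b00c97_gt, part P': block W2 (the generic point)
-/

set_option autoImplicit false

open Set MeasureTheory Filter

namespace Pool.Agent.MP_b00c97_gt.Lav

open Pool.Agent.BVM Pool.Agent.MP9096b7

variable {K : Type} [LinearOrder K] [WellFoundedLT K]

variable {B : Type} [CompleteBooleanAlgebra B] {em : Cond K → B}

/-- The truth value of the value of the generic point at `γ n` being `k`. -/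
noncomputable def w2val (em : Cond K → B) (γ : K) (n k : ℕ) : B :=
  ⨆ p : {p : Cond K // ∀ x ∈ p.body, x γ n = k}, em p.1

theorem w2_common (he : IsEm em) {p q : Cond K} {ω : Ult B} (hp : ω.V (em p)) (hq : ω.V (em q)) :
    ∃ x, x ∈ p.body ∧ x ∈ q.body := by
  have h1 : em p ⊓ em q ≠ ⊥ := ω.ne_bot ((ω.inf' _ _).2 ⟨hp, hq⟩)
  obtain ⟨r, h2, h3⟩ := he.compat p q h1
  obtain ⟨x, hx⟩ := r.exists_mem
  exact ⟨x, h2 hx, h3 hx⟩

theorem w2_meas_val (γ : K) (n k : ℕ) :
    MeasurableSet[𝓑 (univ : Set K)] {x : K → ℕ → ℕ | x γ n = k} :=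
  meas_real.1 (meas_coord (mem_univ γ)) n k

theorem w2_gen_val (he : IsEm em) (γ : K) (n : ℕ) :
    ∀ᶠ ω in genN B, ∀ k, gen em ω γ n = k ↔ ω.V (w2val em γ n k) := by
  have h1 : ∀ᶠ ω in genN B, ∀ k, ω.V (w2val em γ n k) ↔
      ∃ p : {p : Cond K // ∀ x ∈ p.body, x γ n = k}, ω.V (em p.1) :=
    eventually_countable_forall.2 fun k =>
      gen_iSup (fun p : {p : Cond K // ∀ x ∈ p.body, x γ n = k} => em p.1)
  have h2 : ∀ᶠ ω in genN B, ∃ k, ω.V (w2val em γ n k) := by
    refine gen_dense' he fun q => ?_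
    obtain ⟨r, k, -, hr, hk⟩ := ml_fun (I := (univ : Set K)) isLowerSet_univ
      (acc_all univ isLowerSet_univ) (ml_all univ isLowerSet_univ) (fun x => x γ n)
      (fun k => w2_meas_val γ n k) q q.suppIn_univ
    refine ⟨r, hr, Eventually.of_forall fun ω hω => ⟨k, ?_⟩⟩
    exact ω.mono (le_iSup (fun p : {p : Cond K // ∀ x ∈ p.body, x γ n = k} => em p.1)
      ⟨r, hk⟩) hω
  filter_upwards [h1, h2] with ω h1 h2 k
  have huniq : ∀ k k', ω.V (w2val em γ n k) → ω.V (w2val em γ n k') → k = k' := by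
    intro k k' hk hk'
    obtain ⟨⟨p, hp⟩, hp'⟩ := (h1 k).1 hk
    obtain ⟨⟨q, hq⟩, hq'⟩ := (h1 k').1 hk'
    obtain ⟨x, hx, hx'⟩ := w2_common he hp' hq'
    exact (hp x hx).symm.trans (hq x hx')
  classical
  have hgen : ω.V (w2val em γ n (gen em ω γ n)) := by
    have h3 : ∃ k, ω.V (⨆ p : {p : Cond K // ∀ x ∈ p.body, x γ n = k}, em p.1) := h2
    have h4 : gen em ω γ n = Nat.find h3 := dif_pos h3
    rw [h4]
    exact Nat.find_spec h3
  exact ⟨fun h => h ▸ hgen, fun h => huniq _ _ hgen h⟩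

theorem meas_gen (he : IsEm em) (γ : K) : Measurable[genM B] fun ω => gen em ω γ := by
  refine meas_real.2 fun n k => ?_
  refine genM_iff.2 ⟨w2val em γ n k, ?_⟩
  filter_upwards [w2_gen_val he γ n] with ω h
  exact h k

/-- The property which is proved for all measurable sets. -/
def W2P (em : Cond K → B) (A : Set (K → ℕ → ℕ)) : Prop :=
  MeasurableSet[𝓑 (univ : Set K)] A ∧ ∀ p : Cond K,
    (p.body ⊆ A → ∀ᶠ ω in genN B, ω.V (em p) → gen em ω ∈ A) ∧
    (Disjoint p.body A → ∀ᶠ ω in genN B, ω.V (em p) → gen em ω ∉ A)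

theorem w2P_compl {A : Set (K → ℕ → ℕ)} (h : W2P em A) : W2P em Aᶜ := by
  refine ⟨h.1.compl, fun p => ⟨fun h1 => ?_, fun h1 => ?_⟩⟩
  · have := (h.2 p).2 (disjoint_left.2 fun x hx hxA => h1 hx hxA)
    exact this.mono fun ω hω hp => hω hp
  · have := (h.2 p).1 (fun x hx => by
      by_contra hxA
      exact (disjoint_left.1 h1 hx) hxA)
    exact this.mono fun ω hω hp hcon => hcon (hω hp)

theorem w2P_iUnion (he : IsEm em) {A : ℕ → Set (K → ℕ → ℕ)} (h : ∀ i, W2P em (A i)) :
    W2P em (⋃ i, A i) := by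
  classical
  refine ⟨MeasurableSet.iUnion fun i => (h i).1, fun p => ⟨fun h1 => ?_, fun h1 => ?_⟩⟩
  · refine gen_dense he p fun q hq => ?_
    let f : (K → ℕ → ℕ) → ℕ := fun x => if hx : ∃ i, x ∈ A i then Nat.find hx else 0
    have hf : ∀ i, MeasurableSet[𝓑 (univ : Set K)] {x | f x = i} := by
      intro i
      have h2 : {x | f x = i} = ({x | x ∈ A i ∧ ∀ j < i, x ∉ A j} ∪
          {x | (¬ ∃ j, x ∈ A j) ∧ i = 0}) := by
        ext x
        simp only [mem_ofPred_eq, mem_union, f]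
        by_cases hx : ∃ j, x ∈ A j
        · rw [dif_pos hx]
          constructor
          · intro hi
            left
            rw [Nat.find_eq_iff] at hi
            exact hi
          · rintro (hi | ⟨hi, -⟩)
            · rw [Nat.find_eq_iff]
              exact hi
            · exact absurd hx hi
        · rw [dif_neg hx]
          constructor
          · intro hi
            exact Or.inr ⟨hx, hi.symm⟩
          · rintro (⟨hi, -⟩ | ⟨-, hi⟩)
            · exact absurd ⟨i, hi⟩ hx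
            · exact hi.symm
      rw [h2]
      refine MeasurableSet.union ?_ ?_
      · exact meas_and (P := fun x => x ∈ A i) (Q := fun x => ∀ j < i, x ∉ A j) (h i).1
          (meas_all fun j => meas_imp (meas_const _) (h j).1.compl)
      · exact meas_and (meas_not (meas_ex fun j => (h j).1)) (meas_const _)
    obtain ⟨r, i, -, hr, hi⟩ := ml_fun (I := (univ : Set K)) isLowerSet_univ
      (acc_all univ isLowerSet_univ) (ml_all univ isLowerSet_univ) f hf q q.suppIn_univ
    refine ⟨r, hr, ?_⟩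
    have h3 : r.body ⊆ A i := by
      intro x hx
      have hex : ∃ i, x ∈ A i := mem_iUnion.1 (h1 (hq (hr hx)))
      have h4 : f x = Nat.find hex := dif_pos hex
      rw [← hi x hx, h4]
      exact Nat.find_spec hex
    exact (((h i).2 r).1 h3).mono fun ω hω hp => mem_iUnion.2 ⟨i, hω hp⟩
  · have h2 : ∀ᶠ ω in genN B, ∀ i, ω.V (em p) → gen em ω ∉ A i :=
      eventually_countable_forall.2 fun i =>
        ((h i).2 p).2 (h1.mono_right (subset_iUnion A i))
    filter_upwards [h2] with ω h2 hp hcon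
    obtain ⟨i, hi⟩ := mem_iUnion.1 hcon
    exact h2 i hp hi

theorem w2P_val (he : IsEm em) (γ : K) (n k : ℕ) : W2P em {x | x γ n = k} := by
  refine ⟨w2_meas_val γ n k, fun p => ⟨fun h1 => ?_, fun h1 => ?_⟩⟩
  · filter_upwards [w2_gen_val he γ n] with ω h hp
    refine (h k).2 ?_
    exact ω.mono (le_iSup (fun p : {p : Cond K // ∀ x ∈ p.body, x γ n = k} => em p.1)
      ⟨p, fun x hx => h1 hx⟩) hp
  · filter_upwards [w2_gen_val he γ n,
      gen_iSup (fun p : {p : Cond K // ∀ x ∈ p.body, x γ n = k} => em p.1)] with ω h h' hp hcon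
    obtain ⟨⟨q, hq⟩, hq'⟩ := h'.1 ((h k).1 hcon)
    obtain ⟨x, hx, hx'⟩ := w2_common he hp hq'
    exact disjoint_left.1 h1 hx (hq x hx')

/-- The σ-algebra of the sets with the property `W2P`. -/
def w2C (he : IsEm em) : MeasurableSpace (K → ℕ → ℕ) where
  MeasurableSet' := W2P em
  measurableSet_empty := by
    refine ⟨@MeasurableSet.empty _ (𝓑 (univ : Set K)), fun p => ⟨fun h => ?_, fun _ => ?_⟩⟩
    · obtain ⟨x, hx⟩ := p.exists_mem
      exact (h hx).elim
    · exact Eventually.of_forall fun ω _ h => h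
  measurableSet_compl := fun A h => w2P_compl h
  measurableSet_iUnion := fun A h => w2P_iUnion he h

theorem w2P_all (he : IsEm em) {A : Set (K → ℕ → ℕ)} (hA : MeasurableSet[𝓑 (univ : Set K)] A) :
    W2P em A := by
  have h1 : ∀ γ : K, Measurable[w2C he] fun x : K → ℕ → ℕ => x γ := fun γ =>
    meas_real.2 fun n k => w2P_val he γ n k
  have h2 : Measurable[w2C he] fun x : K → ℕ → ℕ => x :=
    (@measurable_pi_iff (K → ℕ → ℕ) K (fun _ => ℕ → ℕ) (w2C he) _ _).2 h1
  rw [𝓑_univ] at hA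
  exact h2 hA

/-- What holds at all points of `p` holds at the generic point if `p` is in the filter. -/
theorem transfer (he : IsEm em) (p : Cond K) {A : Set (K → ℕ → ℕ)}
    (hA : MeasurableSet[𝓑 univ] A) (h : p.body ⊆ A) :
    ∀ᶠ ω in genN B, ω.V (em p) → gen em ω ∈ A := ((w2P_all he hA).2 p).1 h

theorem transfer' (he : IsEm em) (p : Cond K) :
    ∀ᶠ ω in genN B, ω.V (em p) ↔ gen em ω ∈ p.body := by
  have hm : MeasurableSet[𝓑 (univ : Set K)] p.body := Cond.meas_body isLowerSet_univ p.suppIn_univ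
  have h1 : ∀ᶠ ω in genN B, gen em ω ∈ p.body → ω.V (em p) := by
    refine gen_dense' he fun q => ?_
    obtain ⟨r, -, hr, hr' | hr'⟩ := ml_all univ isLowerSet_univ p.body q hm q.suppIn_univ
    · exact ⟨r, hr, Eventually.of_forall fun ω hω _ => ω.mono (he.mono r p hr') hω⟩
    · refine ⟨r, hr, ?_⟩
      exact (((w2P_all he hm).2 r).2 hr').mono fun ω hω hV hcon => absurd hcon (hω hV)
  filter_upwards [transfer he p hm Subset.rfl, h1] with ω h2 h3
  exact ⟨h2, h3⟩

/-- Local representation of the names for reals. -/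
theorem local_rep (he : IsEm em) (F : Ult B → ℕ → ℕ) (hF : Measurable[genM B] F) (p : Cond K) :
    ∃ q ≤ p, ∃ f : (K → ℕ → ℕ) → ℕ → ℕ, Measurable[𝓑 univ] f ∧
      ∀ᶠ ω in genN B, ω.V (em q) → F ω = f (gen em ω) := by
  classical
  let D : ℕ → Set (Cond K) := fun n => {q | ∃ k, ∀ᶠ ω in genN B, ω.V (em q) → F ω n = k}
  have hD : ∀ n, DenseBelow univ p (D n) := by
    intro n q _ _
    have h1 : ∀ k, ∃ b : B, ∀ᶠ ω in genN B, (F ω n = k ↔ ω.V b) := fun k =>
      genM_iff.1 (meas_real.1 hF n k)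
    choose b hb using h1
    have h2 : ∃ k, em q ⊓ b k ≠ ⊥ := by
      by_contra hcon
      push Not at hcon
      obtain ⟨ω, hω, hV⟩ := gen_exists (eventually_countable_forall.2 hb) (he.ne_bot q)
      have hω' : ∀ k, F ω n = k ↔ ω.V (b k) := hω
      have h3 : ω.V (em q ⊓ b (F ω n)) := (ω.inf' _ _).2 ⟨hV, (hω' _).1 rfl⟩
      rw [hcon] at h3
      exact ω.bot h3
    obtain ⟨k, hk⟩ := h2
    obtain ⟨d, hd, hdk⟩ := he.exists_le hk
    refine ⟨d, ⟨k, ?_⟩, d.suppIn_univ, hd⟩
    filter_upwards [hb k] with ω h hV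
    exact h.2 (ω.mono hdk hV)
  obtain ⟨q, -, hq, hcov⟩ := acc_countable (I := (univ : Set K)) isLowerSet_univ
    (acc_all univ isLowerSet_univ) 0 ∅ (by simp) p p.suppIn_univ D hD
  have hC : ∀ n, ∃ e : ℕ → Cond K, (∀ j, e j ∈ D n) ∧ ∀ x ∈ q.body, ∃ j, x ∈ (e j).body := by
    intro n
    obtain ⟨C, hCD, hCc, hCx⟩ := hcov n
    obtain ⟨x₀, hx₀⟩ := q.exists_mem
    obtain ⟨d₀, hd₀, -⟩ := hCx x₀ hx₀
    obtain ⟨e, he'⟩ := hCc.exists_eq_range ⟨d₀, hd₀⟩
    refine ⟨e, fun j => (hCD (he' ▸ mem_range_self j)).1, fun x hx => ?_⟩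
    obtain ⟨d, hd, hxd⟩ := hCx x hx
    rw [he'] at hd
    obtain ⟨j, rfl⟩ := hd
    exact ⟨j, hxd⟩
  choose e he1 he2 using hC
  choose k hk using he1
  have hm : ∀ n j, MeasurableSet[𝓑 (univ : Set K)] (e n j).body := fun n j =>
    Cond.meas_body isLowerSet_univ (e n j).suppIn_univ
  let f : (K → ℕ → ℕ) → ℕ → ℕ := fun x n =>
    if hx : ∃ j, x ∈ (e n j).body then k n (Nat.find hx) else 0
  refine ⟨q, hq.1, f, ?_, ?_⟩
  · refine meas_real.2 fun n m => ?_
    have h2 : {x | f x n = m} = ({x | ∃ j, x ∈ (e n j).body ∧ (∀ i < j, x ∉ (e n i).body) ∧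
        k n j = m} ∪ {x | (¬ ∃ j, x ∈ (e n j).body) ∧ 0 = m}) := by
      ext x
      simp only [mem_ofPred_eq, mem_union, f]
      by_cases hx : ∃ j, x ∈ (e n j).body
      · rw [dif_pos hx]
        constructor
        · intro hi
          exact Or.inl ⟨Nat.find hx, Nat.find_spec hx, fun i hi => Nat.find_min hx hi, hi⟩
        · rintro (⟨j, hj1, hj2, hj3⟩ | ⟨hi, -⟩)
          · rw [(Nat.find_eq_iff hx).2 ⟨hj1, hj2⟩]
            exact hj3
          · exact absurd hx hi
      · rw [dif_neg hx]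
        constructor
        · intro hi
          exact Or.inr ⟨hx, hi⟩
        · rintro (⟨j, hj, -⟩ | ⟨-, hi⟩)
          · exact absurd ⟨j, hj⟩ hx
          · exact hi
    rw [h2]
    refine MeasurableSet.union ?_ ?_
    · exact meas_ex fun j => meas_and (hm n j) (meas_and
        (meas_all fun i => meas_imp (meas_const _) (hm n i).compl) (meas_const _))
    · exact meas_and (meas_not (meas_ex fun j => hm n j)) (meas_const _)
  · have h1 : ∀ᶠ ω in genN B, ∀ n j, ω.V (em (e n j)) → F ω n = k n j :=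
      eventually_countable_forall.2 fun n => eventually_countable_forall.2 fun j => hk n j
    have h2 : ∀ᶠ ω in genN B, ∀ n j, ω.V (em (e n j)) ↔ gen em ω ∈ (e n j).body :=
      eventually_countable_forall.2 fun n => eventually_countable_forall.2 fun j =>
        transfer' he (e n j)
    filter_upwards [h1, h2, transfer' he q] with ω h1 h2 h3 hV
    funext n
    have hex : ∃ j, gen em ω ∈ (e n j).body := he2 n _ (h3.1 hV)
    have h4 : f (gen em ω) n = k n (Nat.find hex) := dif_pos hex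
    rw [h4]
    exact h1 n _ ((h2 n _).2 (Nat.find_spec hex))

theorem strict_gen (he : IsEm em) {I : Set K} {f : (K → ℕ → ℕ) → ℕ → ℕ}
    (hf : Measurable[𝓑 I] f) : Strict em I fun ω => f (gen em ω) := by
  refine ⟨meas_subst hf fun δ _ => meas_gen he δ, fun p hp => ⟨p, le_refl p, hp, f, hf, ?_⟩⟩
  exact Eventually.of_forall fun ω _ => rfl

theorem Strict.wk (he : IsEm em) {I : Set K} (hI : IsLowerSet I) {F : Ult B → ℕ → ℕ}
    (hF : Strict em I F) : Wk em I F := by
  refine ⟨hF.1, fun p => ?_⟩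
  obtain ⟨q, hq, hqI, f, hf, h⟩ := hF.2 (p.res I) (p.suppIn_res I)
  refine ⟨Cond.glue I hI q p, Cond.glue_le hq, f, hf, ?_⟩
  have hle : Cond.glue I hI q p ≤ q := by
    intro x hx γ
    by_cases hγ : γ ∈ I
    · exact (Cond.mem_glue.1 hx).1 γ hγ
    · rw [hqI γ hγ, Br_triv]
      exact mem_univ _
  filter_upwards [h] with ω h hV
  exact h (ω.mono (he.mono _ _ hle) hV)

end Pool.Agent.MP_b00c97_gt.Lav
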