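import Pool.Agent.MP_b00c97_gt.Lav.Close
import Pool.Agent.MP_b00c97_gt.Lav.Gen

/-!
# MP_b00c97_gt: the closure point for the operations
-/

set_option autoImplicit false

open Set MeasureTheory Filter Cardinal

namespace Pool.Agent.MP_b00c97_gt.Lav

open Pool.Agent.BVM Pool.Agent.MP9096b7

variable {K : Type} [LinearOrder K] [WellFoundedLT K]

/-- The closure point for the operations `Op`. -/
theorem exists_strict_point [Nonempty K] (hcof : ∀ g : (ℕ → ℕ) → K, ∃ α, ∀ c, g c < α)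
    (hsmall : ∀ α : K, ∃ e : (ℕ → ℕ) → K, ∀ β ≤ α, ∃ c, e c = β)
    {B : Type} [CompleteBooleanAlgebra B] {em : Cond K → B} (he : IsEm em)
    (Op : ℕ → (Ult B → ℕ → ℕ) → (Ult B → ℕ → ℕ) → (Ult B → ℕ → ℕ))
    (hOp : ∀ i (F G : Ult B → ℕ → ℕ), Measurable[genM B] F → Measurable[genM B] G →
      Measurable[genM B] (Op i F G)) :
    ∃ γ : K, UCof (Iio γ) ∧ ∀ i (f g : (K → ℕ → ℕ) → ℕ → ℕ), Measurable[𝓑 (Iio γ)] f →
      Measurable[𝓑 (Iio γ)] g →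
        Strict em (Iio γ) (Op i (fun ω => f (gen em ω)) fun ω => g (gen em ω)) := by
  classical
  -- the whole index set has uncountable cofinality
  have hU : UCof (univ : Set K) := by
    refine ⟨univ_nonempty, fun g _ => ?_⟩
    obtain ⟨α, hα⟩ := hcof fun c => g (c 0)
    exact ⟨α, mem_univ α, fun n => hα fun _ => n⟩
  -- the bound
  have key : ∀ t : ℕ × ((K → ℕ → ℕ) → ℕ → ℕ) × ((K → ℕ → ℕ) → ℕ → ℕ) × Cond K,
      ∃ β : K, Measurable[𝓑 univ] t.2.1 → Measurable[𝓑 univ] t.2.2.1 →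
        ∃ q ≤ t.2.2.2, q.SuppIn (Iio β) ∧ ∃ h : (K → ℕ → ℕ) → ℕ → ℕ, Measurable[𝓑 (Iio β)] h ∧
          ∀ᶠ ω in genN B, ω.V (em q) →
            Op t.1 (fun ω => t.2.1 (gen em ω)) (fun ω => t.2.2.1 (gen em ω)) ω =
              h (gen em ω) := by
    rintro ⟨i, f, g, r⟩
    by_cases hf : Measurable[𝓑 univ] f
    · by_cases hg : Measurable[𝓑 univ] g
      · obtain ⟨q, hq, h, hh, hω⟩ := local_rep he _
          (hOp i _ _ (strict_gen he hf).1 (strict_gen he hg).1) r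
        obtain ⟨β₁, -, h1⟩ := UCof.exists_fun isLowerSet_univ hU hh
        obtain ⟨β₂, -, h2⟩ := UCof.exists_cond isLowerSet_univ hU (Cond.suppIn_univ q)
        refine ⟨max β₁ β₂, fun _ _ => ⟨q, hq, h2.mono (Iio_subset_Iio (le_max_right _ _)), h,
          Meas.mono (Iio_subset_Iio (le_max_left _ _)) h1, hω⟩⟩
      · exact ⟨Classical.arbitrary K, fun _ h => absurd h hg⟩
    · exact ⟨Classical.arbitrary K, fun h _ => absurd h hf⟩
  choose c hc using key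
  -- the closure point
  obtain ⟨γ, hγ, hcl⟩ := exists_closed hcof
    (fun β : K => {t : ℕ × ((K → ℕ → ℕ) → ℕ → ℕ) × ((K → ℕ → ℕ) → ℕ → ℕ) × Cond K |
      Measurable[𝓑 (Iio β)] t.2.1 ∧ Measurable[𝓑 (Iio β)] t.2.2.1 ∧ t.2.2.2.SuppIn (Iio β)})
    (by
      rintro β β' hβ t ⟨h1, h2, h3⟩
      exact ⟨Meas.mono (Iio_subset_Iio hβ) h1, Meas.mono (Iio_subset_Iio hβ) h2,
        h3.mono (Iio_subset_Iio hβ)⟩)
    (by
      intro β
      obtain ⟨e, he'⟩ := hsmall β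
      have he2 : ∀ β' ∈ Iio β, ∃ c, e c = β' := fun β' hβ' => he' β' (le_of_lt hβ')
      obtain ⟨E, hE⟩ := exists_enum_fun e he2
      obtain ⟨E', hE'⟩ := exists_enum_cond (isLowerSet_Iio β) e he2
      refine ⟨fun c => (c (Nat.pair 0 0), E fun n => c (Nat.pair 1 n),
        E fun n => c (Nat.pair 2 n), E' fun n => c (Nat.pair 3 n)), ?_⟩
      rintro ⟨i, f, g, r⟩ ⟨h1, h2, h3⟩
      obtain ⟨c₁, hc₁⟩ := hE f h1
      obtain ⟨c₂, hc₂⟩ := hE g h2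
      obtain ⟨c₃, hc₃⟩ := hE' r h3
      refine ⟨fun m => if m.unpair.1 = 0 then i else if m.unpair.1 = 1 then c₁ m.unpair.2 else
        if m.unpair.1 = 2 then c₂ m.unpair.2 else c₃ m.unpair.2, ?_⟩
      simp [hc₁, hc₂, hc₃])
    (by
      rintro γ hγ ⟨i, f, g, r⟩ ⟨h1, h2, h3⟩
      obtain ⟨β₁, hβ₁, h1'⟩ := UCof.exists_fun (isLowerSet_Iio γ) hγ h1
      obtain ⟨β₂, hβ₂, h2'⟩ := UCof.exists_fun (isLowerSet_Iio γ) hγ h2
      obtain ⟨β₃, hβ₃, h3'⟩ := UCof.exists_cond (isLowerSet_Iio γ) hγ h3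
      refine ⟨max β₁ (max β₂ β₃), max_lt hβ₁ (max_lt hβ₂ hβ₃),
        Meas.mono (Iio_subset_Iio (le_max_left _ _)) h1',
        Meas.mono (Iio_subset_Iio ((le_max_left _ _).trans (le_max_right _ _))) h2',
        h3'.mono (Iio_subset_Iio ((le_max_right _ _).trans (le_max_right _ _)))⟩)
    c
  refine ⟨γ, hγ, fun i f g hf hg => ⟨hOp i _ _ (strict_gen he hf).1 (strict_gen he hg).1,
    fun p hp => ?_⟩⟩
  have h1 := hcl (i, f, g, p) ⟨hf, hg, hp⟩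
  obtain ⟨q, hq, hqs, h, hh, hω⟩ := hc (i, f, g, p) (Meas.mono (subset_univ _) hf)
    (Meas.mono (subset_univ _) hg)
  exact ⟨q, hq, hqs.mono (Iio_subset_Iio h1.le), h, Meas.mono (Iio_subset_Iio h1.le) hh, hω⟩

end Pool.Agent.MP_b00c97_gt.Lav
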