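import Pool.Agent.MP_b00c97_gt.Lav.Ops

/-!
# MP_b00c97_gt, part P': thinning out at one coordinate
-/

set_option autoImplicit false

open Set MeasureTheory Filter

namespace Pool.Agent.MP_b00c97_gt.Lav

variable {K : Type} [LinearOrder K] [WellFoundedLT K]

section G

open Classical in
/-- Replace the tree at one coordinate. -/
noncomputable def updCond (γ : K) (p : Cond K) (S : (K → ℕ → ℕ) → Code)
    (hS : Measurable[𝓑 (Iio γ)] S) : Cond K where
  t δ := if δ = γ then S else p.t δ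
  meas δ := by
    split_ifs with h
    · subst h; exact hS
    · exact p.meas δ
  ctbl := by
    refine (p.ctbl.union (countable_singleton γ)).mono ?_
    intro δ hδ
    simp only [mem_ofPred_eq] at hδ
    split_ifs at hδ with h
    · exact Or.inr h
    · exact Or.inl hδ

omit [WellFoundedLT K] in
theorem updCond_t (γ : K) (p : Cond K) (S : (K → ℕ → ℕ) → Code)
    (hS : Measurable[𝓑 (Iio γ)] S) : (updCond γ p S hS).t γ = S := if_pos rfl

omit [WellFoundedLT K] in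
theorem updCond_t' (γ : K) (p : Cond K) (S : (K → ℕ → ℕ) → Code)
    (hS : Measurable[𝓑 (Iio γ)] S) {δ : K} (h : δ ≠ γ) : (updCond γ p S hS).t δ = p.t δ :=
  if_neg h

omit [WellFoundedLT K] in
theorem meas_infinite_g {Ω : Type*} {m : MeasurableSpace Ω} {P : Ω → ℕ → Prop}
    (hP : ∀ k, MeasurableSet[m] {ω | P ω k}) : MeasurableSet[m] {ω | {k | P ω k}.Infinite} := by
  refine meas_ev _ (meas_all (P := fun N ω => ∃ k, N < k ∧ P ω k) fun N =>
    meas_ex fun k => meas_and (meas_const (N < k)) (hP k)) fun ω => ?_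
  rw [Set.infinite_iff_exists_gt]
  constructor
  · intro h N
    obtain ⟨k, hk, hN⟩ := h N
    exact ⟨k, hN, hk⟩
  · intro h N
    obtain ⟨k, hN, hk⟩ := h N
    exact ⟨k, hk, hN⟩

omit [WellFoundedLT K] in
/-- Thinning out at one coordinate: a predicate on the steps of the index. -/
theorem exists_filt (γ : K) (p : Cond K) (P : (K → ℕ → ℕ) → List ℕ → ℕ → Prop)
    (hP : ∀ σ k, MeasurableSet[𝓑 (Iio γ)] {x | P x σ k})
    (h : ∀ x ∈ p.body, ∀ σ, {k | P x σ k}.Infinite) :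
    ∃ q ≤ p, (∀ δ, δ ≠ γ → q.t δ = p.t δ) ∧ ∀ x ∈ q.body, ∀ n,
      P x (pre (idx (p.t γ x) (x γ)) n) (idx (p.t γ x) (x γ) n) := by
  let Q : (K → ℕ → ℕ) → List ℕ → ℕ → Prop := fun x σ k =>
    P x σ k ∨ ¬ ∀ σ', {k | P x σ' k}.Infinite
  have hQm : ∀ σ k, MeasurableSet[𝓑 (Iio γ)] {x | Q x σ k} := fun σ k =>
    meas_or (hP σ k) (meas_not (meas_all fun σ' => meas_infinite_g (hP σ')))
  have hQ : ∀ x σ, {k | Q x σ k}.Infinite := by
    intro x σ
    by_cases hx : ∀ σ', {k | P x σ' k}.Infinite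
    · exact (hx σ).mono fun k hk => Or.inl hk
    · have : {k | Q x σ k} = univ := eq_univ_of_forall fun k => Or.inr hx
      rw [this]; exact infinite_univ
  let q := updCond γ p (fun x => comp (p.t γ x) (filt (Q x))) (meas_comp (p.meas γ) (meas_filt hQm))
  have hq : ∀ x ∈ q.body, x ∈ p.body ∧ idx (p.t γ x) (x γ) ∈ Br (filt (Q x)) := by
    intro x hx
    have h1 := hx γ
    rw [updCond_t, Br_comp] at h1
    refine ⟨fun δ => ?_, h1.2⟩
    by_cases hδ : δ = γ
    · subst hδ; exact h1.1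
    · have := hx δ
      rwa [updCond_t' _ _ _ _ hδ] at this
  refine ⟨q, fun x hx => (hq x hx).1, fun δ hδ => updCond_t' _ _ _ _ hδ, fun x hx n => ?_⟩
  obtain ⟨h1, h2⟩ := hq x hx
  rw [mem_Br_filt fun σ _ => hQ x σ] at h2
  rcases h2 n with h3 | h3
  · exact h3
  · exact absurd (h x h1) h3

omit [WellFoundedLT K] in
theorem hit (γ : K) (p : Cond K) (A : (K → ℕ → ℕ) → ℕ → ℕ) (hA : Measurable[𝓑 (Iio γ)] A)
    (h : ∀ x ∈ p.body, ∀ τ, {k | A x (nxt (p.t γ x) τ k) = 0}.Infinite) :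
    ∃ q ≤ p, ∀ x ∈ q.body, ∀ᶠ k in atTop, A x (x γ k) = 0 := by
  obtain ⟨q, hq, -, h1⟩ := exists_filt γ p (fun x σ k => A x (nxt (p.t γ x) σ k) = 0)
    (fun σ k => meas_sel_set (P := fun i x => A x i = 0) (meas_nxt_eq (p.meas γ) σ k)
      fun i => meas_real.1 hA i 0) h
  refine ⟨q, hq, fun x hx => ?_⟩
  rw [eventually_atTop]
  refine ⟨(p.t γ x).1.length, fun k hk => ?_⟩
  obtain ⟨n, rfl⟩ := Nat.exists_eq_add_of_le hk
  have h2 := h1 x hx n
  have h3 := br_apply_add (p.t γ x) (idx (p.t γ x) (x γ)) n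
  rw [br_idx (hq hx γ)] at h3
  rw [h3]; exact h2

/-- The trees of a stronger condition are smaller. -/
theorem Br_subset_of_le_g {q r : Cond K} (hrq : r ≤ q) {γ : K} {x : K → ℕ → ℕ}
    (hx : x ∈ (r.res (Iio γ)).body) : Br (r.t γ x) ⊆ Br (q.t γ x) := by
  intro l hl
  obtain ⟨y, hy, hyx, hy2⟩ := r.exists_ext (J := Iio γ) (x := x) (isLowerSet_Iio γ)
    (Cond.mem_res.1 hx) (fun _ => idx (r.t γ x) l)
  have h1 : r.t γ y = r.t γ x := dep (r.meas γ) hyx
  have h2 : q.t γ y = q.t γ x := dep (q.meas γ) hyx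
  have h3 := hy2 γ (by simp)
  rw [h1, br_idx hl] at h3
  have h4 := hrq hy γ
  rwa [h2, h3] at h4

/-- The index of the Laver real dominates the functions of the earlier model. -/
theorem dominate (γ : K) {q r : Cond K} (hrq : r ≤ q) (m : (K → ℕ → ℕ) → List ℕ → ℕ)
    (hm : ∀ σ k, MeasurableSet[𝓑 (Iio γ)] {x | m x σ = k}) :
    ∃ s ≤ r, ∀ x ∈ s.body, ∀ᶠ j in atTop,
      m x (pre (idx (q.t γ x) (x γ)) j) ≤ idx (q.t γ x) (x γ) j := by
  obtain ⟨s, hs, -, h1⟩ := exists_filt γ r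
    (fun x σ' k' => ∀ i σ, ix (q.t γ x) (nd (r.t γ x) (k' :: σ')) = i :: σ → m x σ ≤ i)
    (fun σ' k' => meas_all fun i => meas_all fun σ =>
      meas_imp (meas_ix (q.meas γ) (meas_nd (r.meas γ) (k' :: σ')) (i :: σ))
        (meas_rel1 (hm σ) (· ≤ i))) (by
      intro x hx σ'
      have hsub : Br (r.t γ x) ⊆ Br (q.t γ x) :=
        Br_subset_of_le_g hrq (Cond.le_res r (Iio γ) hx)
      set a := q.t γ x
      set b := r.t γ x
      rw [Set.infinite_iff_exists_gt]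
      intro N
      refine ⟨max (N + 1) (nxt a (ix a (nd b σ')) (m x (ix a (nd b σ')))), ?_, by omega⟩
      intro i σ hi
      have h2 : nd a (i :: σ) = nd b (max (N + 1) (nxt a (ix a (nd b σ')) (m x (ix a (nd b σ'))))
          :: σ') := by
        rw [← hi]; exact nd_ix (exists_nd hsub _)
      rw [nd_cons, nd_cons, List.cons.injEq] at h2
      have h3 : ix a (nd b σ') = σ := by rw [← h2.2, ix_nd]
      rw [h3] at h2
      by_contra hlt
      push Not at hlt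
      have h4 := (nxt_mono a σ) hlt
      have h5 := (nxt_mono b σ').le_apply (x := max (N + 1) (nxt a σ (m x σ)))
      have h6 : nxt a σ (m x σ) ≤ max (N + 1) (nxt a σ (m x σ)) := le_max_right _ _
      omega)
  refine ⟨s, hs, fun x hx => ?_⟩
  have hxr : x γ ∈ Br (r.t γ x) := hs hx γ
  have hxq : x γ ∈ Br (q.t γ x) := hrq (hs hx) γ
  rw [eventually_atTop]
  refine ⟨(r.t γ x).1.length, fun j hj => ?_⟩
  obtain ⟨n, hn⟩ := Nat.exists_eq_add_of_le
    (show (r.t γ x).1.length ≤ (q.t γ x).1.length + j by omega)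
  have h2 := pre_idx hxr (n + 1)
  have h3 := pre_idx hxq (j + 1)
  have h4 : (r.t γ x).1.length + (n + 1) = (q.t γ x).1.length + (j + 1) := by omega
  rw [h4, h3] at h2
  refine h1 x hx n (idx (q.t γ x) (x γ) j) (pre (idx (q.t γ x) (x γ)) j) ?_
  have h5 : idx (r.t γ x) (x γ) n :: pre (idx (r.t γ x) (x γ)) n =
    pre (idx (r.t γ x) (x γ)) (n + 1) := rfl
  rw [h5, ← h2, ix_nd]
  rfl

theorem incr (γ : K) (p : Cond K) :
    ∃ q ≤ p, ∀ x ∈ q.body, ∀ᶠ k in atTop, x γ k < x γ (k + 1) := by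
  obtain ⟨s, hs, h1⟩ := dominate γ (q := p) (r := p) le_rfl
    (fun x σ => 1 + (nd (p.t γ x) σ).headD 0) (fun σ k =>
      meas_rel1 (meas_nd (p.meas γ) σ) (fun τ => 1 + τ.headD 0 = k))
  refine ⟨s, hs, fun x hx => ?_⟩
  have hxp : x γ ∈ Br (p.t γ x) := hs hx γ
  have h2 := h1 x hx
  rw [eventually_atTop] at h2 ⊢
  obtain ⟨N, hN⟩ := h2
  refine ⟨(p.t γ x).1.length + N, fun k hk => ?_⟩
  obtain ⟨j, hj⟩ := Nat.exists_eq_add_of_le (show (p.t γ x).1.length ≤ k + 1 by omega)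
  have h3 := hN j (by omega)
  have h4 := br_apply_add (p.t γ x) (idx (p.t γ x) (x γ)) j
  rw [br_idx hxp, ← hj] at h4
  have h5 := (nxt_mono (p.t γ x) (pre (idx (p.t γ x) (x γ)) j)).le_apply
    (x := idx (p.t γ x) (x γ) j)
  have h6 := pre_idx hxp j
  rw [← hj] at h6
  rw [← h6] at h3
  have h7 : (pre (x γ) (k + 1)).headD 0 = x γ k := rfl
  rw [h7] at h3
  omega

end G

end Pool.Agent.MP_b00c97_gt.Lav
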