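import Pool.Agent.MP_b00c97_gt.Lav.AccAll

/-!
# MP_b00c97_gt, part P', block B1: bounded decision
-/

set_option autoImplicit false

open Set MeasureTheory Filter

namespace Pool.Agent.MP_b00c97_gt.Lav

theorem bd_meas_map {Ω : Type*} {m : MeasurableSpace Ω} (A : List ℕ → Ω → ℕ)
    (hA : ∀ τ k, MeasurableSet[m] {ω | A τ ω = k}) (T : List (List ℕ)) (l : List ℕ) :
    MeasurableSet[m] {ω | T.map (fun τ => A τ ω) = l} := by
  induction T generalizing l with
  | nil => exact meas_const ([] = l)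
  | cons τ T ih =>
    cases l with
    | nil => exact meas_ev _ (meas_const False) fun ω => by simp
    | cons k l =>
      refine meas_ev _ (meas_and (hA τ k) (ih l)) fun ω => ?_
      rw [List.map_cons, List.cons.injEq]; rfl

theorem bd_bound (m : ℕ) : ∃ B : ℕ → ℕ, ∀ (b : ℕ) (l : List ℕ), l.length = m →
    (∀ k ∈ l, k < b) → Encodable.encode l < B b := by
  have h : ∀ b : ℕ, ∃ B : ℕ, ∀ l : List ℕ, l.length = m → (∀ k ∈ l, k < b) →
      Encodable.encode l < B := by
    intro b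
    have hfin : {l : List ℕ | l.length = m ∧ ∀ k ∈ l, k < b}.Finite := by
      refine ((List.finite_length_eq (Fin b) m).image (List.map fun i : Fin b => (i : ℕ))).subset ?_
      rintro l ⟨h1, h2⟩
      refine ⟨l.pmap (fun k hk => (⟨k, hk⟩ : Fin b)) h2, ?_, ?_⟩
      · simp [h1]
      · simp [List.map_pmap]
    obtain ⟨B, hB⟩ := (hfin.image (fun l => Encodable.encode l)).bddAbove
    exact ⟨B + 1, fun l h1 h2 => Nat.lt_succ_of_le (hB ⟨l, ⟨h1, h2⟩, rfl⟩)⟩
  choose B hB using h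
  exact ⟨B, hB⟩

theorem bd_sg_pos (n : ℕ) : 1 ≤ sg n :=
  Finset.card_pos.2 ⟨[], (Sg_finite n).mem_toFinset.2 (nil_mem_Sg n)⟩

variable {K : Type} [LinearOrder K] [WellFoundedLT K]

/-- The conditions deciding `f` are dense. -/
theorem bd_dense {I : Set K} (hI : IsLowerSet I) (f : (K → ℕ → ℕ) → ℕ) (hf : Measurable[𝓑 I] f)
    (p : Cond K) : DenseBelow I p {d : Cond K | ∃ v, ∀ x ∈ d.body, f x = v} := by
  intro q hq _
  obtain ⟨q', i, h1, h2, h3⟩ := ml_fun hI (acc_all I hI) (ml_all I hI) f (fun i => meas_eq hf i) q hq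
  exact ⟨q', ⟨i, h3⟩, h1, h2⟩

/-- Reading `f` from the coordinates in `J`. -/
theorem bd_read {I J : Set K} (hI : IsLowerSet I) (hJ : IsLowerSet J) (hJI : J ⊆ I) (n : ℕ)
    (F : Finset K) (hF : (F : Set K) ⊆ J) (p : Cond K) (hp : p.SuppIn I)
    (f : (K → ℕ → ℕ) → ℕ) (hf : Measurable[𝓑 I] f) :
    ∃ (q : Cond K) (f' : (K → ℕ → ℕ) → ℕ), q.SuppIn I ∧ LeN n F q p ∧ Measurable[𝓑 J] f' ∧
      ∀ x ∈ q.body, f x = f' x := by
  obtain ⟨r, d, j, h1, h2, h3, h4, h5⟩ := acc_reduce hJ hJI (acc_all J hJ) n F hF p hp _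
    (bd_dense hI f hf p)
  choose v hv using fun i => (h3 i).1
  exact ⟨r, fun x => v (j x), h1, h2, meas_fun (fun i => meas_eq h4 i) v,
    fun x hx => hv _ x (h5 x hx)⟩

theorem bound_dec {I J : Set K} (hI : IsLowerSet I) (hJ : IsLowerSet J) (hJI : J ⊆ I) (n : ℕ)
    (F : Finset K) (hF : (F : Set K) ⊆ I) (p : Cond K) (hp : p.SuppIn I)
    (f b : (K → ℕ → ℕ) → ℕ) (hf : Measurable[𝓑 I] f) (hb : Measurable[𝓑 J] b)
    (hfb : ∀ x, f x < b x) :
    ∃ (q : Cond K) (φ : (K → ℕ → ℕ) → Finset ℕ), q.SuppIn I ∧ LeN n F q p ∧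
      (∀ s, MeasurableSet[𝓑 J] {x | φ x = s}) ∧ (∀ x, (φ x).card ≤ sg n ^ F.card) ∧
      ∀ x ∈ q.body, f x ∈ φ x := by
  classical
  induction hm : F.card generalizing I F p f b with
  | zero =>
    -- `F = ∅ ⊆ J`
    obtain rfl := Finset.card_eq_zero.1 hm
    obtain ⟨q, f', h1, h2, h3, h4⟩ := bd_read hI hJ hJI n ∅ (by simp) p hp f hf
    refine ⟨q, fun x => {f' x}, h1, h2, fun s => ?_, fun x => ?_, fun x hx => ?_⟩
    · exact meas_rel1 (fun i => meas_eq h3 i) (fun k => ({k} : Finset ℕ) = s)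
    · simp
    · rw [h4 x hx]; exact Finset.mem_singleton_self _
  | succ m ih =>
    by_cases hFJ : (F : Set K) ⊆ J
    · obtain ⟨q, f', h1, h2, h3, h4⟩ := bd_read hI hJ hJI n F hFJ p hp f hf
      refine ⟨q, fun x => {f' x}, h1, h2, fun s => ?_, fun x => ?_, fun x hx => ?_⟩
      · exact meas_rel1 (fun i => meas_eq h3 i) (fun k => ({k} : Finset ℕ) = s)
      · rw [Finset.card_singleton]; exact Nat.one_le_pow _ _ (bd_sg_pos n)
      · rw [h4 x hx]; exact Finset.mem_singleton_self _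
    -- the maximal element of `F`
    have hne : F.Nonempty := Finset.card_pos.1 (by omega)
    set δ := F.max' hne with hδ
    have hδF : δ ∈ F := F.max'_mem hne
    have hδI : δ ∈ I := hF hδF
    have hδJ : δ ∉ J := by
      intro h
      exact hFJ fun γ hγ => hJ (F.le_max' γ hγ) h
    have hJδ : J ⊆ Iio δ := by
      intro γ hγ
      by_contra h
      exact hδJ (hJ (not_lt.1 h) hγ)
    have hδI' : Iic δ ⊆ I := fun γ hγ => hI hγ hδI
    have hFδ : ((F.erase δ : Finset K) : Set K) ⊆ Iio δ := by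
      intro γ hγ
      rw [Finset.mem_coe, Finset.mem_erase] at hγ
      exact lt_of_le_of_ne (F.le_max' γ hγ.2) hγ.1
    have hFδ' : (F : Set K) ⊆ Iic δ := fun γ hγ => F.le_max' γ hγ
    obtain ⟨r, f', r1, r2, r3, r4⟩ := bd_read hI (isLowerSet_Iic δ) hδI' n F hFδ' p hp f hf
    have hbδ : Measurable[𝓑 (Iio δ)] b := Meas.mono hJδ hb
    have hbδ' : Measurable[𝓑 (Iic δ)] b := Meas.mono Iio_subset_Iic_self hbδ
    let f'' : (K → ℕ → ℕ) → ℕ := fun x => if f' x < b x then f' x else 0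
    have hf'' : Measurable[𝓑 (Iic δ)] f'' := by
      refine meas_of_eq fun i => ?_
      exact meas_rel (fun i => meas_eq r3 i) (fun i => meas_eq hbδ' i)
        (fun u v => (if u < v then u else 0) = i)
    have hb0 : ∀ x, 0 < b x := fun x => lt_of_le_of_lt (Nat.zero_le _) (hfb x)
    have hfb'' : ∀ x, f'' x < b x := by
      intro x
      show (if f' x < b x then f' x else 0) < b x
      split_ifs with h
      · exact h
      · exact hb0 x
    have hD : ∀ τ ∈ Sg n, DenseBelow (Iic δ)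
        (pr δ (r.res (Iic δ)) (fun x => comp ((r.res (Iic δ)).t δ x) (tail n τ))
          (meas_comp ((r.res (Iic δ)).meas δ) measurable_const))
        (⋃ a, {d : Cond K | ∀ x ∈ d.body, f'' x = a ∧ a < b x}) := by
      intro τ _ q hq _
      obtain ⟨q', i, h1, h2, h3⟩ := ml_fun (isLowerSet_Iic δ) (acc_all _ (isLowerSet_Iic δ))
        (ml_all _ (isLowerSet_Iic δ)) f'' (fun i => meas_eq hf'' i) q hq
      refine ⟨q', mem_iUnion.2 ⟨i, fun x hx => ⟨h3 x hx, ?_⟩⟩, h1, h2⟩
      rw [← h3 x hx]; exact hfb'' x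
    obtain ⟨q, A, C, q1, q2, q3, q4, q5⟩ := claim2 δ (acc_all _ (isLowerSet_Iio δ))
      (ml_all _ (isLowerSet_Iio δ)) n (F.erase δ) hFδ (r.res (Iic δ)) (r.suppIn_res _)
      (fun _ a => {d : Cond K | ∀ x ∈ d.body, f'' x = a ∧ a < b x}) hD (fun _ => b)
      (fun _ => hbδ) (fun _ a d hd x hx => (hd x hx).2)
    rw [Finset.insert_erase hδF] at q2
    -- the tuple of the values
    let A' : List ℕ → (K → ℕ → ℕ) → ℕ := fun τ x => if A τ x < b x then A τ x else 0
    have hA' : ∀ τ k, MeasurableSet[𝓑 (Iio δ)] {x | A' τ x = k} := fun τ k =>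
      meas_rel (fun i => meas_eq (q3 τ) i) (fun i => meas_eq hbδ i)
        (fun u v => (if u < v then u else 0) = k)
    have hA'b : ∀ τ x, A' τ x < b x := by
      intro τ x
      show (if A τ x < b x then A τ x else 0) < b x
      split_ifs with h
      · exact h
      · exact hb0 x
    let T : List (List ℕ) := (Sg_finite n).toFinset.toList
    have hT : ∀ τ, τ ∈ T ↔ τ ∈ Sg n := fun τ => by
      rw [Finset.mem_toList, Set.Finite.mem_toFinset]
    have hTl : T.length = sg n := Finset.length_toList _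
    let L : (K → ℕ → ℕ) → List ℕ := fun x => T.map (fun τ => A' τ x)
    have hL : ∀ l, MeasurableSet[𝓑 (Iio δ)] {x | L x = l} := fun l => bd_meas_map A' hA' T l
    have hLl : ∀ x, (L x).length = sg n := fun x => by
      show (T.map _).length = _
      rw [List.length_map, hTl]
    obtain ⟨B, hB⟩ := bd_bound (sg n)
    have hf3 : Measurable[𝓑 (Iio δ)] (fun x => Encodable.encode (L x)) :=
      meas_fun hL (fun l => Encodable.encode l)
    have hb3 : Measurable[𝓑 J] (fun x => B (b x)) := meas_fun (fun i => meas_eq hb i) B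
    have hfb3 : ∀ x, Encodable.encode (L x) < B (b x) := by
      intro x
      refine hB (b x) (L x) (hLl x) fun k hk => ?_
      obtain ⟨τ, -, rfl⟩ := List.mem_map.1 hk
      exact hA'b τ x
    have hcard : (F.erase δ).card = m := by rw [Finset.card_erase_of_mem hδF]; omega
    obtain ⟨q₃, φ', s1, s2, s3, s4, s5⟩ := ih (isLowerSet_Iio δ) hJδ (F.erase δ) hFδ
      (q.res (Iio δ)) (q.suppIn_res _) _ _ hf3 hb3 hfb3 hcard
    -- gluing
    let q₄ := Cond.glue (Iio δ) (isLowerSet_Iio δ) q₃ q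
    have hq₄s : q₄.SuppIn (Iic δ) := Cond.suppIn_glue (s1.mono Iio_subset_Iic_self) q1
    have hq₄ : LeN n F q₄ q := by
      have h1 : LeN n (F.erase δ) q₄ q := LeN.glue (isLowerSet_Iio δ) s2
      refine ⟨h1.1, fun γ hγ x hx τ hτ => ?_⟩
      by_cases h : γ = δ
      · subst h
        have : q₄.t δ = q.t δ := Cond.glue_t' (by simp)
        rw [this]
      · exact h1.2 γ (Finset.mem_erase.2 ⟨h, hγ⟩) x hx τ hτ
    let q₅ := Cond.glue (Iic δ) (isLowerSet_Iic δ) q₄ r
    have hq₅ : LeN n F q₅ r := LeN.glue (isLowerSet_Iic δ) (hq₄.trans q2)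
    have hq₅s : q₅.SuppIn I := Cond.suppIn_glue (hq₄s.mono hδI') r1
    refine ⟨q₅, fun x => (φ' x).biUnion fun c =>
      (((Encodable.decode c : Option (List ℕ)).getD []).take (sg n)).toFinset, hq₅s,
      hq₅.trans r2, fun s => ?_, fun x => ?_, fun x hx => ?_⟩
    · exact meas_rel1 s3 (fun t : Finset ℕ => (t.biUnion fun c =>
        (((Encodable.decode c : Option (List ℕ)).getD []).take (sg n)).toFinset) = s)
    · refine (Finset.card_biUnion_le_card_mul _ _ (sg n) fun c _ => ?_).trans ?_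
      · exact (List.toFinset_card_le _).trans (List.length_take_le _ _)
      · rw [pow_succ]
        exact Nat.mul_le_mul_right _ (s4 x)
    · have hxr : x ∈ r.body := hq₅.1 hx
      have hx4 : x ∈ q₄.body := by
        rw [← Cond.body_res_of_suppIn hq₄s, Cond.mem_res]
        exact (Cond.mem_glue.1 hx).1
      have hxq : x ∈ q.body := hq₄.1 hx4
      have hx3 : x ∈ q₃.body := by
        rw [← Cond.body_res_of_suppIn s1, Cond.mem_res]
        exact (Cond.mem_glue.1 hx4).1
      have e1 : f'' x = f x := by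
        show (if f' x < b x then f' x else 0) = f x
        rw [← r4 x hxr, if_pos (hfb x)]
      obtain ⟨τ, ⟨hτ, hτ2⟩, -⟩ := existsUnique_tail n (idx (q.t δ x) (x δ))
      obtain ⟨d, hd, hxd⟩ := q5 x hxq τ hτ (Br_comp.2 ⟨hxq δ, hτ2⟩)
      have e2 := (q4 τ (A τ x)).2 hd x hxd
      have e3 : A' τ x = f x := by
        show (if A τ x < b x then A τ x else 0) = f x
        rw [if_pos e2.2, ← e2.1, e1]
      rw [Finset.mem_biUnion]
      refine ⟨_, s5 x hx3, ?_⟩
      rw [Encodable.encodek, Option.getD_some, List.take_of_length_le (hLl x).le,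
        List.mem_toFinset]
      exact List.mem_map.2 ⟨τ, (hT τ).2 hτ, e3⟩

end Pool.Agent.MP_b00c97_gt.Lav
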