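import Pool.Agent.MP_b00c97_gt.Lav.Fusion
import Pool.Agent.MP_b00c97_gt.Lav.Bound

/-!
# MP_b00c97_gt, part P', Block B2: the Laver property and evasion of slaloms
-/

set_option autoImplicit false

open Set MeasureTheory Filter

namespace Pool.Agent.MP_b00c97_gt.Lav

variable {K : Type} [LinearOrder K] [WellFoundedLT K]

theorem one_le_sg (n : ℕ) : 1 ≤ sg n := by
  unfold sg
  rw [Nat.one_le_iff_ne_zero, ← Nat.pos_iff_ne_zero, Finset.card_pos]
  exact ⟨[], (Sg_finite n).mem_toFinset.2 (nil_mem_Sg n)⟩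

/-- The Laver property. -/
theorem laver {I J : Set K} (hI : IsLowerSet I) (hJ : IsLowerSet J) (hJI : J ⊆ I)
    (p : Cond K) (hp : p.SuppIn I) (f b : ℕ → (K → ℕ → ℕ) → ℕ)
    (hf : ∀ n, Measurable[𝓑 I] (f n)) (hb : ∀ n, Measurable[𝓑 J] (b n))
    (hfb : ∀ n x, f n x < b n x) :
    ∃ (q : Cond K) (φ : ℕ → (K → ℕ → ℕ) → Finset ℕ), q.SuppIn I ∧ q ≤ p ∧
      (∀ n s, MeasurableSet[𝓑 J] {x | φ n x = s}) ∧ (∀ n x, (φ n x).card ≤ sg n ^ n) ∧
      ∀ n, ∀ x ∈ q.body, f n x ∈ φ n x := by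
  obtain ⟨q, hqI, hqp, hq⟩ := fusion_scheme (K := K) hI ∅ (by simp) 0 p hp
    (fun n _ q => ∃ φ : (K → ℕ → ℕ) → Finset ℕ, (∀ s, MeasurableSet[𝓑 J] {x | φ x = s}) ∧
      (∀ x, (φ x).card ≤ sg n ^ n) ∧ ∀ x ∈ q.body, f n x ∈ φ x)
    (by
      rintro n F p q hqp ⟨φ, h1, h2, h3⟩
      exact ⟨φ, h1, h2, fun x hx => h3 x (hqp.1 hx)⟩)
    (by
      intro n F p' _ _ hFI hcard hp' _
      obtain ⟨q, φ, hqI, hqp, h1, h2, h3⟩ := bound_dec hI hJ hJI n F hFI p' hp' (f n) (b n)
        (hf n) (hb n) (hfb n)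
      refine ⟨q, hqI, hqp, φ, h1, fun x => (h2 x).trans ?_, h3⟩
      refine Nat.pow_le_pow_right (one_le_sg n) ?_
      simpa using hcard)
  choose F _ _ _ φ h1 h2 h3 using fun n => hq n (Nat.zero_le n)
  exact ⟨q, φ, hqI, hqp.1, h1, h2, h3⟩

/-- The code of a finite set of natural numbers. -/
def enc (s : Finset ℕ) : ℕ := ∑ i ∈ s, 2 ^ i

/-- The set with a given code. -/
def decd (m : ℕ) : Finset ℕ := m.bitIndices.toFinset

theorem decd_enc (s : Finset ℕ) : decd (enc s) = s := Finset.toFinset_bitIndices_sum_two_pow s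

theorem enc_lt {s : Finset ℕ} {m : ℕ} (h : ∀ i ∈ s, i < m) : enc s < 2 ^ m :=
  Nat.geomSum_lt le_rfl h

/-- Evasion of slaloms. -/
theorem evade (γ : K) (p : Cond K) (N h : (K → ℕ → ℕ) → ℕ → ℕ) (hN : Measurable[𝓑 (Iio γ)] N)
    (hh : Measurable[𝓑 univ] h) :
    ∃ (q : Cond K) (v : (K → ℕ → ℕ) → ℕ → ℕ), q ≤ p ∧ Measurable[𝓑 (Iio γ)] v ∧
      ∀ x ∈ q.body, ∀ n, ∀ j < N x n, h x (Nat.pair n j) ≠ v x n := by
  classical
  set M : ℕ → ℕ → ℕ := fun n k => k * sg n ^ n + 1 with hM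
  set S : ℕ → ℕ → (K → ℕ → ℕ) → Finset ℕ := fun n k x =>
    ((Finset.range k).image fun j => h x (Nat.pair n j)).filter (· < M n k) with hS
  have hN' : ∀ n k, MeasurableSet[𝓑 (Iio γ)] {x | N x n = k} := meas_real.1 hN
  have hNu : ∀ n k, MeasurableSet[𝓑 (univ : Set K)] {x | N x n = k} := fun n k =>
    𝓑_mono (subset_univ _) _ (hN' n k)
  have hSm : ∀ n k s, MeasurableSet[𝓑 (univ : Set K)] {x | S n k x = s} := by
    intro n k s
    refine meas_ev _ (meas_all (P := fun (a : ℕ) x => a ∈ s ↔ ((∃ j, j < k ∧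
      h x (Nat.pair n j) = a) ∧ a < M n k)) fun a => meas_iff (meas_const _)
        (meas_and (meas_ex fun j => meas_and (meas_const _) (meas_real.1 hh _ _))
          (meas_const _))) fun x => ?_
    constructor
    · rintro rfl a
      simp [hS]
    · intro hx
      ext a
      have := hx a
      simp only [hS, Finset.mem_filter, Finset.mem_image, Finset.mem_range]
      exact this.symm
  set f : ℕ → (K → ℕ → ℕ) → ℕ := fun n x => enc (S n (N x n) x) with hf
  have hfm : ∀ n, Measurable[𝓑 (univ : Set K)] (f n) := by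
    intro n
    refine meas_sel (f := fun x => N x n) (g := fun k x => enc (S n k x)) (hNu n) fun k => ?_
    exact meas_fun (hSm n k) enc
  obtain ⟨q, φ, -, hqp, h1, h2, h3⟩ := laver (K := K) isLowerSet_univ (isLowerSet_Iio γ)
    (subset_univ _) p p.suppIn_univ f (fun n x => 2 ^ M n (N x n)) hfm
    (fun n => meas_fun (hN' n) fun k => 2 ^ M n k)
    (fun n x => enc_lt fun i hi => (Finset.mem_filter.1 hi).2)
  set U : ℕ → Finset ℕ → Finset ℕ := fun k s =>
    (s.filter fun c => (decd c).card ≤ k).biUnion decd with hU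
  have hUc : ∀ n x, (U (N x n) (φ n x)).card < M n (N x n) := by
    intro n x
    have h4 : (U (N x n) (φ n x)).card ≤ (φ n x).card * N x n := by
      refine (Finset.card_biUnion_le_card_mul _ _ (N x n) fun c hc =>
        (Finset.mem_filter.1 hc).2).trans ?_
      exact Nat.mul_le_mul_right _ (Finset.card_filter_le _ _)
    have h5 := Nat.mul_le_mul_right (N x n) (h2 n x)
    simp only [hM]
    rw [Nat.lt_succ_iff, mul_comm]
    exact h4.trans h5
  refine ⟨q, fun x n => sInf {v | v ∉ U (N x n) (φ n x)}, hqp, ?_, ?_⟩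
  · refine meas_real.2 fun n k => ?_
    exact meas_rel (hN' n) (h1 n) fun a s => sInf {v | v ∉ U a s} = k
  · intro x hx n j hj heq
    have h6 : ∃ w, w < M n (N x n) ∧ w ∉ U (N x n) (φ n x) := by
      by_contra hcon
      push Not at hcon
      have : Finset.range (M n (N x n)) ⊆ U (N x n) (φ n x) := fun w hw =>
        hcon w (Finset.mem_range.1 hw)
      have h7 := Finset.card_le_card this
      rw [Finset.card_range] at h7
      exact absurd (hUc n x) (not_lt.2 h7)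
    obtain ⟨w, hw1, hw2⟩ := h6
    have h8 : sInf {v | v ∉ U (N x n) (φ n x)} ∉ U (N x n) (φ n x) :=
      Nat.sInf_mem (s := {v | v ∉ U (N x n) (φ n x)}) ⟨w, hw2⟩
    have h9 : sInf {v | v ∉ U (N x n) (φ n x)} < M n (N x n) :=
      lt_of_le_of_lt (Nat.sInf_le hw2) hw1
    have heq' : sInf {v | v ∉ U (N x n) (φ n x)} = h x (Nat.pair n j) := heq.symm
    rw [heq'] at h8 h9
    apply h8
    rw [hU]
    simp only [Finset.mem_biUnion, Finset.mem_filter]
    refine ⟨f n x, ⟨h3 n x hx, ?_⟩, ?_⟩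
    · rw [hf]
      simp only [decd_enc]
      rw [hS]
      refine (Finset.card_filter_le _ _).trans (Finset.card_image_le.trans ?_)
      rw [Finset.card_range]
    · rw [hf]
      simp only [decd_enc]
      rw [hS]
      simp only [Finset.mem_filter, Finset.mem_image, Finset.mem_range]
      exact ⟨⟨j, hj, rfl⟩, h9⟩

end Pool.Agent.MP_b00c97_gt.Lav
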