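import Pool.Agent.MP_b00c97_gt.Lav.Laver
import Pool.Agent.MP_b00c97_gt.Lav.Generic

/-!
# MP_b00c97_gt: the limit property of the Laver reals
-/

set_option autoImplicit false

open Set MeasureTheory Filter

namespace Pool.Agent.MP_b00c97_gt.Lav

/-! ### Tuples of truncated values -/

/-- The tuple of the truncated values. -/
def tup (M : ℕ) (y : ℕ → ℕ) : List ℕ := List.ofFn fun i : Fin (M + 1) => min (y i) (M + 1)

theorem tup_getD {M : ℕ} {y : ℕ → ℕ} {i : ℕ} (hi : i ≤ M) :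
    (tup M y).getD i 0 = min (y i) (M + 1) := by
  have h : i < (tup M y).length := by rw [tup, List.length_ofFn]; omega
  rw [List.getD_eq_getElem _ _ h]
  simp only [tup, List.getElem_ofFn]

theorem tup_congr {M : ℕ} {y z : ℕ → ℕ} (h : ∀ i ≤ M, min (y i) (M + 1) = min (z i) (M + 1)) :
    tup M y = tup M z := by
  unfold tup
  congr 1
  funext i
  exact h i (Nat.lt_succ_iff.1 i.2)

/-- The truncation of a tuple. -/
def trc (m : ℕ) (v : List ℕ) : List ℕ := tup m fun i => v.getD i 0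

theorem trc_getD {m : ℕ} {v : List ℕ} {i : ℕ} (hi : i ≤ m) :
    (trc m v).getD i 0 = min (v.getD i 0) (m + 1) := tup_getD hi

theorem trc_tup {m M : ℕ} (h : m ≤ M) (y : ℕ → ℕ) : trc m (tup M y) = tup m y := by
  refine tup_congr fun i hi => ?_
  rw [tup_getD (hi.trans h)]
  omega

theorem trc_trc {m M : ℕ} (h : m ≤ M) (v : List ℕ) : trc m (trc M v) = trc m v := trc_tup h _

theorem tup_finite (M : ℕ) : (range (tup M)).Finite := by
  have h0 : (range fun v : Fin (M + 1) → Fin (M + 2) => List.ofFn fun i => (v i : ℕ)).Finite :=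
    finite_range _
  refine h0.subset ?_
  rintro _ ⟨y, rfl⟩
  refine ⟨fun i => ⟨min (y i) (M + 1), by omega⟩, rfl⟩

theorem exists_bd : ∃ bd : ℕ → ℕ, ∀ M y, Encodable.encode (tup M y) < bd M := by
  refine ⟨fun M => (tup_finite M).toFinset.sup (fun v => Encodable.encode v) + 1, fun M y => ?_⟩
  refine Nat.lt_succ_of_le ?_
  exact Finset.le_sup (f := fun v => Encodable.encode v)
    ((tup_finite M).mem_toFinset.2 (mem_range_self y))

/-- Decoding of tuples. -/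
def dct (c : ℕ) : List ℕ := (Encodable.decode (α := List ℕ) c).getD []

theorem dct_encode (v : List ℕ) : dct (Encodable.encode v) = v := by
  simp [dct]

open Classical in
/-- The truncations of the tuples in `φ`, if `m ≤ M`. -/
noncomputable def psi (φ : Finset (List ℕ)) (m M : ℕ) : Finset (List ℕ) :=
  if m ≤ M then φ.image (trc m) else ∅

theorem psi_pos {φ : Finset (List ℕ)} {m M : ℕ} (h : m ≤ M) : psi φ m M = φ.image (trc m) := by
  classical
  rw [psi, if_pos h]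

theorem exists_bd' : ∃ bd : ℕ → ℕ, ∀ φ m M, Encodable.encode (psi φ m M) < bd m := by
  classical
  refine ⟨fun m => ((tup_finite m).toFinset.powerset).sup (fun v => Encodable.encode v) + 1,
    fun φ m M => ?_⟩
  refine Nat.lt_succ_of_le ?_
  refine Finset.le_sup (f := fun v => Encodable.encode v) (Finset.mem_powerset.2 ?_)
  unfold psi
  split_ifs
  · intro v hv
    obtain ⟨w, -, rfl⟩ := Finset.mem_image.1 hv
    exact (tup_finite m).mem_toFinset.2 (mem_range_self _)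
  · exact Finset.empty_subset _

/-- Decoding of sets of tuples. -/
def dcs (c : ℕ) : Finset (List ℕ) := (Encodable.decode (α := Finset (List ℕ)) c).getD ∅

theorem dcs_encode (v : Finset (List ℕ)) : dcs (Encodable.encode v) = v := by
  simp [dcs]

/-! ### Measurability of suprema -/

theorem meas_sSup {Ω : Type*} {m : MeasurableSpace Ω} {E : Ω → ℕ → Prop}
    (hE : ∀ c, MeasurableSet[m] {ω | E ω c}) (c : ℕ) :
    MeasurableSet[m] {ω | sSup {a | E ω a} = c} := by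
  classical
  have hU : ∀ b, MeasurableSet[m] {ω | ∀ a, E ω a → a ≤ b} := fun b =>
    meas_all fun a => meas_imp (hE a) (meas_const _)
  refine meas_ev _ (meas_or (P := fun ω => (∀ a, E ω a → a ≤ c) ∧ ∀ b, b < c →
      ¬ ∀ a, E ω a → a ≤ b) (Q := fun ω => (¬ ∃ b, ∀ a, E ω a → a ≤ b) ∧ c = 0)
    (meas_and (hU c) (meas_all fun b => meas_imp (meas_const _) (meas_not (hU b))))
    (meas_and (meas_not (meas_ex hU)) (meas_const _))) fun ω => ?_
  change _ ↔ ((∀ a, E ω a → a ≤ c) ∧ ∀ b, b < c → ¬ ∀ a, E ω a → a ≤ b) ∨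
    (¬ ∃ b, ∀ a, E ω a → a ≤ b) ∧ c = 0
  by_cases h : ∃ b, ∀ a, E ω a → a ≤ b
  · have h' : ∃ b, ∀ a ∈ {a | E ω a}, a ≤ b := h
    rw [Nat.sSup_def h', Nat.find_eq_iff]
    constructor
    · intro hh; exact Or.inl ⟨hh.1, fun b hb => hh.2 b hb⟩
    · rintro (hh | hh)
      · exact ⟨hh.1, fun b hb => hh.2 b hb⟩
      · exact absurd h hh.1
  · have h0 : sSup {a | E ω a} = 0 := by
      apply Nat.sSup_of_not_bddAbove
      rintro ⟨b, hb⟩
      exact h ⟨b, fun a ha => hb ha⟩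
    rw [h0]
    constructor
    · intro hh; exact Or.inr ⟨h, hh.symm⟩
    · rintro (hh | hh)
      · exact absurd ⟨c, hh.1⟩ h
      · exact hh.2.symm

section

variable {K : Type} [LinearOrder K] [WellFoundedLT K]

/-- The branches at a coordinate shrink when the condition shrinks. -/
theorem Br_sub_of_le {p q : Cond K} (h : q ≤ p) {γ : K} {x : K → ℕ → ℕ}
    (hx : x ∈ (q.res (Iio γ)).body) : Br (q.t γ x) ⊆ Br (p.t γ x) := by
  intro l hl
  obtain ⟨y, hy, hyx, hyu⟩ := q.exists_ext (isLowerSet_Iio γ) (Cond.mem_res.1 hx)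
    (fun _ => idx (q.t γ x) l)
  have h1 : q.t γ y = q.t γ x := dep (q.meas γ) fun δ hδ => hyx δ hδ
  have h2 : p.t γ y = p.t γ x := dep (p.meas γ) fun δ hδ => hyx δ hδ
  have h3 := hyu γ (by simp)
  rw [h1, br_idx hl] at h3
  have h4 := h hy γ
  rwa [h3, h2] at h4

theorem mem_tail_iff {p q : Cond K} {n : ℕ} {F : Finset K} (h : LeN n F q p) {γ : K} (hγ : γ ∈ F)
    {x : K → ℕ → ℕ} (hx : x ∈ q.body) {τ : List ℕ} (hτ : τ ∈ Sg n) :
    x γ ∈ Br (comp (q.t γ x) (tail n τ)) ↔ x γ ∈ Br (comp (p.t γ x) (tail n τ)) :=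
  mem_Br_comp_tail (Br_sub_of_le h.1 (Cond.le_res q _ hx))
    (fun σ hσ => h.2 γ hγ x hx σ hσ) hτ (hx γ)

/-- The sets of truncated tuples at the node with index `τ`. -/
noncomputable def Psi (γ : K) (Φ : ℕ → (K → ℕ → ℕ) → Finset (List ℕ)) (p : Cond K)
    (n : ℕ) (τ : List ℕ) (x : K → ℕ → ℕ) : Finset (List ℕ) :=
  psi (Φ ((p.t γ x).1.length + τ.length) x) n (x γ ((p.t γ x).1.length + τ.length))

omit [WellFoundedLT K] in
theorem Psi_eq {γ : K} {Φ : ℕ → (K → ℕ → ℕ) → Finset (List ℕ)} {p q : Cond K}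
    {n m : ℕ} {F : Finset K} (h : LeN n F q p) (hγ : γ ∈ F)
    {x : K → ℕ → ℕ} (hx : x ∈ q.body) (τ : List ℕ) :
    Psi γ Φ q m τ x = Psi γ Φ p m τ x := by
  have h1 : (q.t γ x).1.length = (p.t γ x).1.length :=
    congrArg List.length (h.2 γ hγ x hx [] (nil_mem_Sg n))
  unfold Psi
  rw [h1]

omit [WellFoundedLT K] in
theorem meas_Psi {γ : K} {Φ : ℕ → (K → ℕ → ℕ) → Finset (List ℕ)}
    (hΦ : ∀ k s, MeasurableSet[𝓑 (Iic γ)] {x | Φ k x = s}) (p : Cond K) (n : ℕ) (τ : List ℕ)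
    (s : Finset (List ℕ)) : MeasurableSet[𝓑 (Iic γ)] {x | Psi γ Φ p n τ x = s} :=
  meas_sel_set (f := fun x => (p.t γ x).1.length + τ.length)
    (P := fun k x => psi (Φ k x) n (x γ k) = s)
    (meas_len_add (Meas.mono Iio_subset_Iic_self (p.meas γ)) τ.length)
    fun k => meas_rel (hΦ k) (meas_real.1 (meas_coord (mem_Iic.2 le_rfl)) k)
      fun φ M => psi φ n M = s

theorem limit_fuse (γ : K) (p : Cond K) (hp : p.SuppIn (Iic γ))
    (Φ : ℕ → (K → ℕ → ℕ) → Finset (List ℕ))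
    (hΦ : ∀ k s, MeasurableSet[𝓑 (Iic γ)] {x | Φ k x = s}) :
    ∃ q : Cond K, q.SuppIn (Iic γ) ∧ q ≤ p ∧
      ∃ A : ℕ → List ℕ → (K → ℕ → ℕ) → Finset (List ℕ),
        (∀ n τ s, MeasurableSet[𝓑 (Iio γ)] {x | A n τ x = s}) ∧
        ∀ n, ∀ x ∈ q.body, ∀ τ ∈ Sg n, x γ ∈ Br (comp (q.t γ x) (tail n τ)) →
          Psi γ Φ q n τ x = A n τ x := by
  classical
  obtain ⟨bd, hbd⟩ := exists_bd'
  let R : ℕ → Finset K → Cond K → Prop := fun n F q => γ ∈ F ∧
    ∃ A : List ℕ → (K → ℕ → ℕ) → Finset (List ℕ),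
      (∀ τ s, MeasurableSet[𝓑 (Iio γ)] {x | A τ x = s}) ∧
      ∀ x ∈ q.body, ∀ τ ∈ Sg n, x γ ∈ Br (comp (q.t γ x) (tail n τ)) → Psi γ Φ q n τ x = A τ x
  have hmono : ∀ (n : ℕ) (F : Finset K) (p q : Cond K), LeN n F q p → R n F p → R n F q := by
    rintro n F p q h ⟨hγ, A, hA, hA2⟩
    refine ⟨hγ, A, hA, fun x hx τ hτ hxτ => ?_⟩
    rw [Psi_eq h hγ hx]
    exact hA2 x (h.1 hx) τ hτ ((mem_tail_iff h hγ hx hτ).1 hxτ)
  have hstep : ∀ (n : ℕ) (F : Finset K) (p' : Cond K), 0 ≤ n → ({γ} : Finset K) ⊆ F →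
      (F : Set K) ⊆ Iic γ → F.card ≤ ({γ} : Finset K).card + n → p'.SuppIn (Iic γ) →
      LeN 0 {γ} p' p → ∃ q : Cond K, q.SuppIn (Iic γ) ∧ LeN n F q p' ∧ R n F q := by
    intro n F p' _ hγF hFI _ hp' _
    have hγ : γ ∈ F := hγF (Finset.mem_singleton_self γ)
    have hF' : ((F.erase γ : Finset K) : Set K) ⊆ Iio γ := by
      intro δ hδ
      have h1 := Finset.mem_erase.1 (Finset.mem_coe.1 hδ)
      exact lt_of_le_of_ne (hFI h1.2) h1.1
    let D : List ℕ → ℕ → Set (Cond K) := fun τ a =>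
      {d | ∀ x ∈ d.body, Encodable.encode (Psi γ Φ p' n τ x) = a}
    have hD : ∀ τ ∈ Sg n, DenseBelow (Iic γ) (pr γ p' (fun x => comp (p'.t γ x) (tail n τ))
        (meas_comp (p'.meas γ) measurable_const)) (⋃ a, D τ a) := by
      intro τ _ q' hq' _
      obtain ⟨d, i, hd, hdq, hconst⟩ := ml_fun (isLowerSet_Iic γ) (acc_all _ (isLowerSet_Iic γ))
        (ml_all _ (isLowerSet_Iic γ)) (fun x => Psi γ Φ p' n τ x) (meas_Psi hΦ p' n τ) q' hq'
      exact ⟨d, mem_iUnion.2 ⟨Encodable.encode i, fun x hx => by rw [hconst x hx]⟩, hd, hdq⟩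
    obtain ⟨q, A, C, hq, hle, hA, hC, hqA⟩ := claim2 γ (acc_all _ (isLowerSet_Iio γ))
      (ml_all _ (isLowerSet_Iio γ)) n (F.erase γ) hF' p' hp' D hD (fun _ _ => bd n)
      (fun _ => measurable_const) (fun τ a d hd x hx => by
        rw [← hd x hx]; exact hbd _ _ _)
    rw [Finset.insert_erase hγ] at hle
    refine ⟨q, hq, hle, hγ, fun τ x => dcs (A τ x), fun τ s =>
      meas_rel1 (meas_eq (hA τ)) (fun c => dcs c = s), fun x hx τ hτ hxτ => ?_⟩
    obtain ⟨d, hd, hxd⟩ := hqA x hx τ hτ hxτ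
    have h1 := (hC τ (A τ x)).2 hd x hxd
    rw [Psi_eq hle hγ hx]
    change _ = dcs (A τ x)
    rw [← h1, dcs_encode]
  obtain ⟨q, hq, hle, hR⟩ := fusion_scheme (isLowerSet_Iic γ) {γ} (by simp) 0 p hp R hmono hstep
  choose F hF1 hF2 hF3 hF4 using fun n => hR n (Nat.zero_le n)
  choose hγ A hA hA2 using hF4
  exact ⟨q, hq, hle.1, A, hA, hA2⟩

/-- Coherence. -/
theorem limit_coh {γ : K} {q : Cond K} {Φ : ℕ → (K → ℕ → ℕ) → Finset (List ℕ)} {W : ℕ → ℕ}
    (hW : ∀ k x, (Φ k x).card ≤ W k) {A : ℕ → List ℕ → (K → ℕ → ℕ) → Finset (List ℕ)}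
    (hA : ∀ n τ s, MeasurableSet[𝓑 (Iio γ)] {x | A n τ x = s})
    (hq : ∀ n, ∀ x ∈ q.body, ∀ τ ∈ Sg n, x γ ∈ Br (comp (q.t γ x) (tail n τ)) →
      Psi γ Φ q n τ x = A n τ x) {x : K → ℕ → ℕ} (hx : x ∈ (q.res (Iio γ)).body)
    {τ : List ℕ} {n n' : ℕ} (hτ : τ ∈ Sg n) (hn : n ≤ n') :
    ∃ φ : Finset (List ℕ), φ.card ≤ W ((q.t γ x).1.length + τ.length) ∧
      A n τ x = φ.image (trc n) ∧ A n' τ x = φ.image (trc n') := by
  classical
  obtain ⟨u₀, hu₀⟩ := exists_pre τ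
  let u : ℕ → ℕ := fun i => if i < τ.length then u₀ i else n'
  have hu1 : pre u τ.length = τ := by
    rw [← hu₀]
    have hl : (pre u₀ τ.length).length = τ.length := pre_length _ _
    rw [hl]
    exact pre_congr fun i hi => if_pos hi
  have hu2 : pre u (τ.length + 1) = n' :: τ := by
    rw [pre, hu1]
    congr 1
    exact if_neg (lt_irrefl _)
  have hu3 : ∀ m, m ≤ n' → pre u (τ.length + 1) ∉ Sg m := by
    intro m hm
    rw [hu2, cons_mem_Sg]
    omega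
  obtain ⟨y, hy, hyx, hyu⟩ := q.exists_ext (isLowerSet_Iio γ) (Cond.mem_res.1 hx) (fun _ => u)
  have h1 : q.t γ y = q.t γ x := dep (q.meas γ) fun δ hδ => hyx δ hδ
  have h2 := hyu γ (by simp)
  have hbr : ∀ m, m ≤ n' → τ ∈ Sg m → y γ ∈ Br (comp (q.t γ y) (tail m τ)) := by
    intro m hm hτm
    refine Br_comp.2 ⟨hy γ, ?_⟩
    rw [h2, idx_br]
    exact (mem_Br_tail hτm).2 ⟨hu1, hu3 m hm⟩
  have hM : n' ≤ y γ ((q.t γ y).1.length + τ.length) := by
    rw [h2, br_apply_add]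
    have h3 : u τ.length = n' := if_neg (lt_irrefl _)
    rw [h3]
    exact (nxt_mono _ _).le_apply
  have hdep : ∀ m, A m τ y = A m τ x := fun m =>
    (dep_set (hA m τ (A m τ x)) (fun δ hδ => hyx δ hδ)).2 rfl
  refine ⟨Φ ((q.t γ y).1.length + τ.length) y, ?_, ?_, ?_⟩
  · rw [← h1]; exact hW _ _
  · rw [← hdep, ← hq n y hy τ hτ (hbr n hn hτ), Psi, psi_pos (hn.trans hM)]
  · rw [← hdep, ← hq n' y hy τ (Sg_mono hn hτ) (hbr n' le_rfl (Sg_mono hn hτ)), Psi, psi_pos hM]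

/-- The possible values at `i`. -/
def Eset (A : ℕ → List ℕ → (K → ℕ → ℕ) → Finset (List ℕ)) (τ : List ℕ) (i : ℕ)
    (x : K → ℕ → ℕ) : Set ℕ :=
  {c | ∃ n, τ ∈ Sg n ∧ i ≤ n ∧ c ≤ n ∧ ∃ v ∈ A n τ x, v.getD i 0 = c}

theorem limit_finite {γ : K} {q : Cond K} {Φ : ℕ → (K → ℕ → ℕ) → Finset (List ℕ)} {W : ℕ → ℕ}
    (hW : ∀ k x, (Φ k x).card ≤ W k) {A : ℕ → List ℕ → (K → ℕ → ℕ) → Finset (List ℕ)}
    (hA : ∀ n τ s, MeasurableSet[𝓑 (Iio γ)] {x | A n τ x = s})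
    (hq : ∀ n, ∀ x ∈ q.body, ∀ τ ∈ Sg n, x γ ∈ Br (comp (q.t γ x) (tail n τ)) →
      Psi γ Φ q n τ x = A n τ x) {x : K → ℕ → ℕ} (hx : x ∈ (q.res (Iio γ)).body)
    (τ : List ℕ) (i : ℕ) : (Eset A τ i x).Finite := by
  classical
  by_contra hinf
  obtain ⟨S, hS, hcard⟩ := (show (Eset A τ i x).Infinite from hinf).exists_subset_card_eq
    (W ((q.t γ x).1.length + τ.length) + 1)
  have hex : ∀ c : ℕ, ∃ n, c ∈ S → τ ∈ Sg n ∧ i ≤ n ∧ c ≤ n ∧ ∃ v ∈ A n τ x, v.getD i 0 = c := by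
    intro c
    by_cases hc : c ∈ S
    · obtain ⟨n, hn⟩ := hS hc
      exact ⟨n, fun _ => hn⟩
    · exact ⟨0, fun h => absurd h hc⟩
  choose N hN using hex
  have hne : S.Nonempty := by
    rw [← Finset.card_pos, hcard]; omega
  obtain ⟨c₀, hc₀⟩ := hne
  let M := S.sup N
  have hM : ∀ c ∈ S, N c ≤ M := fun c hc => Finset.le_sup hc
  have hsub : S ⊆ (A M τ x).image (fun v => v.getD i 0) := by
    intro c hc
    obtain ⟨h1, h2, h3, v, hv, hvc⟩ := hN c hc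
    obtain ⟨φ, -, hφ1, hφ2⟩ := limit_coh hW hA hq hx h1 (hM c hc)
    rw [hφ1] at hv
    obtain ⟨w, hw, rfl⟩ := Finset.mem_image.1 hv
    rw [trc_getD h2] at hvc
    have hwc : w.getD i 0 = c := by omega
    refine Finset.mem_image.2 ⟨trc M w, ?_, ?_⟩
    · rw [hφ2]; exact Finset.mem_image_of_mem _ hw
    · have := hM c hc
      rw [trc_getD (by omega)]
      omega
  obtain ⟨φ, hφ, hφ1, -⟩ := limit_coh hW hA hq hx (Sg_mono (hM c₀ hc₀) (hN c₀ hc₀).1)
    (le_refl M)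
  have h1 := (Finset.card_le_card hsub).trans Finset.card_image_le
  rw [hφ1] at h1
  have h2 := h1.trans Finset.card_image_le
  omega

omit [LinearOrder K] [WellFoundedLT K] in
theorem meas_tup {I : Set K} {M : (K → ℕ → ℕ) → ℕ} {t : (K → ℕ → ℕ) → ℕ → ℕ}
    (hM : ∀ i, MeasurableSet[𝓑 I] {x | M x = i}) (ht : Measurable[𝓑 I] t) (v : List ℕ) :
    MeasurableSet[𝓑 I] {x | tup (M x) (t x) = v} := by
  refine meas_sel_set (P := fun i x => tup i (t x) = v) hM fun i => ?_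
  have h : ∀ x : K → ℕ → ℕ, tup i (t x) = v ↔
      v.length = i + 1 ∧ ∀ j : ℕ, j ≤ i → min (t x j) (i + 1) = v.getD j 0 := by
    intro x
    constructor
    · rintro rfl
      refine ⟨by simp [tup], fun j hj => (tup_getD hj).symm⟩
    · rintro ⟨h1, h2⟩
      apply List.ext_getElem
      · simp [tup, h1]
      · intro j h3 h4
        have h5 : j ≤ i := by omega
        rw [← List.getD_eq_getElem _ 0 h3, ← List.getD_eq_getElem _ 0 h4, tup_getD h5, h2 j h5]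
  refine meas_ev {x | v.length = i + 1 ∧ ∀ j : ℕ, j ≤ i → min (t x j) (i + 1) = v.getD j 0}
    (meas_and (meas_const _) (meas_all fun j => meas_imp (meas_const _)
    (meas_rel1 (meas_real.1 ht j) (fun k => min k (i + 1) = v.getD j 0)))) h

/-- The limit property of the Laver real `x γ`. -/
theorem limit (γ : K) (p : Cond K) (t : (K → ℕ → ℕ) → ℕ → ℕ) (ht : Measurable[𝓑 univ] t) :
    ∃ (q : Cond K) (g : (K → ℕ → ℕ) → ℕ → ℕ), q ≤ p ∧ Measurable[𝓑 (Iio γ)] g ∧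
      ∀ f : (K → ℕ → ℕ) → ℕ → ℕ, Measurable[𝓑 (Iio γ)] f → ∀ r ≤ q, ∃ s ≤ r, ∀ x ∈ s.body,
        ∀ᶠ k in atTop, ∀ n, x γ k ≤ n → n ≤ f x (x γ k) → t x n ≤ f x (x γ k) →
          t x n ≤ g x n := by
  classical
  obtain ⟨bd, hbd⟩ := exists_bd
  have hcU : ∀ k, ∀ i, MeasurableSet[𝓑 (univ : Set K)] {x : K → ℕ → ℕ | x γ k = i} := fun k =>
    meas_real.1 (meas_coord (mem_univ γ)) k
  have hcI : ∀ k, ∀ i, MeasurableSet[𝓑 (Iic γ)] {x : K → ℕ → ℕ | x γ k = i} := fun k =>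
    meas_real.1 (meas_coord (mem_Iic.2 le_rfl)) k
  obtain ⟨q₁, φ, -, hq₁p, hφm, hφc, hφ⟩ := laver (I := univ) (J := Iic γ) isLowerSet_univ
    (isLowerSet_Iic γ) (subset_univ _) p p.suppIn_univ
    (fun k x => Encodable.encode (tup (x γ k) (t x))) (fun k x => bd (x γ k))
    (fun k => meas_fun (meas_tup (hcU k) ht) Encodable.encode)
    (fun k => meas_fun (hcI k) bd) (fun k x => hbd _ _)
  obtain ⟨q₂, hq₂s, hq₂, A, hA, hq⟩ := limit_fuse γ (q₁.res (Iic γ)) (q₁.suppIn_res _)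
    (fun k x => (φ k x).image dct)
    (fun k s => meas_rel1 (hφm k) (fun ψ => ψ.image dct = s))
  have hW : ∀ (k : ℕ) (x : K → ℕ → ℕ), ((φ k x).image dct).card ≤ sg k ^ k := fun k x =>
    Finset.card_image_le.trans (hφc k x)
  let g : (K → ℕ → ℕ) → ℕ → ℕ := fun x i => sSup {c | ∃ τ, τ ∈ Sg (2 * i) ∧ c ∈ Eset A τ i x}
  have hg : Measurable[𝓑 (Iio γ)] g := by
    refine meas_real.2 fun i c => ?_
    refine meas_sSup (E := fun x c => ∃ τ, τ ∈ Sg (2 * i) ∧ c ∈ Eset A τ i x) (fun c => ?_) c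
    refine meas_ex fun τ => meas_and (meas_const _) ?_
    refine meas_ex fun n => meas_and (meas_const _) (meas_and (meas_const _)
      (meas_and (meas_const _) ?_))
    exact meas_rel1 (hA n τ) (fun s => ∃ v ∈ s, v.getD i 0 = c)
  refine ⟨Cond.glue (Iic γ) (isLowerSet_Iic γ) q₂ q₁, g, (Cond.glue_le hq₂).trans hq₁p, hg, ?_⟩
  intro f hf r hr
  set q := Cond.glue (Iic γ) (isLowerSet_Iic γ) q₂ q₁ with hqdef
  have hqγ : q.t γ = q₂.t γ := Cond.glue_t (mem_Iic.2 le_rfl)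
  obtain ⟨s, hs, hdom⟩ := dominate γ hr
    (fun x σ => f x ((nd (q.t γ x) σ).headD 0) + (σ.sum + σ.length) + 1) (fun σ k => by
      refine meas_sel_set (f := fun x => nd (q.t γ x) σ)
        (P := fun ν x => f x (ν.headD 0) + (σ.sum + σ.length) + 1 = k)
        (meas_nd (q.meas γ) σ) fun ν => ?_
      exact meas_rel1 (meas_real.1 hf (ν.headD 0)) (fun a => a + (σ.sum + σ.length) + 1 = k))
  refine ⟨s, hs, fun x hx => ?_⟩
  have hxq : x ∈ q.body := hr (hs hx)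
  have hxq₁ : x ∈ q₁.body := Cond.glue_le hq₂ hxq
  have hxq₂ : x ∈ q₂.body := by
    rw [← Cond.body_res_of_suppIn hq₂s, Cond.mem_res]
    exact (Cond.mem_glue.1 hxq).1
  have hd := hdom x hx
  rw [eventually_atTop] at hd ⊢
  obtain ⟨j₀, hj₀⟩ := hd
  simp only [hqγ] at hj₀
  set a := q₂.t γ x with ha
  set u := idx a (x γ) with hu
  have hbr : x γ ∈ Br a := hxq₂ γ
  have hpre : ∀ j, pre (x γ) (a.1.length + j) = nd a (pre u j) := fun j => pre_idx hbr j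
  have hval : ∀ j, x γ (a.1.length + j) = nxt a (pre u j) (u j) := by
    intro j
    have h1 := hpre (j + 1)
    rw [← add_assoc, pre, pre, nd_cons, List.cons.injEq] at h1
    exact h1.1
  have hge : ∀ j, u j ≤ x γ (a.1.length + j) := fun j => by
    rw [hval j]; exact (nxt_mono _ _).le_apply
  refine ⟨a.1.length + j₀, fun k hk => ?_⟩
  obtain ⟨j, rfl⟩ : ∃ j, k = a.1.length + j := ⟨k - a.1.length, by omega⟩
  have hj : j₀ ≤ j := by omega
  intro n hn1 hn2 hn3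
  set L := x γ (a.1.length + j) with hL
  have hhead : (nd a (pre u (j + 1))).headD 0 = L := by
    rw [← hpre (j + 1), ← add_assoc, pre]
    rfl
  set τ := pre u (j + 1) with hτdef
  have hτc : τ = u j :: pre u j := rfl
  have hd1 := hj₀ j hj
  have hd2 := hj₀ (j + 1) (by omega)
  rw [← hτdef, hhead] at hd2
  have hτlen : τ.length = j + 1 := pre_length _ _
  have hτs : τ.sum + τ.length ≤ 2 * L := by
    have h1 : τ.sum + τ.length = u j + (pre u j).sum + ((pre u j).length + 1) := by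
      rw [hτc, List.sum_cons, List.length_cons]
    have h2 := hge j
    omega
  have hM := hge (j + 1)
  set n₀ := max (f x L) (τ.sum + τ.length) with hn₀
  have hτS : τ ∈ Sg n₀ := by
    change τ.sum + τ.length ≤ n₀
    exact le_max_right _ _
  have hnot : pre u (τ.length + 1) ∉ Sg n₀ := by
    rw [hτlen, pre, ← hτdef, cons_mem_Sg]
    omega
  have hmem : x γ ∈ Br (comp (q₂.t γ x) (tail n₀ τ)) :=
    Br_comp.2 ⟨hbr, (mem_Br_tail hτS).2 ⟨by rw [hτlen], hnot⟩⟩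
  have hΨ := hq n₀ x hxq₂ τ hτS hmem
  have hkk : (q₂.t γ x).1.length + τ.length = a.1.length + (j + 1) := by rw [hτlen]
  rw [Psi, hkk, psi_pos (by omega)] at hΨ
  have hin : tup n₀ (t x) ∈ A n₀ τ x := by
    rw [← hΨ]
    refine Finset.mem_image.2 ⟨tup (x γ (a.1.length + (j + 1))) (t x), ?_, trc_tup (by omega) _⟩
    exact Finset.mem_image.2 ⟨_, hφ (a.1.length + (j + 1)) x hxq₁, dct_encode _⟩
  have hE : t x n ∈ {c | ∃ τ, τ ∈ Sg (2 * n) ∧ c ∈ Eset A τ n x} := by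
    refine ⟨τ, ?_, n₀, hτS, by omega, by omega, tup n₀ (t x), hin, ?_⟩
    · exact hτs.trans (by omega)
    · rw [tup_getD (by omega)]
      omega
  have hfin : {c | ∃ τ, τ ∈ Sg (2 * n) ∧ c ∈ Eset A τ n x}.Finite := by
    have : {c | ∃ τ, τ ∈ Sg (2 * n) ∧ c ∈ Eset A τ n x} = ⋃ τ ∈ Sg (2 * n), Eset A τ n x := by
      ext c; simp
    rw [this]
    exact (Sg_finite _).biUnion fun τ _ =>
      limit_finite hW hA hq (Cond.le_res q₂ _ hxq₂) τ n
  exact le_csSup hfin.bddAbove hE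

end

end Pool.Agent.MP_b00c97_gt.Lav
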