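import Pool.Agent.MP_b00c97_gt.Lav.Loc
import Pool.Agent.MP_b00c97_gt.Lav.Gen
import Pool.Agent.MP_b00c97_gt.Lav.Laver
import Pool.Agent.MP_b00c97_gt.Lav.Limit
import Pool.Agent.MP_b00c97_gt.Lav.Generic

/-!
# MP_b00c97_gt, part P': blocks V2, V4, V5 (a strictly increasing version of the Laver real,
evasion and the limit property for the names of the intermediate model)
-/

set_option autoImplicit false

open Set MeasureTheory Filter Cardinal

namespace Pool.Agent.MP_b00c97_gt.Lav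

open Pool.Agent.BVM Pool.Agent.MP9096b7

section V2aux

variable {Ω : Type*} {m : MeasurableSpace Ω}

open Classical in
/-- The first place after which the sequence increases. -/
noncomputable def incrPt (G : Ω → ℕ → ℕ) (ω : Ω) : Option ℕ :=
  if h : ∃ N, ∀ k, N ≤ k → G ω k < G ω (k + 1) then some (Nat.find h) else none

open Classical in
theorem incrPt_some {G : Ω → ℕ → ℕ} {ω : Ω} {N : ℕ} :
    incrPt G ω = some N ↔ (∀ k, N ≤ k → G ω k < G ω (k + 1)) ∧
      ∀ M, M < N → ¬ ∀ k, M ≤ k → G ω k < G ω (k + 1) := by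
  unfold incrPt
  split_ifs with h
  · rw [Option.some_inj, Nat.find_eq_iff]
  · simp only [false_iff, not_and]
    intro h1
    exact absurd ⟨N, h1⟩ h

theorem exists_incr_version {G : Ω → ℕ → ℕ} (hG : Measurable[m] G) :
    ∃ l : Ω → ℕ → ℕ, Measurable[m] l ∧ (∀ ω, StrictMono (l ω)) ∧
      ∀ ω, (∀ᶠ k in atTop, G ω k < G ω (k + 1)) → ∃ N, ∀ k, l ω k = G ω (N + k) := by
  have hr := meas_real.1 hG
  have hlt : ∀ k, MeasurableSet[m] {ω | G ω k < G ω (k + 1)} := fun k =>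
    meas_rel (hr k) (hr (k + 1)) (· < ·)
  have hall : ∀ M, MeasurableSet[m] {ω | ∀ k, M ≤ k → G ω k < G ω (k + 1)} := fun M =>
    meas_all fun k => meas_imp (meas_const _) (hlt k)
  have hpt : ∀ N : ℕ, MeasurableSet[m] {ω | incrPt G ω = some N} := fun N =>
    meas_ev _ (meas_and (hall N) (meas_all fun M => meas_imp (meas_const (M < N)) (meas_not (hall M))))
      fun ω => incrPt_some
  have hpt' : ∀ i : Option ℕ, MeasurableSet[m] {ω | incrPt G ω = i} := by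
    intro i
    cases i with
    | none =>
      refine meas_ev _ (meas_not (meas_ex hpt)) fun ω => ?_
      simp only [mem_ofPred_eq]
      constructor
      · rintro h ⟨N, hN⟩
        rw [h] at hN
        exact absurd hN (by simp)
      · intro h
        rcases h' : incrPt G ω with _ | N
        · rfl
        · exact absurd ⟨N, h'⟩ h
    | some N => exact hpt N
  let g : Option ℕ → Ω → ℕ → ℕ := fun i ω => i.elim (fun k => k) fun N k => G ω (N + k)
  have hg : ∀ i, Measurable[m] (g i) := by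
    intro i
    cases i with
    | none => exact measurable_const
    | some N => exact meas_real.2 fun n k => hr (N + n) k
  refine ⟨fun ω => g (incrPt G ω) ω, meas_sel hpt' hg, fun ω => ?_, fun ω h => ?_⟩
  · show StrictMono (g (incrPt G ω) ω)
    rcases h' : incrPt G ω with _ | N
    · exact fun a b hab => hab
    · have h1 := (incrPt_some.1 h').1
      refine strictMono_nat_of_lt_succ fun k => ?_
      exact h1 (N + k) (by omega)
  · show ∃ N, ∀ k, g (incrPt G ω) ω k = G ω (N + k)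
    rcases h' : incrPt G ω with _ | N
    · exfalso
      obtain ⟨N, hN⟩ := eventually_atTop.1 h
      classical
      have h2 : ∃ N, ∀ k, N ≤ k → G ω k < G ω (k + 1) := ⟨N, hN⟩
      unfold incrPt at h'
      rw [dif_pos h2] at h'
      exact absurd h' (by simp)
    · exact ⟨N, fun k => rfl⟩

end V2aux

variable {K : Type} [LinearOrder K] [WellFoundedLT K]

section V

variable {B : Type} [CompleteBooleanAlgebra B] {em : Cond K → B}

/-- V2: a strictly increasing version of the Laver real `gen em ω γ`. -/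
theorem exists_l (he : IsEm em) (γ : K) : ∃ l : Ult B → ℕ → ℕ, Measurable[genM B] l ∧
    (∀ ω, StrictMono (l ω)) ∧ ∀ᶠ ω in genN B, ∃ N, ∀ k, l ω k = gen em ω γ (N + k) := by
  obtain ⟨l, hl, hmono, hN⟩ := exists_incr_version (meas_gen he γ)
  refine ⟨l, hl, hmono, ?_⟩
  set A : Set (K → ℕ → ℕ) := {x | ∃ N, ∀ k, N ≤ k → x γ k < x γ (k + 1)} with hA
  have hmA : MeasurableSet[𝓑 univ] A := by
    have hr := meas_real.1 (meas_coord (mem_univ γ))
    exact meas_ex fun N => meas_all fun k => meas_imp (meas_const _)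
      (meas_rel (hr k) (hr (k + 1)) (· < ·))
  have h1 : ∀ᶠ ω in genN B, gen em ω ∈ A := by
    apply gen_dense' he
    intro q
    obtain ⟨r, hr, hr'⟩ := incr γ q
    refine ⟨r, hr, transfer he r hmA fun x hx => ?_⟩
    exact eventually_atTop.1 (hr' x hx)
  filter_upwards [h1] with ω hω
  obtain ⟨N, hN'⟩ := hω
  exact hN ω (eventually_atTop.2 ⟨N, hN'⟩)

omit [WellFoundedLT K] in
/-- Membership of the mixed names in the intermediate model. -/
theorem wk_of_mix (he : IsEm em) {I : Set K} {F : Ult B → ℕ → ℕ} (hF : Measurable[genM B] F)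
    (h : ∀ p : Cond K, ∃ q ≤ p, ∃ (q' : Cond K) (F' : Ult B → ℕ → ℕ), q ≤ q' ∧ (∃ g : (K → ℕ → ℕ) → ℕ → ℕ, Measurable[𝓑 I] g ∧
      ∀ᶠ ω in genN B, ω.V (em q') → F' ω = g (gen em ω)) ∧
      ∀ᶠ ω in genN B, ω.V (em q') → F ω = F' ω) : Wk em I F := by
  refine ⟨hF, fun p => ?_⟩
  obtain ⟨q, hq, q', F', hqq, ⟨g, hg, h1⟩, h2⟩ := h p
  refine ⟨q, hq, g, hg, ?_⟩
  filter_upwards [h1, h2] with ω h1 h2 hω
  have h3 : ω.V (em q') := ω.mono (he.mono _ _ hqq) hω
  rw [h2 h3, h1 h3]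

/-- V4. -/
theorem wk_evade (he : IsEm em) {γ : K} {N : Ult B → ℕ → ℕ} (hN : Wk em (Iio γ) N)
    (h : Ult B → ℕ → ℕ) (hh : Measurable[genM B] h) :
    ∃ v, Wk em (Iio γ) v ∧ ∀ᶠ ω in genN B, ∀ n, ∀ j < N ω n, h ω (Nat.pair n j) ≠ v ω n := by
  have key : ∀ p : Cond K, ∃ q ≤ p, ∃ F : Ult B → ℕ → ℕ, Measurable[genM B] F ∧
      ((∃ g : (K → ℕ → ℕ) → ℕ → ℕ, Measurable[𝓑 (Iio γ)] g ∧
        ∀ᶠ ω in genN B, ω.V (em q) → F ω = g (gen em ω)) ∧
      ∀ᶠ ω in genN B, ω.V (em q) → ∀ n, ∀ j < N ω n, h ω (Nat.pair n j) ≠ F ω n) := by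
    intro p
    obtain ⟨q, hq, f, hf, hqf⟩ := hN.2 p
    obtain ⟨q', hq', h', hh', hqh⟩ := local_rep he h hh q
    obtain ⟨r, v, hr, hv, hrv⟩ := evade γ q' f h' hf hh'
    refine ⟨r, hr.trans (hq'.trans hq), fun ω => v (gen em ω), (strict_gen he hv).1,
      ⟨v, hv, Eventually.of_forall fun ω _ => rfl⟩, ?_⟩
    set A : Set (K → ℕ → ℕ) := {x | ∀ n j, j < f x n → h' x (Nat.pair n j) ≠ v x n} with hA
    have hmA : MeasurableSet[𝓑 univ] A := by
      have h1 := meas_real.1 (Meas.mono (subset_univ _) hf)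
      have h2 := meas_real.1 hh'
      have h3 := meas_real.1 (Meas.mono (subset_univ _) hv)
      exact meas_all fun n => meas_all fun j => meas_imp (meas_rel1 (h1 n) (j < ·))
        (meas_rel (h2 _) (h3 n) (· ≠ ·))
    have h4 := transfer he r hmA fun x hx n j hj => hrv x hx n j hj
    filter_upwards [h4, hqf, hqh] with ω h4 h5 h6 hω
    have h7 : ω.V (em q') := ω.mono (he.mono _ _ hr) hω
    have h8 : ω.V (em q) := ω.mono (he.mono _ _ hq') h7
    rw [h5 h8, h6 h7]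
    exact fun n j hj => h4 hω n j hj
  obtain ⟨F, hF, hmix⟩ := gen_mix he (fun q F =>
    (∃ g : (K → ℕ → ℕ) → ℕ → ℕ, Measurable[𝓑 (Iio γ)] g ∧
        ∀ᶠ ω in genN B, ω.V (em q) → F ω = g (gen em ω)) ∧
      ∀ᶠ ω in genN B, ω.V (em q) → ∀ n, ∀ j < N ω n, h ω (Nat.pair n j) ≠ F ω n) key
  refine ⟨F, wk_of_mix he hF fun p => ?_, gen_dense' he fun p => ?_⟩
  · obtain ⟨q, hq, q', F', hqq, hR, hFF⟩ := hmix p
    exact ⟨q, hq, q', F', hqq, hR.1, hFF⟩
  · obtain ⟨q, hq, q', F', hqq, hR, hFF⟩ := hmix p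
    refine ⟨q, hq, ?_⟩
    filter_upwards [hR.2, hFF] with ω h1 h2 hω
    have h3 : ω.V (em q') := ω.mono (he.mono _ _ hqq) hω
    rw [h2 h3]
    exact h1 h3

/-- V5. -/
theorem wk_limit (he : IsEm em) {γ : K} (t : Ult B → ℕ → ℕ) (ht : Measurable[genM B] t) :
    ∃ g, Wk em (Iio γ) g ∧ ∀ f, Wk em (Iio γ) f → ∀ᶠ ω in genN B, ∀ᶠ k in atTop, ∀ n,
      gen em ω γ k ≤ n → n ≤ f ω (gen em ω γ k) → t ω n ≤ f ω (gen em ω γ k) →
        t ω n ≤ g ω n := by
  have key : ∀ p : Cond K, ∃ q ≤ p, ∃ F : Ult B → ℕ → ℕ, Measurable[genM B] F ∧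
      ((∃ g : (K → ℕ → ℕ) → ℕ → ℕ, Measurable[𝓑 (Iio γ)] g ∧
        ∀ᶠ ω in genN B, ω.V (em q) → F ω = g (gen em ω)) ∧
      ∀ f : (K → ℕ → ℕ) → ℕ → ℕ, Measurable[𝓑 (Iio γ)] f →
        ∀ᶠ ω in genN B, ω.V (em q) → ∀ᶠ k in atTop, ∀ n,
          gen em ω γ k ≤ n → n ≤ f (gen em ω) (gen em ω γ k) →
            t ω n ≤ f (gen em ω) (gen em ω γ k) → t ω n ≤ F ω n) := by
    intro p
    obtain ⟨q, hq, t', ht', hqt⟩ := local_rep he t ht p
    obtain ⟨r, g, hr, hg, hrg⟩ := limit γ q t' ht'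
    refine ⟨r, hr.trans hq, fun ω => g (gen em ω), (strict_gen he hg).1,
      ⟨g, hg, Eventually.of_forall fun ω _ => rfl⟩, fun f hf => gen_dense he r fun r' hr' => ?_⟩
    obtain ⟨s, hs, hs'⟩ := hrg f hf r' hr'
    refine ⟨s, hs, ?_⟩
    set A : Set (K → ℕ → ℕ) := {x | ∃ k₀, ∀ k, k₀ ≤ k → ∀ n, x γ k ≤ n → n ≤ f x (x γ k) →
      t' x n ≤ f x (x γ k) → t' x n ≤ g x n} with hA
    have hmA : MeasurableSet[𝓑 univ] A := by
      have h1 := meas_real.1 (Meas.mono (subset_univ _) hf)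
      have h2 := meas_real.1 ht'
      have h3 := meas_real.1 (Meas.mono (subset_univ _) hg)
      have h4 := meas_real.1 (meas_coord (mem_univ γ))
      have h5 : ∀ k i, MeasurableSet[𝓑 univ] {x : K → ℕ → ℕ | f x (x γ k) = i} := fun k i =>
        meas_sel_set (P := fun j x => f x j = i) (h4 k) fun j => h1 j i
      exact meas_ex fun k₀ => meas_all fun k => meas_imp (meas_const _) (meas_all fun n =>
        meas_imp (meas_rel1 (h4 k) (· ≤ n)) (meas_imp (meas_rel1 (h5 k) (n ≤ ·))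
          (meas_imp (meas_rel (h2 n) (h5 k) (· ≤ ·)) (meas_rel (h2 n) (h3 n) (· ≤ ·)))))
    have h4 := transfer he s hmA fun x hx => eventually_atTop.1 (hs' x hx)
    filter_upwards [h4, hqt] with ω h4 h5 hω
    have h6 : ω.V (em q) := ω.mono (he.mono _ _ (hs.trans (hr'.trans hr))) hω
    rw [h5 h6]
    exact eventually_atTop.2 (h4 hω)
  obtain ⟨F, hF, hmix⟩ := gen_mix he (fun q F =>
    (∃ g : (K → ℕ → ℕ) → ℕ → ℕ, Measurable[𝓑 (Iio γ)] g ∧
        ∀ᶠ ω in genN B, ω.V (em q) → F ω = g (gen em ω)) ∧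
      ∀ f : (K → ℕ → ℕ) → ℕ → ℕ, Measurable[𝓑 (Iio γ)] f →
        ∀ᶠ ω in genN B, ω.V (em q) → ∀ᶠ k in atTop, ∀ n,
          gen em ω γ k ≤ n → n ≤ f (gen em ω) (gen em ω γ k) →
            t ω n ≤ f (gen em ω) (gen em ω γ k) → t ω n ≤ F ω n) key
  refine ⟨F, wk_of_mix he hF fun p => ?_, fun f hf => gen_dense' he fun p => ?_⟩
  · obtain ⟨q, hq, q', F', hqq, hR, hFF⟩ := hmix p
    exact ⟨q, hq, q', F', hqq, hR.1, hFF⟩
  · obtain ⟨q, hq, q', F', hqq, hR, hFF⟩ := hmix p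
    obtain ⟨r, hr, f', hf', hrf⟩ := hf.2 q
    refine ⟨r, hr.trans hq, ?_⟩
    filter_upwards [hR.2 f' hf', hFF, hrf] with ω h1 h2 h3 hω
    have h4 : ω.V (em q') := ω.mono (he.mono _ _ (hr.trans hqq)) hω
    rw [h2 h4, h3 hω]
    exact h1 h4

end V

end Pool.Agent.MP_b00c97_gt.Lav
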