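import Pool.Agent.MP_b00c97_gt.Lav.V13
import Pool.Agent.MP_b00c97_gt.Lav.V245
import Pool.Agent.MP_b00c97_gt.Lav.Close2

/-!
# MP_b00c97_gt, part P', block V6: `LProp B`
-/

set_option autoImplicit false

open Set MeasureTheory Filter Cardinal

namespace Pool.Agent.MP_b00c97_gt.Lav

open Pool.Agent.BVM Pool.Agent.MP9096b7

variable {K : Type} [LinearOrder K] [WellFoundedLT K]

section V

variable {B : Type} [CompleteBooleanAlgebra B] {em : Cond K → B}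

theorem lprop_of_em [Nonempty K] (hcof : ∀ g : (ℕ → ℕ) → K, ∃ α, ∀ c, g c < α)
    (hsmall : ∀ α : K, ∃ e : (ℕ → ℕ) → K, ∀ β ≤ α, ∃ c, e c = β) (he : IsEm em) :
    LProp B := by
  intro Op hOp hloc
  obtain ⟨γ, -, hγ⟩ := exists_strict_point hcof hsmall he Op hOp
  obtain ⟨l, hlm, hlmono, hl⟩ := exists_l he γ
  refine ⟨{F | Wk em (Iio γ) F}, l, ?_, fun F hF => hF.1, hlm, hlmono,
    fun i F hF G hG => wk_op he Op hOp hloc hγ i hF hG, ?_, ?_, ?_, ?_⟩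
  · refine ⟨fun _ _ => 0, measurable_const, fun p => ⟨p, le_rfl, fun _ _ => 0, measurable_const, ?_⟩⟩
    exact Eventually.of_forall fun _ _ => rfl
  · intro F hF G hG hFG
    refine ⟨hG, fun p => ?_⟩
    obtain ⟨q, hq, f, hf, h⟩ := hF.2 p
    refine ⟨q, hq, f, hf, ?_⟩
    filter_upwards [h, hFG] with ω h1 h2 h3
    rw [← h2]
    exact h1 h3
  · intro v hv
    obtain ⟨s, hs, h⟩ := wk_hit he Op hOp hloc hγ hv
    refine ⟨s, hs, ?_⟩
    filter_upwards [h, hl] with ω h1 h2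
    refine ⟨h1.1, fun h3 => ?_⟩
    obtain ⟨N, hN⟩ := h2
    obtain ⟨k₀, hk₀⟩ := eventually_atTop.1 (h1.2 h3)
    refine eventually_atTop.2 ⟨k₀, fun k hk => ?_⟩
    rw [hN k]
    exact hk₀ _ (by omega)
  · intro N hN h hh
    obtain ⟨v, hv, h1⟩ := wk_evade he hN h hh
    exact ⟨v, hv, h1.mono fun ω h2 => Eventually.of_forall h2⟩
  · intro t ht
    obtain ⟨g, hg, h⟩ := wk_limit he (γ := γ) t ht
    refine ⟨g, hg, fun f hf => ?_⟩
    filter_upwards [h f hf, hl] with ω h1 h2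
    obtain ⟨N, hN⟩ := h2
    obtain ⟨k₀, hk₀⟩ := eventually_atTop.1 h1
    refine eventually_atTop.2 ⟨k₀, fun k hk => ?_⟩
    rw [hN k]
    exact hk₀ _ (by omega)

end V

/-- The goal of part P'. -/
theorem exists_LProp : ∃ (B : Type) (_ : CompleteBooleanAlgebra B),
    Nonempty (Ult B) ∧ LProp B := by
  obtain ⟨K, iL, iW, iN, hcof, hsmall⟩ := exists_K
  obtain ⟨B, iB, em, h1, h2, h3, h4⟩ := exists_completion (Cond K)
  have he : IsEm em := ⟨h1, h2, h3, h4⟩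
  obtain ⟨ω, -⟩ := Ult.exists_of_ne_bot (h1 (Cond.one : Cond K))
  exact ⟨B, iB, ⟨ω⟩, lprop_of_em hcof hsmall he⟩

end Pool.Agent.MP_b00c97_gt.Lav
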