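import Pool.Agent.MP_b00c97_gt.Lav.Defs2

/-!
# MP_b00c97_gt, part P', block K1: enumerations and closure points
-/

set_option autoImplicit false

open Set MeasureTheory Filter Cardinal

namespace Pool.Agent.MP_b00c97_gt.Lav

/-- A set of size at most the continuum is enumerated by the reals. -/
theorem exists_surj_of_card {α : Type} [Nonempty α] (h : #α ≤ 𝔠) :
    ∃ g : (ℕ → ℕ) → α, Function.Surjective g := by
  have h1 : #(ℕ → ℕ) = 𝔠 := by
    rw [← power_def, mk_nat, aleph0_power_aleph0]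
  rw [← h1] at h
  obtain ⟨f⟩ := h
  exact ⟨Function.invFun f, Function.invFun_surjective f.injective⟩

theorem card_seq_le {α : Type} (h : #α ≤ 𝔠) (ι : Type) [Countable ι] : #(ι → α) ≤ 𝔠 := by
  rw [← power_def]
  calc #α ^ #ι ≤ 𝔠 ^ ℵ₀ := by
        refine (power_le_power_right h).trans ?_
        exact power_le_power_left (by
          intro h0
          exact absurd aleph0_pos (by rw [not_lt]; exact aleph0_le_continuum.trans h0.le)) mk_le_aleph0
    _ = 𝔠 := continuum_power_aleph0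

/-- The basic events. -/
def baseSets {K : Type} (e : (ℕ → ℕ) → K) : Set (Set (K → ℕ → ℕ)) :=
  Set.range fun p : (ℕ → ℕ) × ℕ × ℕ => {x : K → ℕ → ℕ | x (e p.1) p.2.1 = p.2.2}

theorem 𝓑_le_gen {K : Type} {I : Set K} (e : (ℕ → ℕ) → K) (he : ∀ β ∈ I, ∃ c, e c = β) :
    𝓑 I ≤ MeasurableSpace.generateFrom (baseSets e) := by
  intro A hA
  obtain ⟨A', hA', rfl⟩ := hA
  refine (@measurable_pi_iff (K → ℕ → ℕ) I (fun _ => ℕ → ℕ)
    (MeasurableSpace.generateFrom (baseSets e)) _ _).2 (fun δ : I => ?_) hA'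
  rw [meas_real]
  intro n k
  obtain ⟨c, hc⟩ := he δ.1 δ.2
  refine MeasurableSpace.measurableSet_generateFrom ⟨(c, n, k), ?_⟩
  simp only [hc]

theorem card_meas_set {K : Type} {I : Set K} (e : (ℕ → ℕ) → K) (he : ∀ β ∈ I, ∃ c, e c = β) :
    #{A : Set (K → ℕ → ℕ) // MeasurableSet[𝓑 I] A} ≤ 𝔠 := by
  have h1 : #(baseSets e) ≤ 𝔠 := by
    refine mk_range_le.trans ?_
    rw [mk_prod, mk_prod, ← power_def, mk_nat, aleph0_power_aleph0]
    simp
  refine le_trans ?_ (MeasurableSpace.cardinal_measurableSet_le_continuum h1)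
  exact mk_subtype_mono fun A hA => 𝓑_le_gen e he A hA

/-- There are at most `𝔠` measurable functions into a countably separated space. -/
theorem card_meas_fun {K : Type} {I : Set K} (e : (ℕ → ℕ) → K) (he : ∀ β ∈ I, ∃ c, e c = β)
    {β ι : Type} [MeasurableSpace β] [Countable ι] (U : ι → Set β)
    (hU : ∀ i, MeasurableSet (U i)) (hsep : ∀ a b, (∀ i, a ∈ U i ↔ b ∈ U i) → a = b) :
    #{f : (K → ℕ → ℕ) → β // Measurable[𝓑 I] f} ≤ 𝔠 := by
  let Φ : {f : (K → ℕ → ℕ) → β // Measurable[𝓑 I] f} →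
      ι → {A : Set (K → ℕ → ℕ) // MeasurableSet[𝓑 I] A} :=
    fun f i => ⟨f.1 ⁻¹' U i, f.2 (hU i)⟩
  have hΦ : Function.Injective Φ := by
    rintro ⟨f, hf⟩ ⟨g, hg⟩ h
    apply Subtype.ext
    funext x
    apply hsep
    intro i
    have h1 := congrArg (fun F => (F i).1) h
    have h2 : x ∈ f ⁻¹' U i ↔ x ∈ g ⁻¹' U i := by
      change f ⁻¹' U i = g ⁻¹' U i at h1
      rw [h1]
    exact h2
  exact (mk_le_of_injective hΦ).trans (card_seq_le (card_meas_set e he) ι)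

/-- There are at most `𝔠` measurable functions depending on a set of at most `𝔠` coordinates. -/
theorem exists_enum_fun {K : Type} {I : Set K} (e : (ℕ → ℕ) → K) (he : ∀ β ∈ I, ∃ c, e c = β) :
    ∃ E : (ℕ → ℕ) → (K → ℕ → ℕ) → ℕ → ℕ, ∀ f : (K → ℕ → ℕ) → ℕ → ℕ, Measurable[𝓑 I] f →
      ∃ c, E c = f := by
  have h1 := card_meas_fun e he (β := ℕ → ℕ) (ι := ℕ × ℕ)
    (fun i => {a | a i.1 = i.2}) (fun i => meas_real.1 measurable_id i.1 i.2) (by
      intro a b h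
      funext n
      have := (h (n, a n)).1 rfl
      exact this.symm)
  have : Nonempty {f : (K → ℕ → ℕ) → ℕ → ℕ // Measurable[𝓑 I] f} :=
    ⟨⟨fun _ _ => 0, measurable_const⟩⟩
  obtain ⟨g, hg⟩ := exists_surj_of_card h1
  refine ⟨fun c => (g c).1, fun f hf => ?_⟩
  obtain ⟨c, hc⟩ := hg ⟨f, hf⟩
  exact ⟨c, by simp only [hc]⟩

theorem exists_enum_code {K : Type} {I : Set K} (e : (ℕ → ℕ) → K) (he : ∀ β ∈ I, ∃ c, e c = β) :
    ∃ E : (ℕ → ℕ) → (K → ℕ → ℕ) → Code, ∀ f : (K → ℕ → ℕ) → Code, Measurable[𝓑 I] f →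
      ∃ c, E c = f := by
  have hid := (meas_code (f := fun a : Code => a)).1 measurable_id
  have h1 := card_meas_fun e he (β := Code) (ι := List ℕ ⊕ (List ℕ × ℕ × ℕ))
    (fun i => Sum.elim (fun σ => {a : Code | a.1 = σ}) (fun q => {a : Code | a.2 q.1 q.2.1 = q.2.2}) i)
    (by
      rintro (σ | q)
      · exact hid.1 σ
      · exact hid.2 q.1 q.2.1 q.2.2) (by
      intro a b h
      apply Prod.ext
      · have := (h (Sum.inl a.1)).1 rfl
        exact this.symm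
      · funext τ n
        have := (h (Sum.inr (τ, n, a.2 τ n))).1 rfl
        exact this.symm)
  have : Nonempty {f : (K → ℕ → ℕ) → Code // Measurable[𝓑 I] f} :=
    ⟨⟨fun _ => triv, measurable_const⟩⟩
  obtain ⟨g, hg⟩ := exists_surj_of_card h1
  refine ⟨fun c => (g c).1, fun f hf => ?_⟩
  obtain ⟨c, hc⟩ := hg ⟨f, hf⟩
  exact ⟨c, by simp only [hc]⟩

theorem Cond.ext' {K : Type} [LinearOrder K] {p q : Cond K} (h : p.t = q.t) : p = q := by
  cases p; cases q; cases h; rfl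

theorem exists_enum_cond {K : Type} [LinearOrder K] {I : Set K} (hI : IsLowerSet I)
    (e : (ℕ → ℕ) → K) (he : ∀ β ∈ I, ∃ c, e c = β) :
    ∃ E : (ℕ → ℕ) → Cond K, ∀ p : Cond K, p.SuppIn I → ∃ c, E c = p := by
  classical
  obtain ⟨G, hG⟩ := exists_enum_code e he
  -- the data and the relation
  let D : Type := (ℕ → ℕ → ℕ) × (ℕ → ℕ → ℕ)
  let R : D → Cond K → Prop := fun d p =>
    (∀ i, p.t (e (d.1 i)) = G (d.2 i)) ∧ ∀ γ, (∀ i, e (d.1 i) ≠ γ) → p.t γ = fun _ => triv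
  have huniq : ∀ d p q, R d p → R d q → p = q := by
    intro d p q hp hq
    apply Cond.ext'
    funext γ
    by_cases h : ∃ i, e (d.1 i) = γ
    · obtain ⟨i, rfl⟩ := h
      rw [hp.1 i, hq.1 i]
    · push Not at h
      rw [hp.2 γ h, hq.2 γ h]
  have hD : #D ≤ 𝔠 := by
    have h1 : #(ℕ → ℕ → ℕ) ≤ 𝔠 := card_seq_le (by
      rw [← power_def, mk_nat, aleph0_power_aleph0]) ℕ
    change #((ℕ → ℕ → ℕ) × (ℕ → ℕ → ℕ)) ≤ 𝔠
    rw [mk_prod]
    simp only [lift_id]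
    calc #(ℕ → ℕ → ℕ) * #(ℕ → ℕ → ℕ) ≤ 𝔠 * 𝔠 := mul_le_mul' h1 h1
      _ = 𝔠 := continuum_mul_self
  obtain ⟨g, hg⟩ := exists_surj_of_card hD
  refine ⟨fun c => if h : ∃ p, R (g c) p then h.choose else Cond.one, fun p hp => ?_⟩
  -- the data of `p`
  have hsupp : ∀ γ, p.t γ ≠ (fun _ => triv) → γ ∈ I := by
    intro γ hγ
    by_contra h
    exact hγ (hp γ h)
  have hmeas : ∀ γ, Measurable[𝓑 I] (p.t γ) := by
    intro γ
    by_cases h : γ ∈ I
    · exact Meas.mono (fun δ hδ => hI (le_of_lt hδ) h) (p.meas γ)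
    · rw [hp γ h]; exact measurable_const
  obtain ⟨s, hs⟩ : ∃ s : ℕ → ℕ → ℕ, ∀ γ, p.t γ ≠ (fun _ => triv) → ∃ i, e (s i) = γ := by
    choose! c hc using he
    have h1 : (c '' {γ | p.t γ ≠ fun _ => triv}).Countable := p.ctbl.image c
    obtain ⟨s, hs⟩ := Set.countable_iff_exists_subset_range.1 h1
    refine ⟨s, fun γ hγ => ?_⟩
    obtain ⟨i, hi⟩ := hs ⟨γ, hγ, rfl⟩
    exact ⟨i, by rw [hi, hc γ (hsupp γ hγ)]⟩
  choose v hv using fun i => hG _ (hmeas (e (s i)))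
  have hR : R (s, v) p := by
    refine ⟨fun i => (hv i).symm, fun γ hγ => ?_⟩
    by_contra h
    obtain ⟨i, hi⟩ := hs γ h
    exact hγ i hi
  obtain ⟨c, hc⟩ := hg (s, v)
  refine ⟨c, ?_⟩
  have hex : ∃ p, R (g c) p := ⟨p, by rw [hc]; exact hR⟩
  simp only [dif_pos hex]
  exact huniq (g c) _ _ hex.choose_spec (by rw [hc]; exact hR)

theorem UCof.exists_set {K : Type} [LinearOrder K] {I : Set K} (h : UCof I)
    {A : Set (K → ℕ → ℕ)} (hA : MeasurableSet[𝓑 I] A) :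
    ∃ β ∈ I, MeasurableSet[𝓑 (Iio β)] A := by
  obtain ⟨⟨β₀, hβ₀⟩, hb⟩ := h
  let base : Set (Set (K → ℕ → ℕ)) :=
    {A | ∃ δ ∈ I, ∃ n k : ℕ, A = {x : K → ℕ → ℕ | x δ n = k}}
  have hle : 𝓑 I ≤ MeasurableSpace.generateFrom base := by
    intro A hA
    obtain ⟨A', hA', rfl⟩ := hA
    refine (@measurable_pi_iff (K → ℕ → ℕ) I (fun _ => ℕ → ℕ)
      (MeasurableSpace.generateFrom base) _ _).2 (fun δ : I => ?_) hA'
    rw [meas_real]
    intro n k
    exact MeasurableSpace.measurableSet_generateFrom ⟨δ.1, δ.2, n, k, rfl⟩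
  refine MeasurableSpace.generateFrom_induction (C := base)
    (p := fun A _ => ∃ β ∈ I, MeasurableSet[𝓑 (Iio β)] A) ?_ ?_ ?_ ?_ A (hle A hA)
  · rintro _ ⟨δ, hδ, n, k, rfl⟩ _
    obtain ⟨β, hβ, hlt⟩ := hb (fun _ => δ) fun _ => hδ
    exact ⟨β, hβ, meas_real.1 (meas_coord (mem_Iio.2 (hlt 0))) n k⟩
  · exact ⟨β₀, hβ₀, @MeasurableSet.empty _ (𝓑 (Iio β₀))⟩
  · rintro A _ ⟨β, hβ, h⟩
    exact ⟨β, hβ, h.compl⟩
  · intro A _ ih
    choose g hg hA using ih
    obtain ⟨β, hβ, hlt⟩ := hb g hg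
    exact ⟨β, hβ, MeasurableSet.iUnion fun n => 𝓑_mono (Iio_subset_Iio (hlt n).le) _ (hA n)⟩

theorem UCof.exists_fun {K : Type} [LinearOrder K] {I : Set K} (_hI : IsLowerSet I) (h : UCof I)
    {f : (K → ℕ → ℕ) → ℕ → ℕ} (hf : Measurable[𝓑 I] f) :
    ∃ β ∈ I, Measurable[𝓑 (Iio β)] f := by
  have h1 : ∀ i : ℕ, ∃ β ∈ I, MeasurableSet[𝓑 (Iio β)] {x | f x i.unpair.1 = i.unpair.2} :=
    fun i => h.exists_set (meas_real.1 hf _ _)
  choose g hg hA using h1
  obtain ⟨β, hβ, hlt⟩ := h.2 g hg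
  refine ⟨β, hβ, meas_real.2 fun n k => ?_⟩
  have h2 := hA (Nat.pair n k)
  rw [Nat.unpair_pair] at h2
  exact 𝓑_mono (Iio_subset_Iio (hlt _).le) _ h2

theorem UCof.exists_cond {K : Type} [LinearOrder K] {I : Set K} (_hI : IsLowerSet I) (h : UCof I)
    {p : Cond K} (hp : p.SuppIn I) : ∃ β ∈ I, p.SuppIn (Iio β) := by
  have hsub : {γ | p.t γ ≠ fun _ => triv} ⊆ I := by
    intro γ hγ
    by_contra hn
    exact hγ (hp γ hn)
  rcases Set.eq_empty_or_nonempty {γ | p.t γ ≠ fun _ => triv} with h0 | h0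
  · obtain ⟨β, hβ⟩ := h.1
    refine ⟨β, hβ, fun γ _ => ?_⟩
    by_contra hn
    have : γ ∈ {γ | p.t γ ≠ fun _ => triv} := hn
    rw [h0] at this
    exact this
  · obtain ⟨g, hg⟩ := p.ctbl.exists_eq_range h0
    obtain ⟨β, hβ, hlt⟩ := h.2 g fun n => hsub (by rw [hg]; exact ⟨n, rfl⟩)
    refine ⟨β, hβ, fun γ hγ => ?_⟩
    by_contra hn
    have : γ ∈ {γ | p.t γ ≠ fun _ => triv} := hn
    rw [hg] at this
    obtain ⟨n, rfl⟩ := this
    exact hγ (hlt n)

/-- The index type. -/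
theorem exists_K : ∃ (K : Type) (_ : LinearOrder K) (_ : WellFoundedLT K) (_ : Nonempty K),
    (∀ g : (ℕ → ℕ) → K, ∃ α, ∀ c, g c < α) ∧
      ∀ α : K, ∃ e : (ℕ → ℕ) → K, ∀ β ≤ α, ∃ c, e c = β := by
  classical
  let K : Type := (Order.succ 𝔠).ord.ToType
  have hcK : #K = Order.succ 𝔠 := mk_ord_toType _
  have hIio : ∀ α : K, #(Set.Iio α) ≤ 𝔠 := fun α => by
    have h1 : #(Set.Iio α) < #K := mk_Iio_lt α (by rw [hcK]; exact (Ordinal.type_toType _).symm)
    rw [hcK] at h1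
    exact Order.lt_succ_iff.1 h1
  have hIic : ∀ α : K, #(Set.Iic α) ≤ 𝔠 := fun α => by
    rw [← Set.Iio_insert]
    refine (mk_insert_le).trans ?_
    calc #(Set.Iio α) + 1 ≤ 𝔠 + 𝔠 := add_le_add (hIio α) (one_le_aleph0.trans aleph0_le_continuum)
      _ = 𝔠 := continuum_add_self
  have hcof : ∀ (A : Type) (_ : #A ≤ 𝔠) (g : A → K), ∃ α, ∀ a, g a < α := by
    intro A hA g
    by_contra hcon
    push Not at hcon
    have h1 : (Set.univ : Set K) ⊆ ⋃ a, Set.Iic (g a) := fun α _ => by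
      obtain ⟨a, ha⟩ := hcon α
      exact Set.mem_iUnion.2 ⟨a, ha⟩
    have h2 : #K ≤ 𝔠 := by
      rw [← mk_univ]
      refine (mk_le_mk_of_subset h1).trans ((mk_iUnion_le _).trans ?_)
      calc #A * ⨆ a, #(Set.Iic (g a)) ≤ 𝔠 * 𝔠 := mul_le_mul' hA (ciSup_le' fun a => hIic (g a))
        _ = 𝔠 := continuum_mul_self
    rw [hcK] at h2
    exact absurd (Order.lt_succ 𝔠) (not_lt.2 h2)
  have hne : Nonempty K := by
    rw [← mk_ne_zero_iff, hcK]
    exact (Order.bot_lt_succ _).ne'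
  refine ⟨K, inferInstance, inferInstance, hne, fun g => hcof (ℕ → ℕ) ?_ g, fun α => ?_⟩
  · rw [← power_def, mk_nat, aleph0_power_aleph0]
  · have : Nonempty (Set.Iic α) := ⟨⟨α, le_refl α⟩⟩
    obtain ⟨g, hg⟩ := exists_surj_of_card (hIic α)
    refine ⟨fun c => (g c).1, fun β hβ => ?_⟩
    obtain ⟨c, hc⟩ := hg ⟨β, hβ⟩
    exact ⟨c, by simp only [hc]⟩

variable {K : Type} [LinearOrder K] [WellFoundedLT K]

/-- Closure points: the data `S β ⊆ T` of the stage `β`, `c` the bound to be respected. -/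
theorem exists_closed [Nonempty K] (hcof : ∀ g : (ℕ → ℕ) → K, ∃ α, ∀ c, g c < α) {T : Type*} (S : K → Set T)
    (hmono : ∀ β β', β ≤ β' → S β ⊆ S β') (hsize : ∀ β, ∃ e : (ℕ → ℕ) → T, ∀ t ∈ S β, ∃ c, e c = t)
    (hcont : ∀ γ, UCof (Iio γ) → ∀ t ∈ S γ, ∃ β < γ, t ∈ S β) (c : T → K) :
    ∃ γ, UCof (Iio γ) ∧ ∀ t ∈ S γ, c t < γ := by
  classical
  -- the bounding function
  have hF : ∀ β : K, ∃ β' : K, β < β' ∧ ∀ t ∈ S β, c t < β' := by
    intro β
    obtain ⟨e, he⟩ := hsize β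
    obtain ⟨α, hα⟩ := hcof fun x => max β (c (e x))
    refine ⟨α, lt_of_le_of_lt (le_max_left _ _) (hα 0), fun t ht => ?_⟩
    obtain ⟨x, rfl⟩ := he t ht
    exact lt_of_le_of_lt (le_max_right _ _) (hα x)
  choose F hF1 hF2 using hF
  let C : Set K := {β | ∀ β' < β, ∀ t ∈ S β', c t < β}
  have hseq : ∀ g : ℕ → K, ∃ α, (∀ n, g n < α) ∧ ∀ β < α, ∃ n, β ≤ g n := by
    intro g
    have hne : {α : K | ∀ n, g n < α}.Nonempty := by
      obtain ⟨α, hα⟩ := hcof fun x => g (x 0)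
      exact ⟨α, fun n => hα fun _ => n⟩
    refine ⟨WellFounded.min wellFounded_lt _ hne, WellFounded.min_mem wellFounded_lt _ hne, ?_⟩
    intro β hβ
    by_contra hcon
    push Not at hcon
    exact WellFounded.not_lt_min wellFounded_lt {α : K | ∀ n, g n < α} (x := β) hcon hβ
  have hunb : ∀ β₀ : K, ∃ β ∈ C, β₀ < β := by
    intro β₀
    let g : ℕ → K := fun n => F^[n] β₀
    obtain ⟨α, hα1, hα2⟩ := hseq g
    refine ⟨α, ?_, hα1 0⟩
    intro β' hβ' t ht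
    obtain ⟨n, hn⟩ := hα2 β' hβ'
    have h1 := hF2 (g n) t (hmono _ _ hn ht)
    have h2 : F (g n) = g (n + 1) := (Function.iterate_succ_apply' F n β₀).symm
    rw [h2] at h1
    exact h1.trans (hα1 _)
  -- a point above uncountably many elements of `C`
  have hex : {α : K | ¬ (C ∩ Iio α).Countable}.Nonempty := by
    obtain ⟨α₀⟩ := (inferInstance : Nonempty K)
    have hne : C.Nonempty := by
      obtain ⟨β, hβ, -⟩ := hunb α₀
      exact ⟨β, hβ⟩
    have hCunc : ¬ C.Countable := by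
      intro hC
      obtain ⟨g, hg⟩ := hC.exists_eq_range hne
      obtain ⟨α, hα⟩ := hcof fun x => g (x 0)
      obtain ⟨β, hβ, hlt⟩ := hunb α
      rw [hg] at hβ
      obtain ⟨n, rfl⟩ := hβ
      exact absurd (hα fun _ => n) (not_lt.2 hlt.le)
    have h1 : ℵ₁ ≤ #C := by
      rw [← succ_aleph0]
      refine Order.succ_le_of_lt ?_
      by_contra hcon
      exact hCunc (le_aleph0_iff_set_countable.1 (not_lt.1 hcon))
    obtain ⟨P, hP, hPc⟩ := le_mk_iff_exists_subset.1 h1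
    have hP1 : ¬ P.Countable := by
      intro h2
      have h3 := le_aleph0_iff_set_countable.2 h2
      rw [hPc, ← succ_aleph0] at h3
      exact absurd (Order.lt_succ ℵ₀) (not_lt.2 h3)
    have hP2 : Nonempty P := by
      rcases Set.eq_empty_or_nonempty P with rfl | h2
      · exact absurd Set.countable_empty hP1
      · exact h2.to_subtype
    obtain ⟨g, hg⟩ := exists_surj_of_card (α := P) (by rw [hPc]; exact aleph_one_le_continuum)
    obtain ⟨α, hα⟩ := hcof fun x => (g x).1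
    have hsub : P ⊆ C ∩ Iio α := by
      intro β hβ
      refine ⟨hP hβ, ?_⟩
      obtain ⟨x, hx⟩ := hg ⟨β, hβ⟩
      have := hα x
      rw [hx] at this
      exact this
    exact ⟨α, fun hcon => hP1 (hcon.mono hsub)⟩
  set γ := WellFounded.min wellFounded_lt _ hex with hγ
  have hγ1 : ¬ (C ∩ Iio γ).Countable := WellFounded.min_mem wellFounded_lt _ hex
  have hγ2 : ∀ β < γ, (C ∩ Iio β).Countable := by
    intro β hβ
    by_contra hcon
    exact WellFounded.not_lt_min wellFounded_lt {α : K | ¬ (C ∩ Iio α).Countable} (x := β) hcon hβ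
  have key : ∀ g : ℕ → K, (∀ n, g n < γ) → ∃ β ∈ C, β < γ ∧ ∀ n, g n < β := by
    intro g hg
    have h1 : (⋃ n, C ∩ Iic (g n)).Countable := by
      refine countable_iUnion fun n => ((hγ2 (g n) (hg n)).insert (g n)).mono ?_
      rintro β ⟨hβ, hle⟩
      rcases (mem_Iic.1 hle).lt_or_eq with h | h
      · exact Or.inr ⟨hβ, h⟩
      · exact Or.inl h
    by_contra hcon
    push Not at hcon
    refine hγ1 (h1.mono ?_)
    rintro β ⟨hβ, hlt⟩
    obtain ⟨n, hn⟩ := hcon β hβ hlt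
    exact mem_iUnion.2 ⟨n, hβ, hn⟩
  have hU : UCof (Iio γ) := by
    refine ⟨?_, fun g hg => ?_⟩
    · by_contra hcon
      rw [not_nonempty_iff_eq_empty] at hcon
      apply hγ1
      rw [hcon, inter_empty]
      exact countable_empty
    · obtain ⟨β, -, h1, h2⟩ := key g hg
      exact ⟨β, h1, h2⟩
  refine ⟨γ, hU, fun t ht => ?_⟩
  obtain ⟨β, hβ, htβ⟩ := hcont γ hU t ht
  obtain ⟨β', h1, h2, h3⟩ := key (fun _ => β) fun _ => hβ
  exact (h1 β (h3 0) t htβ).trans h2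

end Pool.Agent.MP_b00c97_gt.Lav
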