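import Mathlib

/-!
# MP_b00c97_gt: codes of Laver trees

A code `a` is a pair: the stem (a reversed finite sequence) and, for each index `τ` (a reversed
finite sequence), an enumeration of the successors of the node with index `τ`.
-/

set_option autoImplicit false

open Set

namespace Pool.Agent.MP_b00c97_gt.Lav

/-- The reversed initial segment of length `n` of `l`. -/
def pre (l : ℕ → ℕ) : ℕ → List ℕ
  | 0 => []
  | n + 1 => l n :: pre l n

/-- Codes of Laver trees. -/
abbrev Code := List ℕ × (List ℕ → ℕ → ℕ)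

open Classical in
/-- Make a function strictly increasing. -/
noncomputable def fix (c : ℕ → ℕ) : ℕ → ℕ := if StrictMono c then c else id

theorem fix_mono (c : ℕ → ℕ) : StrictMono (fix c) := by
  unfold fix
  split_ifs with h
  · exact h
  · exact strictMono_id

theorem fix_eq {c : ℕ → ℕ} (h : StrictMono c) : fix c = c := if_pos h

/-- The enumeration of the successors of the node with index `τ`. -/
noncomputable def nxt (a : Code) (τ : List ℕ) : ℕ → ℕ := fix (a.2 τ)

/-- The node with index `τ`. -/
noncomputable def nd (a : Code) : List ℕ → List ℕ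
  | [] => a.1
  | k :: τ => nxt a τ k :: nd a τ

/-- The set of the branches. -/
def Br (a : Code) : Set (ℕ → ℕ) := {l | ∀ n, ∃ τ, pre l (a.1.length + n) = nd a τ}

/-- The code of the full tree. -/
def triv : Code := ([], fun _ k => k)

/-- The code of the full tree with stem `τ`. -/
def cone (τ : List ℕ) : Code := (τ, fun _ k => k)

/-- The composition: `nd (comp a b) τ = nd a (nd b τ)`. -/
noncomputable def comp (a b : Code) : Code := (nd a b.1, fun τ k => nxt a (nd b τ) (nxt b τ k))

open Classical in
/-- The index of a node (`[]` if it is not a node). -/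
noncomputable def ix (a : Code) (ν : List ℕ) : List ℕ :=
  if h : ∃ τ, nd a τ = ν then h.choose else []

/-- The branch with index `u`. -/
noncomputable def br (a : Code) (u : ℕ → ℕ) : ℕ → ℕ := fun n =>
  if n < a.1.length then a.1.reverse.getD n 0
  else nxt a (pre u (n - a.1.length)) (u (n - a.1.length))

/-- The index of a branch. -/
noncomputable def idx (a : Code) (l : ℕ → ℕ) : ℕ → ℕ := fun n =>
  (ix a (pre l (a.1.length + (n + 1)))).headD 0

/-- If the tree of `b` is contained in the tree of `a`, then `b` and `comp a (quot a b)` have the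
same nodes. -/
noncomputable def quot (a b : Code) : Code :=
  (ix a b.1, fun τ k => (ix a (nd b (k :: τ))).headD 0)

theorem pre_length (l : ℕ → ℕ) (n : ℕ) : (pre l n).length = n := by
  induction n with
  | zero => rfl
  | succ n ih => simp [pre, ih]

theorem pre_eq (l : ℕ → ℕ) (n : ℕ) : pre l n = ((List.range n).map l).reverse := by
  induction n with
  | zero => rfl
  | succ n ih => simp [pre, ih, List.range_succ]

theorem pre_add (l : ℕ → ℕ) (n m : ℕ) : ∃ ρ, pre l (n + m) = ρ ++ pre l n ∧ ρ.length = m := by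
  induction m with
  | zero => exact ⟨[], rfl, rfl⟩
  | succ m ih =>
    obtain ⟨ρ, h1, h2⟩ := ih
    exact ⟨l (n + m) :: ρ, by rw [← add_assoc]; simp [pre, h1], by simp [h2]⟩

theorem pre_congr {l l' : ℕ → ℕ} {n : ℕ} (h : ∀ i < n, l i = l' i) : pre l n = pre l' n := by
  induction n with
  | zero => rfl
  | succ n ih => rw [pre, pre, ih fun i hi => h i (by omega), h n (by omega)]

theorem pre_inj {l l' : ℕ → ℕ} {n : ℕ} (h : pre l n = pre l' n) : ∀ i < n, l i = l' i := by
  induction n with
  | zero => intro i hi; omega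
  | succ n ih =>
    rw [pre, pre, List.cons.injEq] at h
    intro i hi
    rcases Nat.lt_succ_iff_lt_or_eq.1 hi with h' | rfl
    · exact ih h.2 i h'
    · exact h.1

theorem nxt_mono (a : Code) (τ : List ℕ) : StrictMono (nxt a τ) := fix_mono _

theorem nd_nil (a : Code) : nd a [] = a.1 := rfl

theorem nd_cons (a : Code) (k : ℕ) (τ : List ℕ) : nd a (k :: τ) = nxt a τ k :: nd a τ := rfl

theorem nd_length (a : Code) (τ : List ℕ) : (nd a τ).length = a.1.length + τ.length := by
  induction τ with
  | nil => rfl
  | cons k τ ih => simp [nd_cons, ih, add_assoc]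

theorem nd_inj {a : Code} {τ τ' : List ℕ} (h : nd a τ = nd a τ') : τ = τ' := by
  induction τ generalizing τ' with
  | nil =>
    have := congrArg List.length h
    rw [nd_length, nd_length] at this
    exact (List.length_eq_zero_iff.1 (by simpa using this.symm)).symm
  | cons k τ ih =>
    cases τ' with
    | nil =>
      have := congrArg List.length h
      rw [nd_length, nd_length] at this
      simp at this
    | cons k' τ' =>
      rw [nd_cons, nd_cons, List.cons.injEq] at h
      obtain rfl := ih h.2
      rw [(nxt_mono a τ).injective h.1]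

theorem ix_nd (a : Code) (τ : List ℕ) : ix a (nd a τ) = τ := by
  have h : ∃ τ', nd a τ' = nd a τ := ⟨τ, rfl⟩
  rw [ix, dif_pos h]
  exact nd_inj h.choose_spec

theorem nd_ix {a : Code} {ν : List ℕ} (h : ∃ τ, nd a τ = ν) : nd a (ix a ν) = ν := by
  obtain ⟨τ, rfl⟩ := h
  rw [ix_nd]

theorem nd_append (a : Code) (ρ τ : List ℕ) : ∃ ρ', nd a (ρ ++ τ) = ρ' ++ nd a τ ∧
    ρ'.length = ρ.length := by
  induction ρ with
  | nil => exact ⟨[], rfl, rfl⟩
  | cons k ρ ih =>
    obtain ⟨ρ', h1, h2⟩ := ih
    refine ⟨nxt a (ρ ++ τ) k :: ρ', ?_, by simp [h2]⟩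
    rw [List.cons_append, nd_cons, h1]
    rfl

/-- An end segment of a node which is at least as long as the stem is a node. -/
theorem nd_drop (a : Code) (τ : List ℕ) (k : ℕ) (hk : k ≤ τ.length) :
    (nd a τ).drop k = nd a (τ.drop k) := by
  induction k generalizing τ with
  | zero => rfl
  | succ k ih =>
    cases τ with
    | nil => simp at hk
    | cons m τ =>
      rw [nd_cons, List.drop_succ_cons, List.drop_succ_cons]
      exact ih τ (by simpa using hk)

theorem pre_drop (l : ℕ → ℕ) (n k : ℕ) (hk : k ≤ n) : (pre l n).drop k = pre l (n - k) := by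
  induction k generalizing n with
  | zero => rfl
  | succ k ih =>
    obtain ⟨n, rfl⟩ : ∃ n', n = n' + 1 := ⟨n - 1, by omega⟩
    rw [pre, List.drop_succ_cons, ih n (by omega)]
    congr 1
    omega

theorem br_apply_add (a : Code) (u : ℕ → ℕ) (n : ℕ) :
    br a u (a.1.length + n) = nxt a (pre u n) (u n) := by
  unfold br
  rw [if_neg (by omega)]
  congr 2
  · omega
  · omega

theorem pre_br (a : Code) (u : ℕ → ℕ) (n : ℕ) :
    pre (br a u) (a.1.length + n) = nd a (pre u n) := by
  induction n with
  | zero =>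
    rw [add_zero, pre, nd_nil, pre_eq]
    have : List.map (br a u) (List.range a.1.length) = a.1.reverse := by
      apply List.ext_getElem
      · simp
      · intro i h1 h2
        simp only [List.length_map, List.length_range] at h1
        rw [List.getElem_map, List.getElem_range, br, if_pos h1, List.getD_eq_getElem _ _ h2]
    rw [this, List.reverse_reverse]
  | succ n ih => rw [← add_assoc, pre, ih, br_apply_add, pre, nd_cons]

theorem br_mem (a : Code) (u : ℕ → ℕ) : br a u ∈ Br a := fun n => ⟨_, pre_br a u n⟩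

theorem pre_idx {a : Code} {l : ℕ → ℕ} (h : l ∈ Br a) (n : ℕ) :
    pre l (a.1.length + n) = nd a (pre (idx a l) n) := by
  induction n with
  | zero =>
    obtain ⟨τ, hτ⟩ := h 0
    have := congrArg List.length hτ
    rw [nd_length, pre_length] at this
    obtain rfl := List.length_eq_zero_iff.1 (show τ.length = 0 by omega)
    exact hτ
  | succ n ih =>
    obtain ⟨τ, hτ⟩ := h (n + 1)
    have hl := congrArg List.length hτ
    rw [nd_length, pre_length] at hl
    cases τ with
    | nil => simp at hl
    | cons k τ =>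
      have h1 : idx a l n = k := by rw [idx, hτ, ix_nd]; rfl
      have h2 : τ = pre (idx a l) n := by
        apply nd_inj (a := a)
        rw [← ih]
        rw [← add_assoc, pre, nd_cons, List.cons.injEq] at hτ
        exact hτ.2.symm
      rw [hτ, pre, h1, h2]

theorem br_idx {a : Code} {l : ℕ → ℕ} (h : l ∈ Br a) : br a (idx a l) = l := by
  funext n
  have h1 := pre_idx h (n + 1)
  rw [← pre_br] at h1
  exact (pre_inj h1 n (by omega)).symm

theorem idx_br (a : Code) (u : ℕ → ℕ) : idx a (br a u) = u := by
  funext n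
  have h1 := pre_idx (br_mem a u) (n + 1)
  rw [pre_br] at h1
  exact (pre_inj (nd_inj h1) n (by omega)).symm

theorem mem_Br {a : Code} {l : ℕ → ℕ} : l ∈ Br a ↔ ∃ u, l = br a u :=
  ⟨fun h => ⟨_, (br_idx h).symm⟩, by rintro ⟨u, rfl⟩; exact br_mem a u⟩

theorem mem_Br' {a : Code} {l : ℕ → ℕ} :
    l ∈ Br a ↔ ∃ u : ℕ → ℕ, ∀ n, pre l (a.1.length + n) = nd a (pre u n) :=
  ⟨fun h => ⟨idx a l, pre_idx h⟩, fun ⟨u, hu⟩ n => ⟨_, hu n⟩⟩

theorem nd_comp (a b : Code) (τ : List ℕ) : nd (comp a b) τ = nd a (nd b τ) := by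
  induction τ with
  | nil => rfl
  | cons k τ ih =>
    have h : nxt (comp a b) τ = fun k => nxt a (nd b τ) (nxt b τ k) :=
      fix_eq ((nxt_mono a _).comp (nxt_mono b τ))
    rw [nd_cons, ih, nd_cons b, nd_cons a, h]

theorem nd_cone (τ ρ : List ℕ) : nd (cone τ) ρ = ρ ++ τ := by
  induction ρ with
  | nil => rfl
  | cons k ρ ih =>
    rw [nd_cons, ih]
    have : nxt (cone τ) ρ = fun k => k := fix_eq (fun _ _ h => h)
    rw [this]; rfl

theorem nd_triv (ρ : List ℕ) : nd triv ρ = ρ := by
  have := nd_cone [] ρ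
  rwa [List.append_nil] at this

theorem Br_triv : Br triv = univ := by
  rw [eq_univ_iff_forall]
  exact fun l n => ⟨_, (nd_triv _).symm⟩

/-- Codes with the same nodes have the same branches. -/
theorem Br_congr {a b : Code} (h : ∀ τ, nd a τ = nd b τ) : Br a = Br b := by
  have h0 : a.1 = b.1 := h []
  ext l
  simp only [Br, mem_ofPred_eq, h, h0]

/-- The branches of a composition. -/
theorem Br_comp {a b : Code} {l : ℕ → ℕ} : l ∈ Br (comp a b) ↔ l ∈ Br a ∧ idx a l ∈ Br b := by
  constructor
  · intro h
    obtain ⟨u, hu⟩ := mem_Br'.1 h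
    have key : ∀ n, pre l (a.1.length + (b.1.length + n)) = nd a (nd b (pre u n)) := by
      intro n
      rw [← nd_comp, ← hu n]
      congr 1
      change _ = (nd a b.1).length + n
      rw [nd_length]; omega
    have h1 : l ∈ Br a := by
      intro n
      have h2 := key n
      have h3 := congrArg (List.drop b.1.length) h2
      rw [pre_drop _ _ _ (by omega), nd_drop _ _ _ (by rw [nd_length]; omega)] at h3
      refine ⟨(nd b (pre u n)).drop b.1.length, ?_⟩
      rw [← h3]; congr 1; omega
    refine ⟨h1, fun n => ⟨pre u n, ?_⟩⟩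
    apply nd_inj (a := a)
    rw [← pre_idx h1, key]
  · rintro ⟨h1, h2⟩ n
    obtain ⟨τ, hτ⟩ := h2 n
    refine ⟨τ, ?_⟩
    rw [nd_comp, ← hτ, ← pre_idx h1]
    congr 1
    change (nd a b.1).length + n = _
    rw [nd_length]; omega

theorem Br_comp_subset (a b : Code) : Br (comp a b) ⊆ Br a := fun _ h => (Br_comp.1 h).1

/-- The branches of the part of the tree above a node. -/
theorem mem_Br_cone {τ : List ℕ} {u : ℕ → ℕ} : u ∈ Br (cone τ) ↔ pre u τ.length = τ := by
  constructor
  · intro h
    obtain ⟨ρ, hρ⟩ := h 0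
    have hl := congrArg List.length hρ
    rw [nd_length, pre_length] at hl
    obtain rfl := List.length_eq_zero_iff.1 (show ρ.length = 0 by omega)
    exact hρ
  · intro h n
    obtain ⟨ρ, h1, -⟩ := pre_add u τ.length n
    exact ⟨ρ, by rw [nd_cone]; change pre u (τ.length + n) = _; rw [h1, h]⟩

theorem exists_pre (τ : List ℕ) : ∃ u : ℕ → ℕ, pre u τ.length = τ := by
  refine ⟨fun i => τ.reverse.getD i 0, ?_⟩
  rw [pre_eq]
  have : List.map (fun i => τ.reverse.getD i 0) (List.range τ.length) = τ.reverse := by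
    apply List.ext_getElem
    · simp
    · intro i h1 h2
      rw [List.getElem_map, List.getElem_range, List.getD_eq_getElem _ _ h2]
  rw [this, List.reverse_reverse]

/-- If the branches of `b` are branches of `a`, the nodes of `b` are nodes of `a`. -/
theorem exists_nd {a b : Code} (h : Br b ⊆ Br a) (τ : List ℕ) : ∃ σ, nd a σ = nd b τ := by
  have hlen : a.1.length ≤ b.1.length := by
    by_contra hlt
    push Not at hlt
    have key : ∀ u : ℕ → ℕ, nxt b [] (u 0) = br a (idx a (br b u)) b.1.length := by
      intro u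
      rw [br_idx (h (br_mem b u))]
      exact (br_apply_add b u 0).symm
    have h0 := key fun _ => 0
    have h1 := key fun _ => 1
    unfold br at h0 h1
    rw [if_pos hlt] at h0 h1
    have := nxt_mono b [] (Nat.zero_lt_one)
    omega
  obtain ⟨u, hu⟩ := exists_pre τ
  have h1 := pre_idx (h (br_mem b u)) (b.1.length - a.1.length + τ.length)
  refine ⟨_, h1.symm.trans ?_⟩
  rw [← hu, ← pre_br b u, hu]
  congr 1
  omega

theorem nd_quot' {a b : Code} (h : Br b ⊆ Br a) (τ : List ℕ) :
    nd (quot a b) τ = ix a (nd b τ) := by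
  have key : ∀ τ k, ∃ m, ix a (nd b (k :: τ)) = m :: ix a (nd b τ) ∧
      nxt a (ix a (nd b τ)) m = nxt b τ k := by
    intro τ k
    obtain ⟨σ, hσ⟩ := exists_nd h (k :: τ)
    obtain ⟨σ', hσ'⟩ := exists_nd h τ
    have hlen := congrArg List.length hσ
    have hlen' := congrArg List.length hσ'
    rw [nd_length, nd_length] at hlen hlen'
    rw [← hσ, ← hσ', ix_nd, ix_nd]
    cases σ with
    | nil => simp at hlen; omega
    | cons m σ =>
      rw [nd_cons, nd_cons, List.cons.injEq] at hσ
      have : σ = σ' := nd_inj (hσ.2.trans hσ'.symm)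
      subst this
      exact ⟨m, rfl, hσ.1⟩
  have hfix : ∀ τ, StrictMono fun k => (ix a (nd b (k :: τ))).headD 0 := by
    intro τ k k' hk
    obtain ⟨m, h1, h2⟩ := key τ k
    obtain ⟨m', h1', h2'⟩ := key τ k'
    have := nxt_mono b τ hk
    rw [← h2, ← h2', (nxt_mono a _).lt_iff_lt] at this
    simpa [h1, h1'] using this
  induction τ with
  | nil => rfl
  | cons k τ ih =>
    obtain ⟨m, h1, h2⟩ := key τ k
    have h3 : nxt (quot a b) τ k = (ix a (nd b (k :: τ))).headD 0 := congrFun (fix_eq (hfix τ)) k
    rw [nd_cons, ih, h3, h1]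
    rfl

theorem nd_quot {a b : Code} (h : Br b ⊆ Br a) (τ : List ℕ) :
    nd (comp a (quot a b)) τ = nd b τ := by
  rw [nd_comp, nd_quot' h, nd_ix (exists_nd h τ)]

theorem Br_quot {a b : Code} (h : Br b ⊆ Br a) : Br (comp a (quot a b)) = Br b :=
  Br_congr (nd_quot h)

/-- The nodes of a code with its stem replaced by the empty one. -/
theorem nd_stem (b : Code) (τ : List ℕ) : nd b τ = nd (([] : List ℕ), b.2) τ ++ b.1 := by
  induction τ with
  | nil => rfl
  | cons k τ ih => rw [nd_cons, ih]; rfl

theorem nd_comp_cone (a : Code) (σ : List ℕ) (g : List ℕ → ℕ → ℕ) (τ : List ℕ) :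
    nd (comp (comp a (cone σ)) ([], g)) τ = nd (comp a (σ, g)) τ := by
  rw [nd_comp, nd_comp, nd_comp, nd_cone, nd_stem (σ, g)]

end Pool.Agent.MP_b00c97_gt.Lav
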