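import Pool.Agent.MP_b00c97_gt.Lav.Meas

/-!
# MP_b00c97_gt: conditions of the geometric countable support iteration of Laver forcing
-/

set_option autoImplicit false

open Set MeasureTheory

namespace Pool.Agent.MP_b00c97_gt.Lav

variable {K : Type}

/-- The σ-algebra generated by the coordinates in `I`. -/
@[reducible]
def 𝓑 (I : Set K) : MeasurableSpace (K → ℕ → ℕ) :=
  MeasurableSpace.comap (fun (x : K → ℕ → ℕ) (δ : I) => x δ) MeasurableSpace.pi

theorem meas_coord {I : Set K} {δ : K} (hδ : δ ∈ I) :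
    Measurable[𝓑 I] fun x : K → ℕ → ℕ => x δ := by
  intro A hA
  exact ⟨(fun y : I → ℕ → ℕ => y ⟨δ, hδ⟩) ⁻¹' A, measurable_pi_apply _ hA, rfl⟩

/-- Substitution. -/
theorem meas_subst {Ω β : Type*} {m : MeasurableSpace Ω} [MeasurableSpace β] {I : Set K}
    {f : (K → ℕ → ℕ) → β} (hf : Measurable[𝓑 I] f) {Φ : Ω → K → ℕ → ℕ}
    (hΦ : ∀ δ ∈ I, Measurable[m] fun ω => Φ ω δ) : Measurable[m] fun ω => f (Φ ω) := by
  intro A hA
  obtain ⟨A', hA', hA2⟩ := hf hA
  have : (fun ω => f (Φ ω)) ⁻¹' A = (fun ω (δ : I) => Φ ω δ) ⁻¹' A' := by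
    ext ω
    change Φ ω ∈ f ⁻¹' A ↔ _
    rw [← hA2]; rfl
  rw [this]
  exact measurable_pi_iff.2 (fun δ => hΦ δ.1 δ.2) hA'

theorem 𝓑_mono {I J : Set K} (h : I ⊆ J) : 𝓑 I ≤ 𝓑 J := by
  intro A hA
  obtain ⟨A', hA', rfl⟩ := hA
  exact (@measurable_pi_iff (K → ℕ → ℕ) I (fun _ => ℕ → ℕ) (𝓑 J) _ _).2
    (fun δ : I => meas_coord (h δ.2)) hA'

theorem Meas.mono {β : Type*} [MeasurableSpace β] {I J : Set K} (h : I ⊆ J)
    {f : (K → ℕ → ℕ) → β} (hf : Measurable[𝓑 I] f) : Measurable[𝓑 J] f :=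
  hf.mono (𝓑_mono h) le_rfl

theorem 𝓑_univ : 𝓑 (univ : Set K) = MeasurableSpace.pi := by
  apply le_antisymm
  · rintro _ ⟨A', hA', rfl⟩
    exact measurable_pi_iff.2 (fun δ : (univ : Set K) => measurable_pi_apply δ.1) hA'
  · intro A hA
    have : Measurable[𝓑 (univ : Set K)] (fun x : K → ℕ → ℕ => x) :=
      (@measurable_pi_iff (K → ℕ → ℕ) K (fun _ => ℕ → ℕ) (𝓑 univ) _ _).2
        fun δ => meas_coord (mem_univ δ)
    exact this hA

/-- A measurable event depends only on the coordinates in `I`. -/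
theorem dep_set {I : Set K} {A : Set (K → ℕ → ℕ)} (hA : MeasurableSet[𝓑 I] A)
    {x y : K → ℕ → ℕ} (h : ∀ δ ∈ I, x δ = y δ) : x ∈ A ↔ y ∈ A := by
  obtain ⟨A', -, rfl⟩ := hA
  have : (fun (δ : I) => x δ) = fun (δ : I) => y δ := funext fun δ => h δ.1 δ.2
  simp only [mem_preimage, this]

theorem dep {β : Type*} [MeasurableSpace β] [MeasurableSingletonClass β] {I : Set K}
    {f : (K → ℕ → ℕ) → β} (hf : Measurable[𝓑 I] f) {x y : K → ℕ → ℕ}
    (h : ∀ δ ∈ I, x δ = y δ) : f x = f y :=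
  ((dep_set (hf (measurableSet_singleton (f y))) h).2 rfl : f x = f y)

instance : MeasurableSingletonClass Code := by
  refine ⟨fun a => ?_⟩
  have h : Measurable fun b : Code => b := measurable_id
  refine meas_ev _ (meas_and (P := fun b : Code => b.1 = a.1) (Q := fun b : Code =>
    ∀ τ n, b.2 τ n = a.2 τ n) ((meas_code.1 h).1 _)
    (meas_all fun τ => meas_all fun n => (meas_code.1 h).2 τ n _)) fun b => ?_
  constructor
  · rintro rfl; exact ⟨rfl, fun _ _ => rfl⟩
  · rintro ⟨h1, h2⟩; exact Prod.ext h1 (funext fun τ => funext fun n => h2 τ n)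

variable (K) in
/-- Conditions. -/
structure Cond [LinearOrder K] where
  /-- the code of the tree at each coordinate, as a function of the earlier coordinates -/
  t : K → (K → ℕ → ℕ) → Code
  meas : ∀ γ, Measurable[𝓑 (Iio γ)] (t γ)
  ctbl : {γ | t γ ≠ fun _ => triv}.Countable

variable [LinearOrder K]

namespace Cond

/-- The set of the points in a condition. -/
def body (p : Cond K) : Set (K → ℕ → ℕ) := {x | ∀ γ, x γ ∈ Br (p.t γ x)}

instance : Preorder (Cond K) where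
  le p q := body p ⊆ body q
  le_refl _ := Subset.rfl
  le_trans _ _ _ := Subset.trans

theorem le_def {p q : Cond K} : p ≤ q ↔ p.body ⊆ q.body := Iff.rfl

/-- The support of `p` is contained in `I`. -/
def SuppIn (p : Cond K) (I : Set K) : Prop := ∀ γ, γ ∉ I → p.t γ = fun _ => triv

theorem SuppIn.mono {p : Cond K} {I J : Set K} (h : I ⊆ J) (hp : p.SuppIn I) : p.SuppIn J :=
  fun γ hγ => hp γ fun h' => hγ (h h')

theorem suppIn_univ (p : Cond K) : p.SuppIn univ := fun γ hγ => absurd (mem_univ γ) hγ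

theorem meas_at (p : Cond K) (γ : K) :
    MeasurableSet[𝓑 (Iic γ)] {x | x γ ∈ Br (p.t γ x)} :=
  meas_mem_Br (Meas.mono Iio_subset_Iic_self (p.meas γ)) (meas_coord (mem_Iic.2 le_rfl))

theorem meas_body {p : Cond K} {I : Set K} (hI : IsLowerSet I) (hp : p.SuppIn I) :
    MeasurableSet[𝓑 I] p.body := by
  have h1 : p.body = ⋂ γ ∈ {γ | p.t γ ≠ fun _ => triv}, {x | x γ ∈ Br (p.t γ x)} := by
    ext x
    simp only [body, mem_ofPred_eq, mem_iInter]
    constructor
    · intro h γ _; exact h γ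
    · intro h γ
      by_cases hγ : p.t γ = fun _ => triv
      · rw [hγ, Br_triv]; exact mem_univ _
      · exact h γ hγ
  rw [h1]
  refine MeasurableSet.biInter p.ctbl fun γ hγ => 𝓑_mono ?_ _ (p.meas_at γ)
  have h2 : γ ∈ I := by
    by_contra h
    exact hγ (hp γ h)
  intro δ hδ
  exact hI hδ h2

/-- The largest condition. -/
def one : Cond K := ⟨fun _ _ => triv, fun _ => measurable_const, by simp⟩

theorem body_one : (one : Cond K).body = univ := by
  rw [eq_univ_iff_forall]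
  intro x γ
  change _ ∈ Br triv
  rw [Br_triv]; exact mem_univ _

open Classical in
/-- The condition which agrees with `q` on `J` and, outside of `J`, with `d (j x)`. -/
noncomputable def mix (J : Set K) (hJ : IsLowerSet J) (q : Cond K) (d : ℕ → Cond K)
    (j : (K → ℕ → ℕ) → ℕ) (hj : Measurable[𝓑 J] j) : Cond K where
  t γ := if γ ∈ J then q.t γ else fun x => (d (j x)).t γ x
  meas γ := by
    split_ifs with h
    · exact q.meas γ
    · refine meas_sel (f := j) (g := fun i x => (d i).t γ x) (fun i => 𝓑_mono ?_ _ (meas_eq hj i))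
        fun i => (d i).meas γ
      intro δ hδ
      by_contra hlt
      exact h (hJ (not_lt.1 hlt) hδ)
  ctbl := by
    refine (q.ctbl.union (countable_iUnion fun i => (d i).ctbl)).mono ?_
    intro γ hγ
    simp only [mem_ofPred_eq] at hγ
    split_ifs at hγ with h
    · exact Or.inl hγ
    · right
      rw [mem_iUnion]
      by_contra hcon
      push Not at hcon
      apply hγ
      funext x
      have := hcon (j x)
      simp only [mem_ofPred_eq, not_not] at this
      rw [this]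

/-- The restriction of `p` to a set of coordinates. -/
noncomputable def res (p : Cond K) (J : Set K) : Cond K := by
  classical
  exact
  { t := fun γ => if γ ∈ J then p.t γ else fun _ => triv
    meas := fun γ => by
      split_ifs
      · exact p.meas γ
      · exact measurable_const
    ctbl := by
      refine p.ctbl.mono fun γ hγ => ?_
      simp only [mem_ofPred_eq] at hγ ⊢
      split_ifs at hγ with h
      · exact hγ
      · exact absurd rfl hγ }

theorem res_t (p : Cond K) {J : Set K} {γ : K} (h : γ ∈ J) : (p.res J).t γ = p.t γ := by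
  classical exact if_pos h

theorem res_t' (p : Cond K) {J : Set K} {γ : K} (h : γ ∉ J) : (p.res J).t γ = fun _ => triv := by
  classical exact if_neg h

theorem mem_res {p : Cond K} {J : Set K} {x : K → ℕ → ℕ} :
    x ∈ (p.res J).body ↔ ∀ γ ∈ J, x γ ∈ Br (p.t γ x) := by
  constructor
  · intro h γ hγ
    have := h γ
    rwa [res_t p hγ] at this
  · intro h γ
    by_cases hγ : γ ∈ J
    · rw [res_t p hγ]; exact h γ hγ
    · rw [res_t' p hγ, Br_triv]; exact mem_univ _

theorem suppIn_res (p : Cond K) (J : Set K) : (p.res J).SuppIn J := fun _ h => p.res_t' h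

theorem le_res (p : Cond K) (J : Set K) : p ≤ p.res J := fun _ hx => mem_res.2 fun γ _ => hx γ

theorem body_res_of_suppIn {p : Cond K} {J : Set K} (h : p.SuppIn J) :
    (p.res J).body = p.body := by
  ext x
  rw [mem_res]
  constructor
  · intro hx γ
    by_cases hγ : γ ∈ J
    · exact hx γ hγ
    · rw [h γ hγ, Br_triv]; exact mem_univ _
  · intro hx γ _
    exact hx γ

theorem mem_body_res {p : Cond K} {I J : Set K} {x : K → ℕ → ℕ} (h : I ⊆ J)
    (hx : x ∈ (p.res J).body) : x ∈ (p.res I).body := mem_res.2 fun γ hγ => mem_res.1 hx γ (h hγ)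

theorem mix_t {J : Set K} {hJ : IsLowerSet J} {q : Cond K} {d : ℕ → Cond K}
    {j : (K → ℕ → ℕ) → ℕ} {hj : Measurable[𝓑 J] j} {γ : K} (h : γ ∈ J) :
    (mix J hJ q d j hj).t γ = q.t γ := if_pos h

theorem mix_t' {J : Set K} {hJ : IsLowerSet J} {q : Cond K} {d : ℕ → Cond K}
    {j : (K → ℕ → ℕ) → ℕ} {hj : Measurable[𝓑 J] j} {γ : K} (h : γ ∉ J) :
    (mix J hJ q d j hj).t γ = fun x => (d (j x)).t γ x := if_neg h

theorem mem_mix {J : Set K} {hJ : IsLowerSet J} {q : Cond K} {d : ℕ → Cond K}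
    {j : (K → ℕ → ℕ) → ℕ} {hj : Measurable[𝓑 J] j} {x : K → ℕ → ℕ} :
    x ∈ (mix J hJ q d j hj).body ↔
      (∀ γ ∈ J, x γ ∈ Br (q.t γ x)) ∧ ∀ γ, γ ∉ J → x γ ∈ Br ((d (j x)).t γ x) := by
  constructor
  · intro h
    refine ⟨fun γ hγ => ?_, fun γ hγ => ?_⟩
    · have := h γ
      rwa [mix_t hγ] at this
    · have := h γ
      rwa [mix_t' hγ] at this
  · rintro ⟨h1, h2⟩ γ
    by_cases hγ : γ ∈ J
    · rw [mix_t hγ]; exact h1 γ hγ
    · rw [mix_t' hγ]; exact h2 γ hγ

theorem suppIn_mix {J : Set K} {hJ : IsLowerSet J} {q : Cond K} {d : ℕ → Cond K}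
    {j : (K → ℕ → ℕ) → ℕ} {hj : Measurable[𝓑 J] j} {I : Set K} (hq : q.SuppIn I)
    (hd : ∀ i, (d i).SuppIn I) : (mix J hJ q d j hj).SuppIn I := by
  intro γ hγ
  by_cases h : γ ∈ J
  · rw [mix_t h]; exact hq γ hγ
  · rw [mix_t' h]
    funext x
    rw [hd _ γ hγ]

/-- The condition which agrees with `q` on `J` and with `p` outside of `J`. -/
noncomputable def glue (J : Set K) (hJ : IsLowerSet J) (q p : Cond K) : Cond K :=
  mix J hJ q (fun _ => p) (fun _ => 0) measurable_const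

theorem glue_t {J : Set K} {hJ : IsLowerSet J} {q p : Cond K} {γ : K} (h : γ ∈ J) :
    (glue J hJ q p).t γ = q.t γ := mix_t h

theorem glue_t' {J : Set K} {hJ : IsLowerSet J} {q p : Cond K} {γ : K} (h : γ ∉ J) :
    (glue J hJ q p).t γ = p.t γ := mix_t' h

theorem mem_glue {J : Set K} {hJ : IsLowerSet J} {q p : Cond K} {x : K → ℕ → ℕ} :
    x ∈ (glue J hJ q p).body ↔
      (∀ γ ∈ J, x γ ∈ Br (q.t γ x)) ∧ ∀ γ, γ ∉ J → x γ ∈ Br (p.t γ x) := mem_mix

theorem suppIn_glue {J : Set K} {hJ : IsLowerSet J} {q p : Cond K} {I : Set K}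
    (hq : q.SuppIn I) (hp : p.SuppIn I) : (glue J hJ q p).SuppIn I := suppIn_mix hq fun _ => hp

section

variable [WellFoundedLT K]

open Classical in
/-- Extend a point on the lower set `J` by the branches with the indices `u`. -/
noncomputable def ext (p : Cond K) (J : Set K) (x u : K → ℕ → ℕ) : K → ℕ → ℕ :=
  IsWellFounded.fix (· < ·) fun γ y =>
    if γ ∈ J then x γ else br (p.t γ fun δ => if h : δ < γ then y δ h else 0) (u γ)

theorem ext_of_mem (p : Cond K) {J : Set K} (x u : K → ℕ → ℕ) {γ : K} (h : γ ∈ J) :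
    p.ext J x u γ = x γ := by
  rw [ext, IsWellFounded.fix_eq, if_pos h]

theorem ext_of_notMem (p : Cond K) {J : Set K} (x u : K → ℕ → ℕ) {γ : K} (h : γ ∉ J) :
    p.ext J x u γ = br (p.t γ (p.ext J x u)) (u γ) := by
  rw [ext, IsWellFounded.fix_eq, if_neg h]
  congr 1
  refine dep (p.meas γ) fun δ hδ => ?_
  rw [dif_pos (mem_Iio.1 hδ)]

/-- The extension lemma. -/
theorem exists_ext (p : Cond K) {J : Set K} {x : K → ℕ → ℕ}
    (hJ : IsLowerSet J) (hx : ∀ γ ∈ J, x γ ∈ Br (p.t γ x)) (u : K → ℕ → ℕ) :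
    ∃ y ∈ p.body, (∀ γ ∈ J, y γ = x γ) ∧ ∀ γ, γ ∉ J → y γ = br (p.t γ y) (u γ) := by
  refine ⟨p.ext J x u, fun γ => ?_, fun γ h => p.ext_of_mem x u h,
    fun γ h => p.ext_of_notMem x u h⟩
  by_cases hγ : γ ∈ J
  · have h1 : p.t γ (p.ext J x u) = p.t γ x := dep (p.meas γ) fun δ hδ =>
      p.ext_of_mem x u (hJ (le_of_lt (mem_Iio.1 hδ)) hγ)
    rw [h1, p.ext_of_mem x u hγ]
    exact hx γ hγ
  · rw [p.ext_of_notMem x u hγ]
    exact br_mem _ _

theorem meas_ext {Ω : Type*} {m : MeasurableSpace Ω} (p : Cond K) (J : Set K)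
    {x u : Ω → K → ℕ → ℕ} (hx : ∀ δ ∈ J, Measurable[m] fun ω => x ω δ)
    (hu : ∀ δ, δ ∉ J → Measurable[m] fun ω => u ω δ) (γ : K) :
    Measurable[m] fun ω => p.ext J (x ω) (u ω) γ := by
  induction γ using WellFoundedLT.induction with
  | ind γ ih =>
    by_cases hγ : γ ∈ J
    · simp only [p.ext_of_mem _ _ hγ]; exact hx γ hγ
    · simp only [p.ext_of_notMem _ _ hγ]
      exact meas_br (meas_subst (p.meas γ) fun δ hδ => ih δ hδ) (hu γ hγ)

theorem exists_mem (p : Cond K) : ∃ x, x ∈ p.body := by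
  obtain ⟨y, hy, -⟩ := p.exists_ext (J := ∅) (x := 0) isLowerSet_empty (by simp) 0
  exact ⟨y, hy⟩

theorem res_mono {p q : Cond K} (h : q ≤ p) {J : Set K} (hJ : IsLowerSet J) :
    q.res J ≤ p.res J := by
  intro x hx
  rw [mem_res] at hx ⊢
  intro γ hγ
  obtain ⟨y, hy, hyx, -⟩ := q.exists_ext hJ hx 0
  have h1 := h hy γ
  rw [hyx γ hγ] at h1
  rwa [dep (p.meas γ) (y := x) fun δ hδ => hyx δ (hJ (le_of_lt (mem_Iio.1 hδ)) hγ)] at h1

theorem glue_le {J : Set K} {hJ : IsLowerSet J} {q p : Cond K} (h : q ≤ p.res J) :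
    glue J hJ q p ≤ p := by
  intro x hx
  rw [mem_glue] at hx
  intro γ
  by_cases hγ : γ ∈ J
  · obtain ⟨y, hy, hyx, -⟩ := q.exists_ext hJ hx.1 0
    have h1 := mem_res.1 (h hy) γ hγ
    rw [hyx γ hγ] at h1
    rwa [dep (p.meas γ) (y := x) fun δ hδ => hyx δ (hJ (le_of_lt (mem_Iio.1 hδ)) hγ)] at h1
  · exact hx.2 γ hγ

omit [WellFoundedLT K] in
/-- Restriction of a glued condition. -/
theorem mem_res_glue {J : Set K} {hJ : IsLowerSet J} {q p : Cond K} {x : K → ℕ → ℕ} :
    x ∈ ((glue J hJ q p).res J).body ↔ x ∈ (q.res J).body := by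
  rw [mem_res, mem_res]
  exact forall₂_congr fun γ hγ => by rw [glue_t hγ]

end

end Cond

end Pool.Agent.MP_b00c97_gt.Lav
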