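import Pool.Agent.MP_b00c97_gt.Lav.Cond

/-!
# MP_b00c97_gt: fusion orderings, density, coverings, operators on codes
-/

set_option autoImplicit false

open Set MeasureTheory Filter

namespace Pool.Agent.MP_b00c97_gt.Lav

/-- The finite set of the indices which are frozen at stage `n`. -/
def Sg (n : ℕ) : Set (List ℕ) := {τ | τ.sum + τ.length ≤ n}

theorem Sg_mono {n m : ℕ} (h : n ≤ m) : Sg n ⊆ Sg m := fun _ hτ => le_trans hτ h

theorem nil_mem_Sg (n : ℕ) : ([] : List ℕ) ∈ Sg n := by simp [Sg]

theorem cons_mem_Sg {n k : ℕ} {τ : List ℕ} : k :: τ ∈ Sg n ↔ k + τ.sum + (τ.length + 1) ≤ n := by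
  simp [Sg]

theorem Sg_finite (n : ℕ) : (Sg n).Finite := by
  have h0 : (⋃ i : Fin (n + 1), {l : List (Fin (n + 1)) | l.length = i.1}).Finite :=
    finite_iUnion fun i : Fin (n + 1) => List.finite_length_eq (Fin (n + 1)) i.1
  refine (h0.image (List.map fun i : Fin (n + 1) => (i : ℕ))).subset ?_
  intro τ hτ
  have h1 : τ.length < n + 1 := by have : τ.sum + τ.length ≤ n := hτ; omega
  have h2 : ∀ k ∈ τ, k < n + 1 := fun k hk => by
    have := List.single_le_sum (l := τ) (by simp) k hk
    have h3 : τ.sum + τ.length ≤ n := hτ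
    omega
  refine ⟨τ.pmap (fun k hk => (⟨k, hk⟩ : Fin (n + 1))) h2, mem_iUnion.2 ⟨⟨τ.length, h1⟩, ?_⟩, ?_⟩
  · simp
  · simp [List.map_pmap]

/-- The number of the indices which are frozen at stage `n`. -/
noncomputable def sg (n : ℕ) : ℕ := (Sg_finite n).toFinset.card

/-- The part of a tree above the frozen index `τ`: the nodes above `τ` which do not pass through
another frozen index above `τ`. -/
def tail (n : ℕ) (τ : List ℕ) : Code :=
  (τ, fun ρ k => if ρ = [] then k + (n - (τ.sum + τ.length)) else k)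

/-- The nodes of the tree of the sequences all of whose steps satisfy `P`. -/
noncomputable def filtNd (P : List ℕ → ℕ → Prop) : List ℕ → List ℕ
  | [] => []
  | k :: τ => Nat.nth (P (filtNd P τ)) k :: filtNd P τ

/-- The tree of the sequences all of whose steps satisfy `P`. -/
noncomputable def filt (P : List ℕ → ℕ → Prop) : Code :=
  ([], fun τ k => Nat.nth (P (filtNd P τ)) k)

/-- All steps of `σ` satisfy `P`. -/
def InTree (P : List ℕ → ℕ → Prop) : List ℕ → Prop
  | [] => True
  | k :: τ => P τ k ∧ InTree P τ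

/-- The steps of `glue1`. -/
def glue1P (N : ℕ → Prop) (G : ℕ → Code) (σ : List ℕ) (k : ℕ) : Prop :=
  (σ = [] ∧ N k) ∨ ∃ j ρ, N j ∧ ρ ≠ [] ∧ nd (comp (cone [j]) (G j)) ρ = k :: σ

/-- The tree whose first successors are the `k` with `N k`, and which above `[k]` is `[k]`
followed by the nodes of `G k`. -/
noncomputable def glue1 (N : ℕ → Prop) (G : ℕ → Code) : Code := filt (glue1P N G)

open Classical in
/-- The longest end segment in `Sg n`. -/
noncomputable def root (n : ℕ) : List ℕ → List ℕ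
  | [] => []
  | k :: σ => if k :: σ ∈ Sg n then k :: σ else root n σ

/-- The steps of `glueS`. -/
def glueSP (n : ℕ) (G : List ℕ → Code) (σ : List ℕ) (k : ℕ) : Prop :=
  k :: σ ∈ Sg n ∨ ∃ ρ, nd (comp (tail n (root n σ)) (G (root n σ))) ρ = k :: σ

/-- The tree in which the frozen indices remain, and above the frozen index `τ` the tail is
replaced by its subtree given by `G τ`. -/
noncomputable def glueS (n : ℕ) (G : List ℕ → Code) : Code := filt (glueSP n G)

section

variable {K : Type} [LinearOrder K]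

/-- The relation `q ≤ₙ^F p`. -/
def LeN (n : ℕ) (F : Finset K) (q p : Cond K) : Prop :=
  q ≤ p ∧ ∀ γ ∈ F, ∀ x ∈ q.body, ∀ τ ∈ Sg n, nd (q.t γ x) τ = nd (p.t γ x) τ

/-- `D` is dense below `p` in the set `P_I` of the conditions with support in `I`. -/
def DenseBelow (I : Set K) (p : Cond K) (D : Set (Cond K)) : Prop :=
  ∀ q : Cond K, q.SuppIn I → q ≤ p → ∃ d ∈ D, d.SuppIn I ∧ d ≤ q

/-- `A` is covered by countably many members of `D`. -/
def Cov (A : Set (K → ℕ → ℕ)) (D : Set (Cond K)) : Prop :=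
  ∃ C ⊆ D, C.Countable ∧ ∀ x ∈ A, ∃ d ∈ C, x ∈ d.body

/-- The basic property of `P_I`. -/
def Acc (I : Set K) : Prop :=
  ∀ (F : Finset K) (n : ℕ) (p : Cond K) (D : Set (Cond K)), ↑F ⊆ I → p.SuppIn I →
    DenseBelow I p D → ∃ q : Cond K, q.SuppIn I ∧ LeN n F q p ∧ Cov q.body {d ∈ D | d.SuppIn I}

/-- Measurable events are decided in `P_I`. -/
def ML (I : Set K) : Prop :=
  ∀ (A : Set (K → ℕ → ℕ)) (p : Cond K), MeasurableSet[𝓑 I] A → p.SuppIn I →
    ∃ q : Cond K, q.SuppIn I ∧ q ≤ p ∧ (q.body ⊆ A ∨ Disjoint q.body A)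

open Classical in
/-- The condition which agrees with `q` below `δ`, is `S` at `δ`, and trivial above `δ`. -/
noncomputable def pr (δ : K) (q : Cond K) (S : (K → ℕ → ℕ) → Code)
    (hS : Measurable[𝓑 (Iio δ)] S) : Cond K where
  t γ := if γ < δ then q.t γ else if γ = δ then S else fun _ => triv
  meas γ := by
    split_ifs with h1 h2
    · exact q.meas γ
    · subst h2; exact hS
    · exact measurable_const
  ctbl := by
    refine (q.ctbl.union (countable_singleton δ)).mono ?_
    intro γ hγ
    simp only [mem_ofPred_eq] at hγ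
    split_ifs at hγ with h1 h2
    · exact Or.inl hγ
    · exact Or.inr h2
    · exact absurd rfl hγ

end

end Pool.Agent.MP_b00c97_gt.Lav
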