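import Pool.Agent.MP_b00c97_gt.Lav.Defs
import Pool.Agent.MP_9096b7_lc.Gen
import Pool.Agent.Lib.helper63.Completion

/-!
# MP_b00c97_gt: the Boolean algebra of the conditions, names for reals, the property `LProp`

The names for reals are the functions `F : Ult B → ℕ → ℕ` which are measurable with respect to the
σ-algebra `genM B` of the sets with the Baire property; `∀ᶠ ω in genN B` means: for comeager many
ultrafilters `ω`.
-/

set_option autoImplicit false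

open Set MeasureTheory Filter

namespace Pool.Agent.MP_b00c97_gt.Lav

open Pool.Agent.BVM Pool.Agent.MP9096b7

/-- `em` is a dense embedding of the preorder `P` into the complete Boolean algebra `B`. -/
structure IsEm {P : Type} [Preorder P] {B : Type} [CompleteBooleanAlgebra B] (em : P → B) :
    Prop where
  ne_bot : ∀ p, em p ≠ ⊥
  mono : ∀ p q, p ≤ q → em p ≤ em q
  dense : ∀ b, b ≠ ⊥ → ∃ p, em p ≤ b
  compat : ∀ p q, em p ⊓ em q ≠ ⊥ → ∃ r, r ≤ p ∧ r ≤ q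

/-- The Boolean form of the principle LGP: it holds in the Boolean valued model. -/
def LProp (B : Type) [CompleteBooleanAlgebra B] : Prop :=
  ∀ Op : ℕ → (Ult B → ℕ → ℕ) → (Ult B → ℕ → ℕ) → (Ult B → ℕ → ℕ),
    (∀ i (F G : Ult B → ℕ → ℕ), Measurable[genM B] F → Measurable[genM B] G → Measurable[genM B] (Op i F G)) →
    (∀ i (F G F' G' : Ult B → ℕ → ℕ), Measurable[genM B] F → Measurable[genM B] G → Measurable[genM B] F' →
      Measurable[genM B] G' →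
        ∀ᶠ ω in genN B, F ω = F' ω → G ω = G' ω → Op i F G ω = Op i F' G' ω) →
    ∃ (W : Set (Ult B → ℕ → ℕ)) (l : Ult B → ℕ → ℕ),
      W.Nonempty ∧ (∀ F ∈ W, Measurable[genM B] F) ∧ Measurable[genM B] l ∧
      (∀ ω, StrictMono (l ω)) ∧ (∀ i, ∀ F ∈ W, ∀ G ∈ W, Op i F G ∈ W) ∧
      (∀ F ∈ W, ∀ G : Ult B → ℕ → ℕ, Measurable[genM B] G → (∀ᶠ ω in genN B, F ω = G ω) → G ∈ W) ∧
      (∀ v ∈ W, ∃ s ∈ W, ∀ᶠ ω in genN B, (∀ i, {n | s ω (Nat.pair i n) = 0}.Infinite) ∧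
        ((∀ i, {n | Op 0 v s ω n = 0 ∧ s ω (Nat.pair i n) = 0}.Infinite) →
          ∀ᶠ k in atTop, Op 0 v s ω (l ω k) = 0)) ∧
      (∀ N ∈ W, ∀ h : Ult B → ℕ → ℕ, Measurable[genM B] h → ∃ v ∈ W, ∀ᶠ ω in genN B,
        ∀ᶠ n in atTop, ∀ j < N ω n, h ω (Nat.pair n j) ≠ v ω n) ∧
      (∀ t : Ult B → ℕ → ℕ, Measurable[genM B] t → ∃ g ∈ W, ∀ f ∈ W, ∀ᶠ ω in genN B, ∀ᶠ k in atTop, ∀ n,
        l ω k ≤ n → n ≤ f ω (l ω k) → t ω n ≤ f ω (l ω k) → t ω n ≤ g ω n)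

section

variable {K : Type} [LinearOrder K] {B : Type} [CompleteBooleanAlgebra B]

/-- Countable subsets of `I` are strictly bounded in `I`. -/
def UCof (I : Set K) : Prop :=
  I.Nonempty ∧ ∀ g : ℕ → K, (∀ n, g n ∈ I) → ∃ β ∈ I, ∀ n, g n < β

open Classical in
/-- The generic point. -/
noncomputable def gen (em : Cond K → B) (ω : Ult B) : K → ℕ → ℕ := fun γ n =>
  if h : ∃ k, ω.V (⨆ p : {p : Cond K // ∀ x ∈ p.body, x γ n = k}, em p.1) then Nat.find h else 0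

/-- `F` is a name for a real, given by conditions with support in `I`. -/
def Strict (em : Cond K → B) (I : Set K) (F : Ult B → ℕ → ℕ) : Prop :=
  Measurable[genM B] F ∧ ∀ p : Cond K, p.SuppIn I → ∃ q ≤ p, q.SuppIn I ∧
    ∃ f : (K → ℕ → ℕ) → ℕ → ℕ, Measurable[𝓑 I] f ∧
      ∀ᶠ ω in genN B, ω.V (em q) → F ω = f (gen em ω)

/-- `F` is a name for a real of the intermediate model. -/
def Wk (em : Cond K → B) (I : Set K) (F : Ult B → ℕ → ℕ) : Prop :=
  Measurable[genM B] F ∧ ∀ p : Cond K, ∃ q ≤ p,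
    ∃ f : (K → ℕ → ℕ) → ℕ → ℕ, Measurable[𝓑 I] f ∧
      ∀ᶠ ω in genN B, ω.V (em q) → F ω = f (gen em ω)

end

end Pool.Agent.MP_b00c97_gt.Lav
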