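import Pool.Agent.MP_b00c97_gt.Lav.Defs

/-!
# MP_b00c97_gt: the fusion lemma (block F)
-/

set_option autoImplicit false

open Set MeasureTheory Filter

namespace Pool.Agent.MP_b00c97_gt.Lav

variable {K : Type} [LinearOrder K]

theorem LeN.refl (n : ℕ) (F : Finset K) (p : Cond K) : LeN n F p p :=
  ⟨le_rfl, fun _ _ _ _ _ _ => rfl⟩

theorem LeN.trans {n : ℕ} {F : Finset K} {r q p : Cond K} (h : LeN n F r q) (h' : LeN n F q p) :
    LeN n F r p :=
  ⟨h.1.trans h'.1, fun γ hγ x hx τ hτ => (h.2 γ hγ x hx τ hτ).trans (h'.2 γ hγ x (h.1 hx) τ hτ)⟩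

theorem LeN.mono {n n' : ℕ} {F F' : Finset K} {q p : Cond K} (hn : n ≤ n') (hF : F ⊆ F')
    (h : LeN n' F' q p) : LeN n F q p :=
  ⟨h.1, fun γ hγ x hx τ hτ => h.2 γ (hF hγ) x hx τ (Sg_mono hn hτ)⟩

variable [WellFoundedLT K]

/-- The extension lemma, with the dependence of a code. -/
theorem exists_ext_dep (q : Cond K) {J : Set K} (hJ : IsLowerSet J) {x : K → ℕ → ℕ}
    (hx : ∀ γ ∈ J, x γ ∈ Br (q.t γ x)) :
    ∃ y ∈ q.body, (∀ γ ∈ J, y γ = x γ) ∧
      ∀ (p : Cond K) (γ : K), Iio γ ⊆ J → p.t γ y = p.t γ x := by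
  obtain ⟨y, hy, hyx, -⟩ := q.exists_ext hJ hx 0
  exact ⟨y, hy, hyx, fun p γ hγ => dep (p.meas γ) fun δ hδ => hyx δ (hγ hδ)⟩

theorem LeN.res {n : ℕ} {F : Finset K} {q p : Cond K} (h : LeN n F q p) {J : Set K}
    (hJ : IsLowerSet J) : LeN n F (q.res J) (p.res J) := by
  refine ⟨Cond.res_mono h.1 hJ, fun γ hγ x hx τ hτ => ?_⟩
  by_cases hγJ : γ ∈ J
  · rw [Cond.res_t _ hγJ, Cond.res_t _ hγJ]
    obtain ⟨y, hy, -, hd⟩ := exists_ext_dep q hJ (Cond.mem_res.1 hx)
    have hs : Iio γ ⊆ J := fun δ hδ => hJ (le_of_lt hδ) hγJ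
    have := h.2 γ hγ y hy τ hτ
    rwa [hd q γ hs, hd p γ hs] at this
  · rw [Cond.res_t' _ hγJ, Cond.res_t' _ hγJ]

/-- Gluing: if `q ≤ₙ^F p ↾ J` with support in `J`, then `q ∪ p ↾ Jᶜ ≤ₙ^F p`. -/
theorem LeN.glue {n : ℕ} {F : Finset K} {q p : Cond K} {J : Set K} (hJ : IsLowerSet J)
    (h : LeN n F q (p.res J)) : LeN n F (Cond.glue J hJ q p) p := by
  refine ⟨Cond.glue_le h.1, fun γ hγ x hx τ hτ => ?_⟩
  by_cases hγJ : γ ∈ J
  · rw [Cond.glue_t hγJ]
    obtain ⟨y, hy, -, hd⟩ := exists_ext_dep q hJ (Cond.mem_glue.1 hx).1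
    have hs : Iio γ ⊆ J := fun δ hδ => hJ (le_of_lt hδ) hγJ
    have := h.2 γ hγ y hy τ hτ
    rwa [Cond.res_t _ hγJ, hd q γ hs, hd p γ hs] at this
  · rw [Cond.glue_t' hγJ]

/-- A smaller condition has smaller trees. -/
theorem Br_subset_of_le {q p : Cond K} (h : q ≤ p) {γ : K} {x : K → ℕ → ℕ}
    (hx : ∀ δ < γ, x δ ∈ Br (q.t δ x)) : Br (q.t γ x) ⊆ Br (p.t γ x) := by
  classical
  intro l hl
  have hlow : ∀ (r : Cond K) (δ : K), δ ≤ γ → r.t δ (Function.update x γ l) = r.t δ x := by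
    intro r δ hδ
    refine dep (r.meas δ) fun ε hε => ?_
    rw [Function.update_of_ne (ne_of_lt (lt_of_lt_of_le hε hδ))]
  have h1 : ∀ δ ∈ Iic γ, Function.update x γ l δ ∈ Br (q.t δ (Function.update x γ l)) := by
    intro δ hδ
    rw [hlow q δ hδ]
    rcases eq_or_lt_of_le (mem_Iic.1 hδ) with rfl | hlt
    · rw [Function.update_self]; exact hl
    · rw [Function.update_of_ne (ne_of_lt hlt)]; exact hx δ hlt
  obtain ⟨y, hy, hyx, hd⟩ := exists_ext_dep q (isLowerSet_Iic γ) h1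
  have h2 := h hy γ
  rwa [hyx γ (mem_Iic.2 le_rfl), Function.update_self, hd p γ Iio_subset_Iic_self,
    hlow p γ le_rfl] at h2

/-- Frozen nodes, at points which are only fine below `γ`. -/
theorem LeN.nd_eq {n : ℕ} {F : Finset K} {q p : Cond K} (h : LeN n F q p) {γ : K} (hγ : γ ∈ F)
    {x : K → ℕ → ℕ} (hx : ∀ δ < γ, x δ ∈ Br (q.t δ x)) {τ : List ℕ} (hτ : τ ∈ Sg n) :
    nd (q.t γ x) τ = nd (p.t γ x) τ := by
  obtain ⟨y, hy, -, hd⟩ := exists_ext_dep q (isLowerSet_Iio γ) (x := x) hx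
  have := h.2 γ hγ y hy τ hτ
  rwa [hd q γ Subset.rfl, hd p γ Subset.rfl] at this

section FusionProof

open Classical in
/-- The tree of the fusion at a coordinate which enters at stage `m`. -/
noncomputable def fusCode (p : ℕ → Cond K) (m : ℕ) (γ : K) (x : K → ℕ → ℕ) : Code :=
  (((p m).t γ x).1, fun τ k => nxt ((p (max m (k + τ.sum + (τ.length + 1)))).t γ x) τ k)

open Classical in
/-- The fusion. -/
noncomputable def fus (p : ℕ → Cond K) (F : ℕ → Finset K) : Cond K where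
  t γ := if h : ∃ m, γ ∈ F m then fusCode p (Nat.find h) γ else fun _ => triv
  meas γ := by
    split_ifs with h
    · refine meas_code.2 ⟨fun σ => ?_, fun τ k j => ?_⟩
      · exact (meas_code.1 ((p (Nat.find h)).meas γ)).1 σ
      · exact meas_nxt_eq ((p (max (Nat.find h) (k + τ.sum + (τ.length + 1)))).meas γ) τ k j
    · exact measurable_const
  ctbl := by
    refine (countable_iUnion fun m => (F m).countable_toSet).mono ?_
    intro γ hγ
    simp only [mem_ofPred_eq] at hγ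
    split_ifs at hγ with h
    · exact mem_iUnion.2 (by simpa using h)
    · exact absurd rfl hγ

omit [WellFoundedLT K] in
theorem fus_t {p : ℕ → Cond K} {F : ℕ → Finset K} {γ : K} (h : ∃ m, γ ∈ F m) :
    ∃ m, γ ∈ F m ∧ (∀ n, γ ∈ F n → m ≤ n) ∧ (fus p F).t γ = fusCode p m γ := by
  classical
  refine ⟨Nat.find h, Nat.find_spec h, fun n hn => Nat.find_min' h hn, ?_⟩
  change (if h : ∃ m, γ ∈ F m then fusCode p (Nat.find h) γ else fun _ => triv) = _
  rw [dif_pos h]

omit [WellFoundedLT K] in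
theorem fus_t' {p : ℕ → Cond K} {F : ℕ → Finset K} {γ : K} (h : ¬ ∃ m, γ ∈ F m) :
    (fus p F).t γ = fun _ => triv := by
  classical
  change (if h : ∃ m, γ ∈ F m then fusCode p (Nat.find h) γ else fun _ => triv) = _
  rw [dif_neg h]

variable {p : ℕ → Cond K} {F : ℕ → Finset K}

/-- Nodes are stable. -/
theorem nd_stable (hF : Monotone F) (h : ∀ n, LeN n (F n) (p (n + 1)) (p n)) {γ : K} {m : ℕ}
    (hm : γ ∈ F m) {x : K → ℕ → ℕ} (hx : ∀ n, ∀ δ < γ, x δ ∈ Br ((p n).t δ x)) {n n' : ℕ}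
    (hmn : m ≤ n) (hn : n ≤ n') {τ : List ℕ} (hτ : τ ∈ Sg n) :
    nd ((p n').t γ x) τ = nd ((p n).t γ x) τ := by
  induction n', hn using Nat.le_induction with
  | base => rfl
  | succ n' hn ih =>
    rw [← ih]
    exact (h n').nd_eq (hF (hmn.trans hn) hm) (hx (n' + 1)) (Sg_mono hn hτ)

theorem fusCode_nd (hF : Monotone F) (h : ∀ n, LeN n (F n) (p (n + 1)) (p n)) {γ : K} {m : ℕ}
    (hm : γ ∈ F m) {x : K → ℕ → ℕ} (hx : ∀ n, ∀ δ < γ, x δ ∈ Br ((p n).t δ x)) {N : ℕ}
    (hN : m ≤ N) {τ : List ℕ} (hτ : τ ∈ Sg N) :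
    nd (fusCode p m γ x) τ = nd ((p N).t γ x) τ := by
  induction τ generalizing N with
  | nil => exact (nd_stable hF h hm hx le_rfl hN (nil_mem_Sg m)).symm
  | cons k τ ih =>
    have hst : ∀ k N, m ≤ N → k :: τ ∈ Sg N →
        nd ((p N).t γ x) (k :: τ) =
          nd ((p (max m (k + τ.sum + (τ.length + 1)))).t γ x) (k :: τ) := by
      intro k N hN hk
      exact nd_stable hF h hm hx (le_max_left _ _) (max_le hN (cons_mem_Sg.1 hk))
        (Sg_mono (le_max_right _ _) (cons_mem_Sg.2 le_rfl))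
    have hmono : StrictMono fun k =>
        nxt ((p (max m (k + τ.sum + (τ.length + 1)))).t γ x) τ k := by
      intro k k' hkk
      have h1 := hst k (max m (k' + τ.sum + (τ.length + 1))) (le_max_left _ _)
        (cons_mem_Sg.2 (le_trans (by omega) (le_max_right _ _)))
      rw [nd_cons, nd_cons, List.cons.injEq] at h1
      change nxt _ τ k < nxt _ τ k'
      rw [← h1.1]
      exact nxt_mono _ τ hkk
    have hnxt : nxt (fusCode p m γ x) τ k =
        nxt ((p (max m (k + τ.sum + (τ.length + 1)))).t γ x) τ k := congrFun (fix_eq hmono) k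
    have hτ' : τ ∈ Sg (max m (k + τ.sum + (τ.length + 1))) :=
      Sg_mono (le_max_right _ _) (show τ.sum + τ.length ≤ _ by omega)
    rw [hst k N hN hτ, nd_cons, nd_cons, hnxt, ih (le_max_left _ _) hτ']

theorem fus_mem (hF : Monotone F)
    (hcov : ∀ n γ, ((p n).t γ ≠ fun _ => triv) → ∃ m, γ ∈ F m)
    (h : ∀ n, LeN n (F n) (p (n + 1)) (p n)) (γ : K) :
    ∀ x : K → ℕ → ℕ, (∀ δ ≤ γ, x δ ∈ Br ((fus p F).t δ x)) → ∀ n, x γ ∈ Br ((p n).t γ x) := by
  induction γ using WellFoundedLT.induction with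
  | ind γ ih =>
    intro x hx
    have hx' : ∀ n, ∀ δ < γ, x δ ∈ Br ((p n).t δ x) := fun n δ hδ =>
      ih δ hδ x (fun ε hε => hx ε (hε.trans hδ.le)) n
    by_cases hγ : ∃ m, γ ∈ F m
    swap
    · intro n
      have : (p n).t γ = fun _ => triv := by
        by_contra hne
        exact hγ (hcov n γ hne)
      rw [this, Br_triv]; exact mem_univ _
    obtain ⟨m, hm, -, ht⟩ := fus_t (p := p) hγ
    have hsub : ∀ {n n'}, n ≤ n' → Br ((p n').t γ x) ⊆ Br ((p n).t γ x) := by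
      intro n n' hn
      induction n', hn using Nat.le_induction with
      | base => exact Subset.rfl
      | succ n' hn ih' => exact (Br_subset_of_le (h n').1 (hx' (n' + 1))).trans ih'
    have hxγ := hx γ le_rfl
    rw [ht] at hxγ
    have key : ∀ n, m ≤ n → x γ ∈ Br ((p n).t γ x) := by
      intro n hn
      obtain ⟨u, hu⟩ := mem_Br'.1 hxγ
      have hstem : ((p n).t γ x).1 = (fusCode p m γ x).1 :=
        nd_stable hF h hm hx' le_rfl hn (nil_mem_Sg m)
      intro j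
      rw [hstem, hu j]
      have h1 := fusCode_nd hF h hm hx' (N := max n ((pre u j).sum + (pre u j).length))
        (hn.trans (le_max_left _ _)) (τ := pre u j)
        (show (pre u j).sum + (pre u j).length ≤ _ from le_max_right _ _)
      rw [h1]
      obtain ⟨σ, hσ⟩ := exists_nd (hsub (le_max_left n ((pre u j).sum + (pre u j).length)))
        (pre u j)
      exact ⟨σ, hσ.symm⟩
    intro n
    rcases le_total m n with hmn | hnm
    · exact key n hmn
    · exact hsub hnm (key m le_rfl)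

end FusionProof

/-- The fusion lemma. -/
theorem fusion {I : Set K} (hI : IsLowerSet I) (p : ℕ → Cond K) (F : ℕ → Finset K)
    (hF : Monotone F) (hFI : ∀ n, (F n : Set K) ⊆ I) (hs : ∀ n, (p n).SuppIn I)
    (hcov : ∀ n γ, ((p n).t γ ≠ fun _ => triv) → ∃ m, γ ∈ F m)
    (h : ∀ n, LeN n (F n) (p (n + 1)) (p n)) :
    ∃ q : Cond K, q.SuppIn I ∧ ∀ n, LeN n (F n) q (p n) := by
  refine ⟨fus p F, ?_, fun n => ⟨?_, ?_⟩⟩
  · intro γ hγ
    refine fus_t' ?_
    rintro ⟨m, hm⟩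
    exact hγ (hFI m hm)
  · intro x hx γ
    exact fus_mem hF hcov h γ x (fun δ _ => hx δ) n
  · intro γ hγ x hx τ hτ
    obtain ⟨m, hm, hmin, ht⟩ := fus_t (p := p) (F := F) ⟨n, hγ⟩
    rw [ht]
    exact fusCode_nd hF h hm (fun n δ _ => fus_mem hF hcov h δ x (fun ε _ => hx ε) n)
      (hmin n hγ) hτ

/-- The fusion scheme: requirements `R n`, one for each `n ≥ n₀`, can be met simultaneously. -/
theorem fusion_scheme {I : Set K} (hI : IsLowerSet I) (F₀ : Finset K) (hF₀ : (F₀ : Set K) ⊆ I)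
    (n₀ : ℕ) (p₀ : Cond K) (hp₀ : p₀.SuppIn I) (R : ℕ → Finset K → Cond K → Prop)
    (hmono : ∀ (n : ℕ) (F : Finset K) (p q : Cond K), LeN n F q p → R n F p → R n F q)
    (hstep : ∀ (n : ℕ) (F : Finset K) (p : Cond K), n₀ ≤ n → F₀ ⊆ F → (F : Set K) ⊆ I →
      F.card ≤ F₀.card + n → p.SuppIn I → LeN n₀ F₀ p p₀ →
        ∃ q : Cond K, q.SuppIn I ∧ LeN n F q p ∧ R n F q) :
    ∃ q : Cond K, q.SuppIn I ∧ LeN n₀ F₀ q p₀ ∧
      ∀ n, n₀ ≤ n → ∃ F : Finset K, F₀ ⊆ F ∧ (F : Set K) ⊆ I ∧ F.card ≤ F₀.card + n ∧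
        R n F q := by
  classical
  -- enumeration of the supports
  have he : ∀ p : Cond K, ∃ e : ℕ → Option K, (∀ i γ, e i = some γ → p.t γ ≠ fun _ => triv) ∧
      ∀ γ, (p.t γ ≠ fun _ => triv) → ∃ i, e i = some γ := by
    intro p
    have := p.ctbl.toEncodable
    refine ⟨fun i => (Encodable.decode (α := {γ | p.t γ ≠ fun _ => triv}) i).map Subtype.val,
      ?_, ?_⟩
    · intro i γ hi
      rw [Option.map_eq_some_iff] at hi
      obtain ⟨a, -, rfl⟩ := hi
      exact a.2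
    · intro γ hγ
      refine ⟨Encodable.encode (⟨γ, hγ⟩ : {γ | p.t γ ≠ fun _ => triv}), ?_⟩
      simp
  choose e he1 he2 using he
  -- one step
  have hnext : ∀ (n : ℕ) (F : Finset K) (p : Cond K), ∃ q : Cond K, (n₀ ≤ n → F₀ ⊆ F →
      (F : Set K) ⊆ I → F.card ≤ F₀.card + n → p.SuppIn I → LeN n₀ F₀ p p₀ →
        q.SuppIn I ∧ LeN n F q p ∧ R n F q) := by
    intro n F p
    by_cases hall : n₀ ≤ n ∧ F₀ ⊆ F ∧ (F : Set K) ⊆ I ∧ F.card ≤ F₀.card + n ∧ p.SuppIn I ∧
        LeN n₀ F₀ p p₀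
    · obtain ⟨h1, h2, h3, h4, h5, h6⟩ := hall
      obtain ⟨q, hq⟩ := hstep n F p h1 h2 h3 h4 h5 h6
      exact ⟨q, fun _ _ _ _ _ _ => hq⟩
    · exact ⟨p, fun h1 h2 h3 h4 h5 h6 => absurd ⟨h1, h2, h3, h4, h5, h6⟩ hall⟩
  choose nx hnx using hnext
  -- the recursion; the state is the history and the current finite set
  let S : ℕ → (ℕ → Cond K) × Finset K := fun j => Nat.rec (fun _ => p₀, F₀)
    (fun j s => (Function.update s.1 (j + 1) (nx (n₀ + j) s.2 (s.1 j)),
      s.2 ∪ (e (s.1 (Nat.unpair j).1) (Nat.unpair j).2).toFinset)) j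
  have hS0 : S 0 = (fun _ => p₀, F₀) := rfl
  have hS1 : ∀ j, S (j + 1) = (Function.update (S j).1 (j + 1) (nx (n₀ + j) (S j).2 ((S j).1 j)),
      (S j).2 ∪ (e ((S j).1 (Nat.unpair j).1) (Nat.unpair j).2).toFinset) := fun _ => rfl
  set P : ℕ → Cond K := fun j => (S j).1 j with hP
  set G : ℕ → Finset K := fun j => (S j).2 with hG
  have hhist : ∀ j i, i ≤ j → (S j).1 i = P i := by
    intro j
    induction j with
    | zero => intro i hi; obtain rfl := Nat.le_zero.1 hi; rfl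
    | succ j ih =>
      intro i hi
      rcases Nat.lt_or_ge i (j + 1) with hlt | hge
      · rw [← ih i (by omega), hS1]
        exact Function.update_of_ne (by omega) _ _
      · obtain rfl : i = j + 1 := by omega
        rfl
  have hP0 : P 0 = p₀ := rfl
  have hP1 : ∀ j, P (j + 1) = nx (n₀ + j) (G j) (P j) := by
    intro j
    change (S (j + 1)).1 (j + 1) = _
    rw [hS1]
    exact Function.update_self _ _ _
  have hG0 : G 0 = F₀ := rfl
  have hG1 : ∀ j, G (j + 1) = G j ∪ (e (P (Nat.unpair j).1) (Nat.unpair j).2).toFinset := by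
    intro j
    change (S (j + 1)).2 = _
    rw [hS1, hhist j _ (Nat.unpair_left_le j)]
  have hGmono : Monotone G := by
    refine monotone_nat_of_le_succ fun j => ?_
    rw [hG1]; exact Finset.subset_union_left
  have hGF : ∀ j, F₀ ⊆ G j := fun j => by
    have := hGmono (Nat.zero_le j)
    rwa [hG0] at this
  have hcard : ∀ j, (G j).card ≤ F₀.card + j := by
    intro j
    induction j with
    | zero => rw [hG0]; omega
    | succ j ih =>
      rw [hG1]
      refine (Finset.card_union_le _ _).trans ?_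
      have : (e (P (Nat.unpair j).1) (Nat.unpair j).2).toFinset.card ≤ 1 := by
        cases e (P (Nat.unpair j).1) (Nat.unpair j).2 <;> simp
      omega
  -- invariants
  have hinv : ∀ j, (∀ i ≤ j, (P i).SuppIn I) ∧ LeN n₀ F₀ (P j) p₀ ∧ (G j : Set K) ⊆ I := by
    intro j
    induction j with
    | zero =>
      refine ⟨fun i hi => ?_, ?_, ?_⟩
      · obtain rfl := Nat.le_zero.1 hi; exact hp₀
      · exact LeN.refl _ _ _
      · rw [hG0]; exact hF₀
    | succ j ih =>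
      obtain ⟨ih1, ih2, ih3⟩ := ih
      have hq := hnx (n₀ + j) (G j) (P j) (Nat.le_add_right _ _) (hGF j) ih3
        ((hcard j).trans (by omega)) (ih1 j le_rfl) ih2
      rw [← hP1] at hq
      refine ⟨fun i hi => ?_, ?_, ?_⟩
      · rcases Nat.lt_or_ge i (j + 1) with hlt | hge
        · exact ih1 i (by omega)
        · obtain rfl : i = j + 1 := by omega
          exact hq.1
      · exact (hq.2.1.mono (Nat.le_add_right _ _) (hGF j)).trans ih2
      · rw [hG1, Finset.coe_union]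
        refine union_subset ih3 fun γ hγ => ?_
        have hγ' : e (P (Nat.unpair j).1) (Nat.unpair j).2 = some γ := by
          simpa using hγ
        have h1 := he1 _ _ _ hγ'
        by_contra hcon
        exact h1 (ih1 _ (Nat.unpair_left_le j) γ hcon)
  have hq : ∀ j, (P (j + 1)).SuppIn I ∧ LeN (n₀ + j) (G j) (P (j + 1)) (P j) ∧
      R (n₀ + j) (G j) (P (j + 1)) := by
    intro j
    obtain ⟨ih1, ih2, ih3⟩ := hinv j
    have hq := hnx (n₀ + j) (G j) (P j) (Nat.le_add_right _ _) (hGF j) ih3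
      ((hcard j).trans (by omega)) (ih1 j le_rfl) ih2
    rwa [← hP1] at hq
  -- the fusion
  obtain ⟨q, hqI, hqn⟩ := fusion hI (fun n => P (n - n₀)) (fun n => G (n - n₀))
    (fun a b hab => hGmono (Nat.sub_le_sub_right hab n₀)) (fun n => (hinv (n - n₀)).2.2)
    (fun n => (hinv (n - n₀)).1 _ le_rfl)
    (fun n γ hγ => by
      obtain ⟨i, hi⟩ := he2 _ γ hγ
      refine ⟨n₀ + (Nat.pair (n - n₀) i + 1), ?_⟩
      have : n₀ + (Nat.pair (n - n₀) i + 1) - n₀ = Nat.pair (n - n₀) i + 1 := by omega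
      change γ ∈ G (n₀ + (Nat.pair (n - n₀) i + 1) - n₀)
      rw [this, hG1, Nat.unpair_pair]
      refine Finset.mem_union_right _ ?_
      simp only [hi, Option.toFinset_some, Finset.mem_singleton])
    (fun n => by
      rcases Nat.lt_or_ge n n₀ with hlt | hge
      · have h1 : n + 1 - n₀ = 0 := by omega
        have h2 : n - n₀ = 0 := by omega
        change LeN n (G (n - n₀)) (P (n + 1 - n₀)) (P (n - n₀))
        rw [h1, h2]
        exact LeN.refl _ _ _
      · have h1 : n + 1 - n₀ = (n - n₀) + 1 := by omega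
        have h2 := (hq (n - n₀)).2.1
        rw [show n₀ + (n - n₀) = n by omega] at h2
        change LeN n (G (n - n₀)) (P (n + 1 - n₀)) (P (n - n₀))
        rwa [h1])
  refine ⟨q, hqI, ?_, fun n hn => ⟨G (n - n₀), hGF _, (hinv _).2.2,
    (hcard _).trans (by omega), ?_⟩⟩
  · have h1 := hqn n₀
    simp only [Nat.sub_self] at h1
    exact h1
  · have h1 := (hq (n - n₀)).2.2
    rw [show n₀ + (n - n₀) = n by omega] at h1
    refine hmono _ _ _ _ ?_ h1
    have h2 := hqn (n + 1)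
    have h3 : n + 1 - n₀ = (n - n₀) + 1 := by omega
    simp only [h3] at h2
    exact h2.mono (Nat.le_succ n) (hGmono (Nat.le_succ _))

end Pool.Agent.MP_b00c97_gt.Lav
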