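import Pool.Agent.MP_b00c97_gt.Lav.Defs2

/-!
# MP_b00c97_gt, part P', Block W1: localisation and mixing
-/

set_option autoImplicit false

open Set MeasureTheory Filter

namespace Pool.Agent.MP_b00c97_gt.Lav

open Pool.Agent.BVM Pool.Agent.MP9096b7

section W1

variable {P : Type} [Preorder P] {B : Type} [CompleteBooleanAlgebra B] {em : P → B}

/-- Every cover of `⊤` has a disjoint refinement, so that a countable family of comeager conditions
can be glued. -/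
theorem gen_local {ι : Type*} (b : ι → B) (hb : ⨆ i, b i = ⊤) {Q : Ult B → Prop}
    (h : ∀ i, ∀ᶠ ω in genN B, ω.V (b i) → Q ω) : ∀ᶠ ω in genN B, Q ω := by
  classical
  have h1 : ∀ i, ∃ D : ℕ → Set B, (∀ n, sSup (D n) = ⊤) ∧
      ∀ ω : Ult B, (∀ n, ∃ d ∈ D n, ω.V d) → (ω.V (b i) → Q ω) := fun i => mem_genN.1 (h i)
  choose D hD hD' using h1
  let r : ι → ι → Prop := WellOrderingRel
  have hwf : WellFounded r := WellOrderingRel.isWellOrder.wf
  let c : ι → B := fun i => b i ⊓ (⨆ j : {j // r j i}, b j.1)ᶜ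
  have hcb : ∀ i, c i ≤ b i := fun i => inf_le_left
  have hbc : ∀ i, b i ≤ ⨆ i, c i := by
    intro i
    induction i using hwf.induction with
    | _ i ih =>
      have h2 : b i ≤ c i ⊔ ⨆ j : {j // r j i}, b j.1 := by
        have h3 : c i ⊔ (⨆ j : {j // r j i}, b j.1) = b i ⊔ ⨆ j : {j // r j i}, b j.1 := by
          show b i ⊓ (⨆ j : {j // r j i}, b j.1)ᶜ ⊔ (⨆ j : {j // r j i}, b j.1) = _
          rw [sup_inf_right, compl_sup_eq_top, inf_top_eq]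
        rw [h3]; exact le_sup_left
      exact h2.trans (sup_le (le_iSup c i) (iSup_le fun j => ih j.1 j.2))
  have hctop : ⨆ i, c i = ⊤ := by
    rw [eq_top_iff, ← hb]
    exact iSup_le hbc
  have hdisj : ∀ (ω : Ult B) i j, ω.V (c i) → ω.V (c j) → i = j := by
    have key : ∀ (ω : Ult B) i j, r i j → ω.V (c i) → ω.V (c j) → False := by
      intro ω i j hij hi hj
      have h4 : ω.V ((⨆ l : {l // r l j}, b l.1)ᶜ) := ω.mono inf_le_right hj
      rw [ω.compl'] at h4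
      exact h4 (ω.mono (le_iSup (fun l : {l // r l j} => b l.1) ⟨i, hij⟩) (ω.mono (hcb i) hi))
    intro ω i j hi hj
    rcases trichotomous_of WellOrderingRel i j with h5 | h5 | h5
    · exact (key ω i j h5 hi hj).elim
    · exact h5
    · exact (key ω j i h5 hj hi).elim
  refine mem_genN.2 ⟨fun n => {x | ∃ i, ∃ d ∈ D i n, x = c i ⊓ d}, fun n => ?_, fun ω hω => ?_⟩
  · rw [eq_top_iff, ← hctop]
    refine iSup_le fun i => ?_
    have h6 : c i = ⨆ d ∈ D i n, c i ⊓ d := by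
      rw [← inf_sSup_eq, hD, inf_top_eq]
    rw [h6]
    exact iSup₂_le fun d hd => le_sSup ⟨i, d, hd, rfl⟩
  · have h7 : ∀ n, ∃ i, ∃ d ∈ D i n, ω.V (c i) ∧ ω.V d := by
      intro n
      obtain ⟨x, ⟨i, d, hd, rfl⟩, hx⟩ := hω n
      rw [ω.inf'] at hx
      exact ⟨i, d, hd, hx.1, hx.2⟩
    obtain ⟨i, -, -, hi, -⟩ := h7 0
    refine hD' i ω (fun n => ?_) (ω.mono (hcb i) hi)
    obtain ⟨j, d, hd, hj, hd'⟩ := h7 n
    obtain rfl := hdisj ω i j hi hj
    exact ⟨d, hd, hd'⟩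

/-- If `b` meets `em p`, then some `q ≤ p` is below `b`. -/
theorem IsEm.exists_le (he : IsEm em) {p : P} {b : B} (h : em p ⊓ b ≠ ⊥) :
    ∃ q ≤ p, em q ≤ b := by
  obtain ⟨q₀, hq₀⟩ := he.dense _ h
  have h1 : em q₀ ⊓ em p ≠ ⊥ := by
    rw [inf_eq_left.2 (hq₀.trans inf_le_left)]
    exact he.ne_bot q₀
  obtain ⟨r, hr1, hr2⟩ := he.compat _ _ h1
  exact ⟨r, hr2, (he.mono _ _ hr1).trans (hq₀.trans inf_le_right)⟩

/-- If `b` does not contain `em p`, some `q ≤ p` is disjoint from `b`. -/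
theorem IsEm.exists_disjoint (he : IsEm em) {p : P} {b : B} (h : ¬ em p ≤ b) :
    ∃ q ≤ p, ∀ ω : Ult B, ω.V (em q) → ¬ ω.V b := by
  have h1 : em p ⊓ bᶜ ≠ ⊥ := by
    intro h0
    apply h
    exact (le_compl_iff_disjoint_right.2 (disjoint_iff.2 h0)).trans (compl_compl b).le
  obtain ⟨q, hq, hq'⟩ := he.exists_le h1
  refine ⟨q, hq, fun ω hω => ?_⟩
  have := ω.mono hq' hω
  rwa [ω.compl'] at this

theorem gen_dense (he : IsEm em) (p : P) {Q : Ult B → Prop}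
    (h : ∀ q ≤ p, ∃ r ≤ q, ∀ᶠ ω in genN B, ω.V (em r) → Q ω) :
    ∀ᶠ ω in genN B, ω.V (em p) → Q ω := by
  let b : Option {r : P // ∀ᶠ ω in genN B, ω.V (em r) → Q ω} → B := fun o =>
    match o with
    | none => (em p)ᶜ
    | some r => em r.1
  refine gen_local b ?_ ?_
  · by_contra hne
    have h1 : (⨆ i, b i)ᶜ ≠ ⊥ := by
      intro h0
      exact hne (compl_eq_bot.1 h0)
    have h2 : (⨆ i, b i)ᶜ ≤ em p := by
      have h3 : (em p)ᶜ ≤ ⨆ i, b i := le_iSup b none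
      exact (compl_le_compl h3).trans (compl_compl _).le
    have h3 : em p ⊓ (⨆ i, b i)ᶜ ≠ ⊥ := by
      rw [inf_eq_right.2 h2]; exact h1
    obtain ⟨q, hq, hq'⟩ := he.exists_le h3
    obtain ⟨r, hr, hr'⟩ := h q hq
    have h4 : em r ≤ ⨆ i, b i := le_iSup b (some ⟨r, hr'⟩)
    have h5 : em r ≤ (⨆ i, b i)ᶜ := (he.mono _ _ hr).trans hq'
    exact he.ne_bot r (disjoint_self.1 ((disjoint_compl_right).mono h4 h5))
  · intro o
    rcases o with _ | r
    · refine Eventually.of_forall fun ω hω hp => ?_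
      have h6 : ω.V (em p)ᶜ := hω
      rw [ω.compl'] at h6
      exact (h6 hp).elim
    · filter_upwards [r.2] with ω hω h7 _
      exact hω h7

theorem gen_dense' (he : IsEm em) {Q : Ult B → Prop}
    (h : ∀ q, ∃ r ≤ q, ∀ᶠ ω in genN B, ω.V (em r) → Q ω) : ∀ᶠ ω in genN B, Q ω := by
  let b : {r : P // ∀ᶠ ω in genN B, ω.V (em r) → Q ω} → B := fun r => em r.1
  refine gen_local b ?_ fun r => r.2
  by_contra hne
  have h1 : (⨆ i, b i)ᶜ ≠ ⊥ := fun h0 => hne (compl_eq_bot.1 h0)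
  obtain ⟨q, hq⟩ := he.dense _ h1
  obtain ⟨r, hr, hr'⟩ := h q
  have h4 : em r ≤ ⨆ i, b i := le_iSup b ⟨r, hr'⟩
  have h5 : em r ≤ (⨆ i, b i)ᶜ := (he.mono _ _ hr).trans hq
  exact he.ne_bot r (disjoint_self.1 ((disjoint_compl_right).mono h4 h5))

/-- A maximal antichain inside a dense set of conditions. -/
theorem loc_exists_antichain (he : IsEm em) (S : Set P) (hS : ∀ p, ∃ q ≤ p, q ∈ S) :
    ∃ A : Set P, A ⊆ S ∧ (∀ q ∈ A, ∀ q' ∈ A, q ≠ q' → em q ⊓ em q' = ⊥) ∧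
      ∀ p, ∃ q ≤ p, ∃ q' ∈ A, q ≤ q' := by
  let T : Set (Set P) := {A | A ⊆ S ∧ ∀ q ∈ A, ∀ q' ∈ A, q ≠ q' → em q ⊓ em q' = ⊥}
  obtain ⟨A, hA⟩ : ∃ A, Maximal (· ∈ T) A := by
    refine zorn_subset T ?_
    intro c hc hchain
    refine ⟨⋃₀ c, ⟨?_, ?_⟩, fun s hs => subset_sUnion_of_mem hs⟩
    · exact sUnion_subset fun s hs => (hc hs).1
    · rintro q ⟨s, hs, hq⟩ q' ⟨s', hs', hq'⟩ hne
      rcases hchain.total hs hs' with h1 | h1
      · exact (hc hs').2 q (h1 hq) q' hq' hne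
      · exact (hc hs).2 q hq q' (h1 hq') hne
  refine ⟨A, hA.prop.1, hA.prop.2, fun p => ?_⟩
  obtain ⟨r, hr, hrS⟩ := hS p
  by_cases hex : ∃ q' ∈ A, em r ⊓ em q' ≠ ⊥
  · obtain ⟨q', hq', h2⟩ := hex
    obtain ⟨q, hq1, hq2⟩ := he.compat _ _ h2
    exact ⟨q, hq1.trans hr, q', hq', hq2⟩
  · push Not at hex
    have h3 : insert r A ∈ T := by
      refine ⟨insert_subset hrS hA.prop.1, ?_⟩
      rintro q (rfl | hq) q' (rfl | hq') hne
      · exact (hne rfl).elim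
      · exact hex q' hq'
      · rw [inf_comm]; exact hex q hq
      · exact hA.prop.2 q hq q' hq' hne
    have h4 : insert r A ⊆ A := hA.le_of_ge h3 (subset_insert r A)
    have h5 : r ∈ A := h4 (mem_insert r A)
    exact ⟨r, hr, r, h5, le_rfl⟩

/-- The mixing lemma. -/
theorem gen_mix (he : IsEm em) (R : P → (Ult B → ℕ → ℕ) → Prop)
    (h : ∀ p, ∃ q ≤ p, ∃ F : Ult B → ℕ → ℕ, Measurable[genM B] F ∧ R q F) :
    ∃ F : Ult B → ℕ → ℕ, Measurable[genM B] F ∧ ∀ p, ∃ q ≤ p, ∃ q' F', q ≤ q' ∧ R q' F' ∧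
      ∀ᶠ ω in genN B, ω.V (em q') → F ω = F' ω := by
  classical
  obtain ⟨A, hAS, hAd, hAp⟩ := loc_exists_antichain he
    {q | ∃ F : Ult B → ℕ → ℕ, Measurable[genM B] F ∧ R q F} h
  have h1 : ∀ q : A, ∃ F : Ult B → ℕ → ℕ, Measurable[genM B] F ∧ R q.1 F := fun q => hAS q.2
  choose G hGm hGR using h1
  have huniq : ∀ (ω : Ult B) (q q' : A), ω.V (em q.1) → ω.V (em q'.1) → q = q' := by
    intro ω q q' h2 h3
    by_contra hne
    have h4 := hAd q.1 q.2 q'.1 q'.2 (fun h5 => hne (Subtype.ext h5))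
    have h5 : ω.V (em q.1 ⊓ em q'.1) := (ω.inf' _ _).2 ⟨h2, h3⟩
    rw [h4] at h5
    exact ω.bot h5
  let F : Ult B → ℕ → ℕ := fun ω => if hω : ∃ q : A, ω.V (em q.1) then G hω.choose ω else 0
  have hF : ∀ (ω : Ult B) (q : A), ω.V (em q.1) → F ω = G q ω := by
    intro ω q hq
    have hω : ∃ q : A, ω.V (em q.1) := ⟨q, hq⟩
    show (if hω : ∃ q : A, ω.V (em q.1) then G hω.choose ω else 0) = _
    rw [dif_pos hω, huniq ω _ q hω.choose_spec hq]
  have htop : ⨆ q : A, em q.1 = ⊤ := by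
    by_contra hne
    have h1 : (⨆ q : A, em q.1)ᶜ ≠ ⊥ := fun h0 => hne (compl_eq_bot.1 h0)
    obtain ⟨p, hp⟩ := he.dense _ h1
    obtain ⟨q, hq, q', hq', hqq'⟩ := hAp p
    have h4 : em q ≤ ⨆ q : A, em q.1 := (he.mono _ _ hqq').trans (le_iSup (fun q : A => em q.1) ⟨q', hq'⟩)
    have h5 : em q ≤ (⨆ q : A, em q.1)ᶜ := (he.mono _ _ hq).trans hp
    exact he.ne_bot q (disjoint_self.1 ((disjoint_compl_right).mono h4 h5))
  refine ⟨F, ?_, ?_⟩
  · let _ : MeasurableSpace (Ult B) := genM B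
    refine measurable_pi_iff.2 fun n => measurable_to_countable' fun k => ?_
    have h2 : ∀ q : A, ∃ b : B, ∀ᶠ ω in genN B, (G q ω n = k ↔ ω.V b) := by
      intro q
      have h3 : MeasurableSet[genM B] {ω | G q ω n = k} :=
        (measurable_pi_iff.1 (hGm q) n) (measurableSet_singleton k)
      exact genM_iff.1 h3
    choose b hb using h2
    refine genM_iff.2 ⟨⨆ q : A, em q.1 ⊓ b q, ?_⟩
    refine gen_local (fun q : A => em q.1) htop fun q => ?_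
    filter_upwards [hb q, gen_iSup fun q : A => em q.1 ⊓ b q] with ω h4 h5 h6
    show F ω n = k ↔ _
    rw [hF ω q h6, h4, h5]
    constructor
    · intro h7
      exact ⟨q, (ω.inf' _ _).2 ⟨h6, h7⟩⟩
    · rintro ⟨q', h7⟩
      rw [ω.inf'] at h7
      rw [huniq ω q q' h6 h7.1]
      exact h7.2
  · intro p
    obtain ⟨q, hq, q', hq', hqq'⟩ := hAp p
    exact ⟨q, hq, q', G ⟨q', hq'⟩, hqq', hGR ⟨q', hq'⟩,
      Eventually.of_forall fun ω hω => hF ω ⟨q', hq'⟩ hω⟩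

end W1

end Pool.Agent.MP_b00c97_gt.Lav
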