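import Pool.Agent.MP_b00c97_gt.Lav.Code

/-!
# MP_b00c97_gt: measurability of the operations on codes
-/

set_option autoImplicit false

open Set MeasureTheory

namespace Pool.Agent.MP_b00c97_gt.Lav

instance : MeasurableSpace (List ℕ) := ⊤

instance : DiscreteMeasurableSpace (List ℕ) := ⟨fun _ => trivial⟩

variable {Ω : Type*} {m : MeasurableSpace Ω}

/-- Countable case distinctions are measurable. -/
theorem meas_sel {ι β : Type*} [Countable ι] [MeasurableSpace β] {f : Ω → ι}
    (hf : ∀ i, MeasurableSet[m] {ω | f ω = i}) {g : ι → Ω → β} (hg : ∀ i, Measurable[m] (g i)) :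
    Measurable[m] fun ω => g (f ω) ω := by
  intro A hA
  have : (fun ω => g (f ω) ω) ⁻¹' A = ⋃ i, {ω | f ω = i} ∩ (g i) ⁻¹' A := by
    ext ω; simp
  rw [this]
  exact MeasurableSet.iUnion fun i => (hf i).inter (hg i hA)

theorem meas_sel_set {ι : Type*} [Countable ι] {f : Ω → ι}
    (hf : ∀ i, MeasurableSet[m] {ω | f ω = i}) {P : ι → Ω → Prop}
    (hg : ∀ i, MeasurableSet[m] {ω | P i ω}) : MeasurableSet[m] {ω | P (f ω) ω} := by
  have : {ω | P (f ω) ω} = ⋃ i, {ω | f ω = i} ∩ {ω | P i ω} := by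
    ext ω; simp
  rw [this]
  exact MeasurableSet.iUnion fun i => (hf i).inter (hg i)

/-- Countably valued functions on countable data. -/
theorem meas_fun {ι β : Type*} [Countable ι] [MeasurableSpace β] {f : Ω → ι}
    (hf : ∀ i, MeasurableSet[m] {ω | f ω = i}) (g : ι → β) : Measurable[m] fun ω => g (f ω) :=
  meas_sel (g := fun i _ => g i) hf fun _ => measurable_const

theorem meas_eq {ι : Type*} [Countable ι] [MeasurableSpace ι] [DiscreteMeasurableSpace ι]
    {f : Ω → ι} (hf : Measurable[m] f) (i : ι) : MeasurableSet[m] {ω | f ω = i} :=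
  hf (MeasurableSet.of_discrete (s := {i}))

theorem meas_of_eq {ι : Type*} [Countable ι] [MeasurableSpace ι]
    {f : Ω → ι} (hf : ∀ i, MeasurableSet[m] {ω | f ω = i}) : Measurable[m] f := by
  intro A _
  have : f ⁻¹' A = ⋃ i ∈ A, {ω | f ω = i} := by ext ω; simp
  rw [this]
  exact MeasurableSet.biUnion A.to_countable fun i _ => hf i

theorem meas_real {f : Ω → ℕ → ℕ} : Measurable[m] f ↔ ∀ n k, MeasurableSet[m] {ω | f ω n = k} := by
  constructor
  · intro h n k
    exact meas_eq ((measurable_pi_apply n).comp h) k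
  · intro h
    exact measurable_pi_iff.2 fun n => meas_of_eq (h n)

theorem meas_succ {f : Ω → List ℕ → ℕ → ℕ} :
    Measurable[m] f ↔ ∀ τ n k, MeasurableSet[m] {ω | f ω τ n = k} := by
  rw [measurable_pi_iff]
  exact forall_congr' fun τ => meas_real

theorem meas_code {f : Ω → Code} :
    Measurable[m] f ↔ (∀ σ, MeasurableSet[m] {ω | (f ω).1 = σ}) ∧
      ∀ τ n k, MeasurableSet[m] {ω | (f ω).2 τ n = k} := by
  constructor
  · intro h
    exact ⟨fun σ => meas_eq (measurable_fst.comp h) σ, meas_succ.1 (measurable_snd.comp h)⟩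
  · rintro ⟨h1, h2⟩
    exact (meas_of_eq h1).prodMk (meas_succ.2 h2)

theorem meas_ev {P : Ω → Prop} (A : Set Ω) (hA : MeasurableSet[m] A) (h : ∀ ω, P ω ↔ ω ∈ A) :
    MeasurableSet[m] {ω | P ω} := by
  have : {ω | P ω} = A := by ext ω; exact h ω
  rwa [this]

theorem meas_all {ι : Type*} [Countable ι] {P : ι → Ω → Prop}
    (h : ∀ i, MeasurableSet[m] {ω | P i ω}) : MeasurableSet[m] {ω | ∀ i, P i ω} := by
  have : {ω | ∀ i, P i ω} = ⋂ i, {ω | P i ω} := by ext; simp
  rw [this]; exact MeasurableSet.iInter h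

theorem meas_ex {ι : Type*} [Countable ι] {P : ι → Ω → Prop}
    (h : ∀ i, MeasurableSet[m] {ω | P i ω}) : MeasurableSet[m] {ω | ∃ i, P i ω} := by
  have : {ω | ∃ i, P i ω} = ⋃ i, {ω | P i ω} := by ext; simp
  rw [this]; exact MeasurableSet.iUnion h

theorem meas_and {P Q : Ω → Prop} (hP : MeasurableSet[m] {ω | P ω})
    (hQ : MeasurableSet[m] {ω | Q ω}) : MeasurableSet[m] {ω | P ω ∧ Q ω} := hP.inter hQ

theorem meas_or {P Q : Ω → Prop} (hP : MeasurableSet[m] {ω | P ω})
    (hQ : MeasurableSet[m] {ω | Q ω}) : MeasurableSet[m] {ω | P ω ∨ Q ω} := hP.union hQ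

theorem meas_not {P : Ω → Prop} (hP : MeasurableSet[m] {ω | P ω}) :
    MeasurableSet[m] {ω | ¬ P ω} := hP.compl

theorem meas_imp {P Q : Ω → Prop} (hP : MeasurableSet[m] {ω | P ω})
    (hQ : MeasurableSet[m] {ω | Q ω}) : MeasurableSet[m] {ω | P ω → Q ω} :=
  meas_ev _ (meas_or (meas_not hP) hQ) fun ω => by
    simp only [mem_ofPred_eq]; tauto

theorem meas_const (p : Prop) : MeasurableSet[m] {_ω : Ω | p} := MeasurableSet.const p

theorem meas_iff {P Q : Ω → Prop} (hP : MeasurableSet[m] {ω | P ω})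
    (hQ : MeasurableSet[m] {ω | Q ω}) : MeasurableSet[m] {ω | P ω ↔ Q ω} :=
  meas_ev _ (meas_and (meas_imp hP hQ) (meas_imp hQ hP)) fun ω => by
    simp only [mem_ofPred_eq]; tauto

/-- A relation between countably valued functions. -/
theorem meas_rel {ι κ : Type*} [Countable ι] [Countable κ] {f : Ω → ι} {g : Ω → κ}
    (hf : ∀ i, MeasurableSet[m] {ω | f ω = i}) (hg : ∀ i, MeasurableSet[m] {ω | g ω = i})
    (R : ι → κ → Prop) : MeasurableSet[m] {ω | R (f ω) (g ω)} :=
  meas_sel_set (P := fun i ω => R i (g ω)) hf fun i =>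
    meas_sel_set (P := fun k _ => R i k) hg fun _ => meas_const _

theorem meas_rel1 {ι : Type*} [Countable ι] {f : Ω → ι}
    (hf : ∀ i, MeasurableSet[m] {ω | f ω = i}) (R : ι → Prop) : MeasurableSet[m] {ω | R (f ω)} :=
  meas_sel_set (P := fun i _ => R i) hf fun _ => meas_const _

theorem meas_ite {β : Type*} [MeasurableSpace β] {P : Ω → Prop} [DecidablePred P]
    (hP : MeasurableSet[m] {ω | P ω}) {f g : Ω → β} (hf : Measurable[m] f) (hg : Measurable[m] g) :
    Measurable[m] fun ω => if P ω then f ω else g ω := Measurable.ite hP hf hg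

theorem meas_fix {c : Ω → ℕ → ℕ} (hc : Measurable[m] c) : Measurable[m] fun ω => fix (c ω) := by
  classical
  unfold fix
  refine Measurable.ite ?_ hc measurable_const
  have : ∀ ω, StrictMono (c ω) ↔ ∀ n, c ω n < c ω (n + 1) := fun ω =>
    ⟨fun h n => h (Nat.lt_succ_self n), strictMono_nat_of_lt_succ⟩
  simp only [this]
  exact meas_all fun n => meas_rel (meas_real.1 hc n) (meas_real.1 hc (n + 1)) (· < ·)

section

variable {a b : Ω → Code} {l u : Ω → ℕ → ℕ}

theorem meas_nxt (ha : Measurable[m] a) (τ : List ℕ) : Measurable[m] fun ω => nxt (a ω) τ :=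
  meas_fix ((measurable_pi_apply τ).comp (measurable_snd.comp ha))

theorem meas_nxt_eq (ha : Measurable[m] a) (τ : List ℕ) (n k : ℕ) :
    MeasurableSet[m] {ω | nxt (a ω) τ n = k} := meas_real.1 (meas_nxt ha τ) n k

theorem meas_nd (ha : Measurable[m] a) (τ ν : List ℕ) :
    MeasurableSet[m] {ω | nd (a ω) τ = ν} := by
  induction τ generalizing ν with
  | nil => exact (meas_code.1 ha).1 ν
  | cons k τ ih =>
    cases ν with
    | nil => exact meas_ev _ (meas_const False) fun ω => by simp [nd_cons]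
    | cons j ν =>
      refine meas_ev _ (meas_and (meas_nxt_eq ha τ k j) (ih ν)) fun ω => ?_
      rw [nd_cons, List.cons.injEq]; rfl

theorem meas_nd_sel (ha : Measurable[m] a) {τ : Ω → List ℕ}
    (hτ : ∀ σ, MeasurableSet[m] {ω | τ ω = σ}) (ν : List ℕ) :
    MeasurableSet[m] {ω | nd (a ω) (τ ω) = ν} :=
  meas_sel_set (P := fun σ ω => nd (a ω) σ = ν) hτ fun σ => meas_nd ha σ ν

theorem meas_nxt_sel (ha : Measurable[m] a) {τ : Ω → List ℕ}
    (hτ : ∀ σ, MeasurableSet[m] {ω | τ ω = σ}) {k : Ω → ℕ}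
    (hk : ∀ i, MeasurableSet[m] {ω | k ω = i}) (j : ℕ) :
    MeasurableSet[m] {ω | nxt (a ω) (τ ω) (k ω) = j} :=
  meas_sel_set (P := fun σ ω => nxt (a ω) σ (k ω) = j) hτ fun σ =>
    meas_sel_set (P := fun i ω => nxt (a ω) σ i = j) hk fun i => meas_nxt_eq ha σ i j

theorem meas_comp (ha : Measurable[m] a) (hb : Measurable[m] b) :
    Measurable[m] fun ω => comp (a ω) (b ω) := by
  refine meas_code.2 ⟨fun σ => ?_, fun τ n k => ?_⟩
  · exact meas_nd_sel ha (meas_code.1 hb).1 σ
  · exact meas_nxt_sel ha (meas_nd hb τ) (meas_nxt_eq hb τ n) k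

theorem meas_ix (ha : Measurable[m] a) {ν : Ω → List ℕ}
    (hν : ∀ σ, MeasurableSet[m] {ω | ν ω = σ}) (σ : List ℕ) :
    MeasurableSet[m] {ω | ix (a ω) (ν ω) = σ} := by
  have h : ∀ ω, ix (a ω) (ν ω) = σ ↔
      nd (a ω) σ = ν ω ∨ ((¬ ∃ τ, nd (a ω) τ = ν ω) ∧ σ = []) := by
    intro ω
    constructor
    · intro h
      by_cases hex : ∃ τ, nd (a ω) τ = ν ω
      · left; rw [← h]; exact nd_ix hex
      · right; refine ⟨hex, ?_⟩
        rw [← h, ix, dif_neg hex]
    · rintro (h | ⟨h, rfl⟩)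
      · rw [← h, ix_nd]
      · rw [ix, dif_neg h]
  have h2 : ∀ τ, MeasurableSet[m] {ω | nd (a ω) τ = ν ω} := fun τ =>
    meas_rel (meas_nd ha τ) hν (· = ·)
  exact meas_ev _ (meas_or (h2 σ) (meas_and (meas_not (meas_ex h2)) (meas_const _))) h

theorem meas_pre (hl : Measurable[m] l) (n : ℕ) (σ : List ℕ) :
    MeasurableSet[m] {ω | pre (l ω) n = σ} := by
  induction n generalizing σ with
  | zero => exact meas_const ([] = σ)
  | succ n ih =>
    cases σ with
    | nil => exact meas_ev _ (meas_const False) fun ω => by simp [pre]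
    | cons j σ =>
      refine meas_ev _ (meas_and (meas_real.1 hl n j) (ih σ)) fun ω => ?_
      rw [pre, List.cons.injEq]; rfl

theorem meas_pre_sel (hl : Measurable[m] l) {n : Ω → ℕ}
    (hn : ∀ i, MeasurableSet[m] {ω | n ω = i}) (σ : List ℕ) :
    MeasurableSet[m] {ω | pre (l ω) (n ω) = σ} :=
  meas_sel_set (P := fun i ω => pre (l ω) i = σ) hn fun i => meas_pre hl i σ

theorem meas_len (ha : Measurable[m] a) (i : ℕ) : MeasurableSet[m] {ω | (a ω).1.length = i} :=
  meas_rel1 (meas_code.1 ha).1 (fun σ => σ.length = i)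

theorem meas_len_add (ha : Measurable[m] a) (n i : ℕ) :
    MeasurableSet[m] {ω | (a ω).1.length + n = i} :=
  meas_rel1 (meas_code.1 ha).1 (fun σ => σ.length + n = i)

theorem meas_mem_Br (ha : Measurable[m] a) (hl : Measurable[m] l) :
    MeasurableSet[m] {ω | l ω ∈ Br (a ω)} :=
  meas_all fun n => meas_ex fun τ =>
    meas_rel (meas_pre_sel hl (meas_len_add ha n)) (meas_nd ha τ) (· = ·)

theorem meas_quot (ha : Measurable[m] a) (hb : Measurable[m] b) :
    Measurable[m] fun ω => quot (a ω) (b ω) := by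
  refine meas_code.2 ⟨fun σ => ?_, fun τ n k => ?_⟩
  · exact meas_ix ha (meas_code.1 hb).1 σ
  · exact meas_rel1 (meas_ix ha (meas_nd hb (n :: τ))) (fun σ => σ.headD 0 = k)

theorem meas_idx (ha : Measurable[m] a) (hl : Measurable[m] l) :
    Measurable[m] fun ω => idx (a ω) (l ω) :=
  meas_real.2 fun n k =>
    meas_rel1 (meas_ix ha (meas_pre_sel hl (meas_len_add ha (n + 1)))) (fun σ => σ.headD 0 = k)

theorem meas_br (ha : Measurable[m] a) (hu : Measurable[m] u) :
    Measurable[m] fun ω => br (a ω) (u ω) := by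
  classical
  refine meas_real.2 fun n k => ?_
  unfold br
  refine meas_sel_set (P := fun σ ω => (if n < σ.length then σ.reverse.getD n 0
    else nxt (a ω) (pre (u ω) (n - σ.length)) ((u ω) (n - σ.length))) = k)
    (meas_code.1 ha).1 fun σ => ?_
  by_cases h : n < σ.length
  · simp only [if_pos h]; exact meas_const _
  · simp only [if_neg h]
    exact meas_nxt_sel ha (meas_pre hu _) (meas_real.1 hu _) k

end

end Pool.Agent.MP_b00c97_gt.Lav
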