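import Pool.Agent.MP_b00c97_gt.Lav.Defs

/-!
# MP_b00c97_gt, part P', block O: operators on codes
-/

set_option autoImplicit false

open Set MeasureTheory Filter

namespace Pool.Agent.MP_b00c97_gt.Lav

section O

theorem filt_spec {P : List ℕ → ℕ → Prop} (h : ∀ σ, InTree P σ → {k | P σ k}.Infinite)
    (τ : List ℕ) : nd (filt P) τ = filtNd P τ ∧ InTree P (filtNd P τ) := by
  induction τ with
  | nil => exact ⟨rfl, trivial⟩
  | cons k τ ih =>
    have hinf := h _ ih.2
    have h1 : nxt (filt P) τ = fun k => Nat.nth (P (filtNd P τ)) k :=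
      fix_eq (Nat.nth_strictMono hinf)
    refine ⟨?_, ?_, ih.2⟩
    · rw [nd_cons, ih.1, h1]
      rfl
    · exact Nat.nth_mem_of_infinite hinf k

theorem inTree_pre {P : List ℕ → ℕ → Prop} {u : ℕ → ℕ} :
    (∀ n, InTree P (pre u n)) ↔ ∀ n, P (pre u n) (u n) := by
  constructor
  · intro h n
    exact (h (n + 1)).1
  · intro h n
    induction n with
    | zero => exact trivial
    | succ n ih => exact ⟨h n, ih⟩

theorem o_exists_of_inTree {P : List ℕ → ℕ → Prop}
    (h : ∀ σ, InTree P σ → {k | P σ k}.Infinite) (σ : List ℕ) (hσ : InTree P σ) :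
    ∃ τ, nd (filt P) τ = σ := by
  induction σ with
  | nil => exact ⟨[], rfl⟩
  | cons k σ ih =>
    obtain ⟨τ, hτ⟩ := ih hσ.2
    have h1 := filt_spec h τ
    have h2 : filtNd P τ = σ := by rw [← h1.1, hτ]
    have h3 := filt_spec h
    have hinf := h σ hσ.2
    obtain ⟨i, hi⟩ : ∃ i, Nat.nth (P σ) i = k := by
      classical
      exact ⟨Nat.count (P σ) k, Nat.nth_count hσ.1⟩
    refine ⟨i :: τ, ?_⟩
    rw [(h3 (i :: τ)).1]
    show Nat.nth (P (filtNd P τ)) i :: filtNd P τ = k :: σ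
    rw [h2, hi]

theorem mem_Br_filt {P : List ℕ → ℕ → Prop} (h : ∀ σ, InTree P σ → {k | P σ k}.Infinite)
    {u : ℕ → ℕ} : u ∈ Br (filt P) ↔ ∀ n, P (pre u n) (u n) := by
  rw [← inTree_pre]
  constructor
  · intro hu n
    obtain ⟨τ, hτ⟩ := hu n
    have h1 := filt_spec h τ
    have h2 : pre u n = nd (filt P) τ := by
      rw [← hτ]; congr 1; show n = 0 + n; omega
    rw [h2, h1.1]
    exact h1.2
  · intro hu n
    obtain ⟨τ, hτ⟩ := o_exists_of_inTree h (pre u n) (hu n)
    refine ⟨τ, ?_⟩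
    rw [hτ]; congr 1; show 0 + n = n; omega

open Classical in
theorem o_nth_eq (Q : ℕ → Prop) (n k : ℕ) : Nat.nth Q n = k ↔
    (Q k ∧ Nat.count Q k = n) ∨ (k = 0 ∧ ∀ j, ¬ (Q j ∧ Nat.count Q j = n)) := by
  constructor
  · intro h
    by_cases hex : ∃ j, Q j ∧ Nat.count Q j = n
    · obtain ⟨j, h1, h2⟩ := hex
      left
      have h3 : Nat.nth Q n = j := by rw [← h2]; exact Nat.nth_count h1
      rw [← h, h3]
      exact ⟨h1, h2⟩
    · right
      push Not at hex
      refine ⟨?_, fun j hj => hex j hj.1 hj.2⟩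
      by_contra hk
      have hlt : ∀ hf : {j | Q j}.Finite, n < hf.toFinset.card := by
        intro hf
        by_contra hge
        push Not at hge
        exact hk (by rw [← h]; exact Nat.nth_of_card_le hf hge)
      have h1 : Q (Nat.nth Q n) := Nat.nth_mem n hlt
      have h2 : Nat.count Q (Nat.nth Q n) = n := Nat.count_nth hlt
      exact hex _ h1 h2
  · rintro (⟨h1, h2⟩ | ⟨h1, h2⟩)
    · rw [← h2]; exact Nat.nth_count h1
    · rw [h1]
      by_contra hne
      have hlt : ∀ hf : {j | Q j}.Finite, n < hf.toFinset.card := by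
        intro hf
        by_contra hge
        push Not at hge
        exact hne (Nat.nth_of_card_le hf hge)
      exact h2 _ ⟨Nat.nth_mem n hlt, Nat.count_nth hlt⟩

open Classical in
theorem o_meas_count {Ω : Type*} {m : MeasurableSpace Ω} {Q : Ω → ℕ → Prop}
    (hQ : ∀ k, MeasurableSet[m] {ω | Q ω k}) (j n : ℕ) :
    MeasurableSet[m] {ω | Nat.count (Q ω) j = n} := by
  induction j generalizing n with
  | zero => simp only [Nat.count_zero]; exact meas_const _
  | succ j ih =>
    refine meas_ev _ (meas_or (meas_and (hQ j) (meas_ex fun i : ℕ => meas_and (ih i)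
      (meas_const (i + 1 = n)))) (meas_and (meas_not (hQ j)) (ih n))) fun ω => ?_
    rw [Nat.count_succ]
    by_cases h : Q ω j
    · simp [h]
    · simp [h]

theorem o_meas_nth {Ω : Type*} {m : MeasurableSpace Ω} {Q : Ω → ℕ → Prop}
    (hQ : ∀ k, MeasurableSet[m] {ω | Q ω k}) (n k : ℕ) :
    MeasurableSet[m] {ω | Nat.nth (Q ω) n = k} := by
  classical
  refine meas_ev _ (meas_or (meas_and (hQ k) (o_meas_count hQ k n)) (meas_and (meas_const (k = 0))
    (meas_all fun j : ℕ => meas_not (meas_and (hQ j) (o_meas_count hQ j n))))) fun ω => ?_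
  exact o_nth_eq (Q ω) n k

theorem o_meas_filtNd {Ω : Type*} {m : MeasurableSpace Ω} {P : Ω → List ℕ → ℕ → Prop}
    (hP : ∀ σ k, MeasurableSet[m] {ω | P ω σ k}) (τ σ : List ℕ) :
    MeasurableSet[m] {ω | filtNd (P ω) τ = σ} := by
  induction τ generalizing σ with
  | nil => exact meas_const ([] = σ)
  | cons k τ ih =>
    cases σ with
    | nil => exact meas_ev _ (meas_const False) fun ω => by simp [filtNd]
    | cons j σ =>
      refine meas_ev _ (meas_and (o_meas_nth (hP σ) k j) (ih σ)) fun ω => ?_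
      show Nat.nth (P ω (filtNd (P ω) τ)) k :: filtNd (P ω) τ = j :: σ ↔ _
      rw [List.cons.injEq]
      constructor
      · rintro ⟨h1, h2⟩
        rw [h2] at h1
        exact ⟨h1, h2⟩
      · rintro ⟨h1, h2⟩
        have h2' : filtNd (P ω) τ = σ := h2
        refine ⟨?_, h2'⟩
        rw [h2']; exact h1

theorem meas_filt {Ω : Type*} {m : MeasurableSpace Ω} {P : Ω → List ℕ → ℕ → Prop}
    (hP : ∀ σ k, MeasurableSet[m] {ω | P ω σ k}) : Measurable[m] fun ω => filt (P ω) := by
  refine meas_code.2 ⟨fun σ => meas_const ([] = σ), fun τ n k => ?_⟩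
  exact meas_sel_set (P := fun σ ω => Nat.nth (P ω σ) n = k) (o_meas_filtNd hP τ)
    fun σ => o_meas_nth (hP σ) n k

theorem o_nxt_tail_nil (n : ℕ) (τ : List ℕ) (k : ℕ) :
    nxt (tail n τ) [] k = k + (n - (τ.sum + τ.length)) := by
  have h : StrictMono (fun k : ℕ => if ([] : List ℕ) = [] then k + (n - (τ.sum + τ.length)) else k) := by
    intro a b hab
    simp only [if_true]
    omega
  exact congrFun (fix_eq h) k

theorem o_nxt_tail_cons (n : ℕ) (τ ρ : List ℕ) (hρ : ρ ≠ []) (k : ℕ) :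
    nxt (tail n τ) ρ k = k := by
  have h : StrictMono (fun k : ℕ => if ρ = [] then k + (n - (τ.sum + τ.length)) else k) := by
    intro a b hab
    simp only [hρ, if_false]
    omega
  exact (congrFun (fix_eq h) k).trans (if_neg hρ)

theorem o_nd_tail (n : ℕ) (τ ρ : List ℕ) (k : ℕ) :
    nd (tail n τ) (ρ ++ [k]) = ρ ++ ((k + (n - (τ.sum + τ.length))) :: τ) := by
  induction ρ with
  | nil =>
    rw [List.nil_append, nd_cons, o_nxt_tail_nil]
    rfl
  | cons j ρ ih =>
    rw [List.cons_append, nd_cons, ih, o_nxt_tail_cons _ _ _ (by simp)]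
    rfl

theorem o_Sg_of_cons {n k : ℕ} {τ : List ℕ} (h : k :: τ ∈ Sg n) : τ ∈ Sg n := by
  rw [cons_mem_Sg] at h
  show τ.sum + τ.length ≤ n
  omega

theorem o_Sg_pre {n : ℕ} {u : ℕ → ℕ} {i j : ℕ} (hij : i ≤ j) (h : pre u j ∈ Sg n) :
    pre u i ∈ Sg n := by
  induction j, hij using Nat.le_induction with
  | base => exact h
  | succ j _ ih => exact ih (o_Sg_of_cons h)

theorem mem_Br_tail {n : ℕ} {τ : List ℕ} (hτ : τ ∈ Sg n) {u : ℕ → ℕ} :
    u ∈ Br (tail n τ) ↔ pre u τ.length = τ ∧ pre u (τ.length + 1) ∉ Sg n := by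
  have hτ' : τ.sum + τ.length ≤ n := hτ
  constructor
  · intro h
    have h0 : pre u τ.length = τ := by
      obtain ⟨ρ, hρ⟩ := h 0
      have hl := congrArg List.length hρ
      rw [nd_length, pre_length] at hl
      obtain rfl := List.length_eq_zero_iff.1 (show ρ.length = 0 by omega)
      exact hρ
    refine ⟨h0, ?_⟩
    obtain ⟨ρ, hρ⟩ := h 1
    have hl := congrArg List.length hρ
    rw [nd_length, pre_length] at hl
    obtain ⟨k, rfl⟩ := List.length_eq_one_iff.1 (show ρ.length = 1 by omega)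
    have h2 : pre u (τ.length + 1) = (k + (n - (τ.sum + τ.length))) :: τ := by
      have := o_nd_tail n τ [] k
      simp only [List.nil_append] at this
      rw [← this]
      exact hρ
    rw [h2, cons_mem_Sg]
    omega
  · rintro ⟨h0, h1⟩ m
    have h2 : pre u (τ.length + 1) = u τ.length :: τ := by rw [pre, h0]
    rw [h2, cons_mem_Sg] at h1
    cases m with
    | zero => exact ⟨[], h0⟩
    | succ m =>
      obtain ⟨ρ, h3, -⟩ := pre_add u (τ.length + 1) m
      refine ⟨ρ ++ [u τ.length - (n - (τ.sum + τ.length))], ?_⟩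
      rw [o_nd_tail]
      have h4 : pre u ((tail n τ).1.length + (m + 1)) = pre u (τ.length + 1 + m) := by
        congr 1
        show τ.length + (m + 1) = _
        omega
      rw [h4, h3, h2]
      congr 2
      omega

/-- Every branch lies in exactly one tail. -/
theorem existsUnique_tail (n : ℕ) (u : ℕ → ℕ) : ∃! τ, τ ∈ Sg n ∧ u ∈ Br (tail n τ) := by
  classical
  have hnot : pre u (n + 1) ∉ Sg n := by
    intro h
    have h1 : (pre u (n + 1)).sum + (pre u (n + 1)).length ≤ n := h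
    rw [pre_length] at h1
    omega
  have hex : ∃ j, pre u (j + 1) ∉ Sg n := ⟨n, hnot⟩
  set j := Nat.find hex with hj
  have hj1 : pre u (j + 1) ∉ Sg n := Nat.find_spec hex
  have hj0 : pre u j ∈ Sg n := by
    rcases Nat.eq_zero_or_pos j with h0 | h0
    · rw [h0]; exact nil_mem_Sg n
    · have := Nat.find_min hex (show j - 1 < Nat.find hex by omega)
      rw [not_not] at this
      rwa [Nat.sub_add_cancel h0] at this
  refine ⟨pre u j, ⟨hj0, ?_⟩, ?_⟩
  · rw [mem_Br_tail hj0, pre_length]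
    exact ⟨rfl, hj1⟩
  · rintro τ ⟨h1, h2⟩
    rw [mem_Br_tail h1] at h2
    have h3 : τ.length = j := by
      rcases lt_trichotomy τ.length j with h | h | h
      · exact absurd (o_Sg_pre (by omega) hj0) h2.2
      · exact h
      · have h4 : pre u τ.length ∈ Sg n := by rw [h2.1]; exact h1
        exact absurd (o_Sg_pre (by omega) h4) hj1
    rw [← h2.1, h3]

theorem Br_comp_tail_subset_cone (n : ℕ) (τ : List ℕ) (hτ : τ ∈ Sg n) :
    Br (tail n τ) ⊆ Br (cone τ) := by
  intro u hu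
  rw [mem_Br_cone]
  exact ((mem_Br_tail hτ).1 hu).1

theorem o_nd_comp_cone_nil {j : ℕ} {G : Code} (hG : G.1 = []) : nd (comp (cone [j]) G) [] = [j] := by
  rw [nd_comp, nd_nil, hG]
  rfl

theorem o_infinite_nxt (c : Code) (ρ : List ℕ) {S : Set ℕ} (h : ∀ m, nxt c ρ m ∈ S) :
    S.Infinite :=
  Set.infinite_of_injective_forall_mem (nxt_mono c ρ).injective h

theorem o_glue1_inf {N : ℕ → Prop} {G : ℕ → Code} (hN : {k | N k}.Infinite)
    (hG : ∀ k, (G k).1 = []) (σ : List ℕ) (hσ : InTree (glue1P N G) σ) :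
    {k | glue1P N G σ k}.Infinite := by
  cases σ with
  | nil => exact hN.mono fun k hk => Or.inl ⟨rfl, hk⟩
  | cons k σ =>
    obtain ⟨j, ρ, hj, hρ⟩ : ∃ j ρ, N j ∧ nd (comp (cone [j]) (G j)) ρ = k :: σ := by
      rcases hσ.1 with ⟨h1, h2⟩ | ⟨j, ρ, h1, -, h2⟩
      · exact ⟨k, [], h2, by rw [o_nd_comp_cone_nil (hG k), h1]⟩
      · exact ⟨j, ρ, h1, h2⟩
    refine o_infinite_nxt (comp (cone [j]) (G j)) ρ fun m => ?_
    right
    exact ⟨j, m :: ρ, hj, by simp, by rw [nd_cons, hρ]⟩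

theorem o_pre_last (u : ℕ → ℕ) (n : ℕ) : ∃ ρ, pre u (n + 1) = ρ ++ [u 0] := by
  obtain ⟨ρ, h1, -⟩ := pre_add u 1 n
  exact ⟨ρ, by rw [add_comm]; exact h1⟩

theorem mem_Br_glue1 {N : ℕ → Prop} {G : ℕ → Code} (hN : {k | N k}.Infinite)
    (hG : ∀ k, (G k).1 = []) {u : ℕ → ℕ} :
    u ∈ Br (glue1 N G) ↔ N (u 0) ∧ u ∈ Br (comp (cone [u 0]) (G (u 0))) := by
  unfold glue1
  rw [mem_Br_filt (o_glue1_inf hN hG)]
  have hstem : ∀ j, (comp (cone [j]) (G j)).1 = [j] := fun j => o_nd_comp_cone_nil (hG j)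
  constructor
  · intro h
    have h0 : N (u 0) := by
      rcases h 0 with ⟨-, h2⟩ | ⟨j, ρ, h1, h2, h3⟩
      · exact h2
      · exfalso
        have hl := congrArg List.length h3
        rw [nd_length, hstem] at hl
        simp only [List.length_cons, List.length_nil, pre] at hl
        exact h2 (List.length_eq_zero_iff.1 (by omega))
    refine ⟨h0, ?_⟩
    intro m
    rw [hstem]
    cases m with
    | zero =>
      refine ⟨[], ?_⟩
      rw [o_nd_comp_cone_nil (hG _)]
      rfl
    | succ m =>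
      rcases h (m + 1) with ⟨h1, -⟩ | ⟨j, ρ, h1, h2, h3⟩
      · simp [pre] at h1
      · have h4 : j = u 0 := by
          obtain ⟨ρ', hρ'⟩ := o_pre_last u (m + 1)
          have h5 : nd (comp (cone [j]) (G j)) ρ = nd (G j) ρ ++ [j] := by
            rw [nd_comp, nd_cone]
          rw [h5] at h3
          have h6 : u (m + 1) :: pre u (m + 1) = ρ' ++ [u 0] := hρ'
          rw [h6] at h3
          have := List.append_inj_right' h3 rfl
          simpa using this
        subst h4
        refine ⟨ρ, ?_⟩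
        rw [h3]
        have : ([u 0] : List ℕ).length + (m + 1) = (m + 1) + 1 := by simp; omega
        rw [this]
        rfl
  · rintro ⟨h0, h1⟩ n
    cases n with
    | zero => exact Or.inl ⟨rfl, h0⟩
    | succ n =>
      right
      obtain ⟨ρ, hρ⟩ := h1 (n + 1)
      rw [hstem] at hρ
      have e : ([u 0] : List ℕ).length + (n + 1) = (n + 1) + 1 := by simp; omega
      rw [e] at hρ
      refine ⟨u 0, ρ, h0, ?_, hρ.symm⟩
      rintro rfl
      have hl := congrArg List.length hρ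
      rw [pre_length, o_nd_comp_cone_nil (hG _)] at hl
      simp at hl

theorem glue1_fst (N : ℕ → Prop) (G : ℕ → Code) : (glue1 N G).1 = [] := rfl

theorem meas_glue1 {Ω : Type*} {m : MeasurableSpace Ω} {N : Ω → ℕ → Prop} {G : Ω → ℕ → Code}
    (hN : ∀ k, MeasurableSet[m] {ω | N ω k}) (hG : ∀ k, Measurable[m] fun ω => G ω k) :
    Measurable[m] fun ω => glue1 (N ω) (G ω) := by
  refine meas_filt fun σ k => ?_
  exact meas_or (meas_and (meas_const (σ = [])) (hN k))
    (meas_ex fun j => meas_ex fun ρ => meas_and (hN j) (meas_and (meas_const (ρ ≠ []))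
      (meas_nd (meas_comp measurable_const (hG j)) ρ (k :: σ))))

theorem o_root_of_mem {n : ℕ} {σ : List ℕ} (h : σ ∈ Sg n) : root n σ = σ := by
  cases σ with
  | nil => rfl
  | cons k σ => exact if_pos h

theorem o_root_of_notMem {n k : ℕ} {σ : List ℕ} (h : k :: σ ∉ Sg n) :
    root n (k :: σ) = root n σ := if_neg h

theorem o_nd_comp_tail_nil (n : ℕ) (τ : List ℕ) {G : Code} (hG : G.1 = []) :
    nd (comp (tail n τ) G) [] = τ := by
  rw [nd_comp, nd_nil, hG]
  rfl

theorem o_glueS_inf {n : ℕ} {G : List ℕ → Code} (hG : ∀ τ, (G τ).1 = []) (σ : List ℕ)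
    (hσ : InTree (glueSP n G) σ) : {k | glueSP n G σ k}.Infinite := by
  have key : ∀ ρ, nd (comp (tail n (root n σ)) (G (root n σ))) ρ = σ →
      {k | glueSP n G σ k}.Infinite := by
    intro ρ hρ
    refine o_infinite_nxt (comp (tail n (root n σ)) (G (root n σ))) ρ fun m => ?_
    right
    exact ⟨m :: ρ, by rw [nd_cons, hρ]⟩
  by_cases hS : σ ∈ Sg n
  · apply key []
    rw [o_nd_comp_tail_nil _ _ (hG _), o_root_of_mem hS]
  · cases σ with
    | nil => exact absurd (nil_mem_Sg n) hS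
    | cons k σ =>
      rcases hσ.1 with h | ⟨ρ, hρ⟩
      · exact absurd h hS
      · apply key ρ
        rw [o_root_of_notMem hS]
        exact hρ

theorem nd_glueS {n : ℕ} {G : List ℕ → Code} (hG : ∀ τ, (G τ).1 = []) {τ : List ℕ}
    (hτ : τ ∈ Sg n) : nd (glueS n G) τ = τ := by
  unfold glueS
  rw [(filt_spec (o_glueS_inf hG) τ).1]
  induction τ with
  | nil => rfl
  | cons k τ ih =>
    have h1 := ih (o_Sg_of_cons hτ)
    show Nat.nth (glueSP n G (filtNd (glueSP n G) τ)) k :: filtNd (glueSP n G) τ = k :: τ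
    rw [h1]
    congr 1
    classical
    have h2 : ∀ k' ≤ k, glueSP n G τ k' := by
      intro k' hk'
      left
      rw [cons_mem_Sg] at hτ ⊢
      omega
    have h3 : Nat.count (glueSP n G τ) k = k :=
      Nat.count_iff_forall.2 fun k' hk' => h2 k' hk'.le
    have h4 := Nat.nth_count (h2 k le_rfl)
    rw [h3] at h4
    exact h4

theorem o_root_pre {n : ℕ} {τ : List ℕ} (hτ : τ ∈ Sg n) {u : ℕ → ℕ} (hu : u ∈ Br (tail n τ))
    {m : ℕ} (hm : τ.length ≤ m) : root n (pre u m) = τ := by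
  rw [mem_Br_tail hτ] at hu
  induction m, hm using Nat.le_induction with
  | base => rw [hu.1, o_root_of_mem hτ]
  | succ m hm ih =>
    have h1 : pre u (m + 1) ∉ Sg n := fun h => hu.2 (o_Sg_pre (by omega) h)
    rw [pre] at h1 ⊢
    rw [o_root_of_notMem h1, ih]

theorem mem_Br_glueS {n : ℕ} {G : List ℕ → Code} (hG : ∀ τ, (G τ).1 = []) {u : ℕ → ℕ} :
    u ∈ Br (glueS n G) ↔ ∀ τ ∈ Sg n, u ∈ Br (tail n τ) → u ∈ Br (comp (tail n τ) (G τ)) := by
  unfold glueS
  rw [mem_Br_filt (o_glueS_inf hG)]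
  have hstem : ∀ τ, (comp (tail n τ) (G τ)).1 = τ := fun τ => o_nd_comp_tail_nil n τ (hG τ)
  constructor
  · intro h τ hτ hu
    have hu' := (mem_Br_tail hτ).1 hu
    intro m
    rw [hstem]
    cases m with
    | zero =>
      refine ⟨[], ?_⟩
      rw [o_nd_comp_tail_nil _ _ (hG _)]
      exact hu'.1
    | succ m =>
      rcases h (τ.length + m) with h1 | ⟨ρ, hρ⟩
      · exact absurd (o_Sg_pre (j := τ.length + m + 1) (by omega) h1) hu'.2
      · rw [o_root_pre hτ hu (by omega)] at hρ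
        exact ⟨ρ, hρ.symm⟩
  · intro h m
    obtain ⟨τ, ⟨hτ, hu⟩, -⟩ := existsUnique_tail n u
    have hu' := (mem_Br_tail hτ).1 hu
    by_cases hm : m + 1 ≤ τ.length
    · left
      have h1 : pre u τ.length ∈ Sg n := by rw [hu'.1]; exact hτ
      exact o_Sg_pre hm h1
    · right
      have h1 := h τ hτ hu (m + 1 - τ.length)
      rw [hstem, show τ.length + (m + 1 - τ.length) = m + 1 by omega] at h1
      obtain ⟨ρ, hρ⟩ := h1
      refine ⟨ρ, ?_⟩
      rw [o_root_pre hτ hu (by omega)]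
      exact hρ.symm

theorem meas_glueS {Ω : Type*} {m : MeasurableSpace Ω} (n : ℕ) {G : Ω → List ℕ → Code}
    (hG : ∀ τ, Measurable[m] fun ω => G ω τ) : Measurable[m] fun ω => glueS n (G ω) := by
  refine meas_filt fun σ k => ?_
  exact meas_or (meas_const (k :: σ ∈ Sg n))
    (meas_ex fun ρ => meas_nd (meas_comp measurable_const (hG (root n σ))) ρ (k :: σ))

/-- If `a` and `b` have the same frozen nodes and `Br b ⊆ Br a`, the tails correspond. -/
theorem mem_Br_comp_tail {a b : Code} {n : ℕ} (hab : Br b ⊆ Br a)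
    (h : ∀ τ ∈ Sg n, nd b τ = nd a τ) {τ : List ℕ} (hτ : τ ∈ Sg n) {l : ℕ → ℕ} (hl : l ∈ Br b) :
    l ∈ Br (comp b (tail n τ)) ↔ l ∈ Br (comp a (tail n τ)) := by
  have hla : l ∈ Br a := hab hl
  have hstem : b.1 = a.1 := h [] (nil_mem_Sg n)
  rw [Br_comp, Br_comp, mem_Br_tail hτ, mem_Br_tail hτ]
  have key : ∀ σ ∈ Sg n, ∀ m, pre (idx b l) m = σ ↔ pre (idx a l) m = σ := by
    intro σ hσ m
    have h1 := pre_idx hl m
    have h2 := pre_idx hla m
    rw [hstem] at h1
    rw [h2] at h1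
    constructor
    · intro h3
      rw [h3, h σ hσ] at h1
      exact nd_inj h1
    · intro h3
      rw [h3, ← h σ hσ] at h1
      exact (nd_inj h1).symm
  have key2 : ∀ m, pre (idx b l) m ∈ Sg n ↔ pre (idx a l) m ∈ Sg n := by
    intro m
    constructor
    · intro h1
      have := (key _ h1 m).1 rfl
      rwa [this]
    · intro h1
      have := (key _ h1 m).2 rfl
      rwa [this]
  rw [key τ hτ, key2]
  simp only [hl, hla]

end O

end Pool.Agent.MP_b00c97_gt.Lav
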