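import Pool.Agent.MP_b00c97_gt.Lav.Gen
import Pool.Agent.MP_b00c97_gt.Lav.Generic

/-!
# MP_b00c97_gt, blocks V1 and V3: closure under the operations, genericity of the Laver real
-/

set_option autoImplicit false

open Set MeasureTheory Filter Cardinal

namespace Pool.Agent.MP_b00c97_gt.Lav

open Pool.Agent.BVM Pool.Agent.MP9096b7

variable {K : Type} [LinearOrder K] [WellFoundedLT K]
variable {B : Type} [CompleteBooleanAlgebra B] {em : Cond K → B}

/-- Functions of the generic point are names for reals. -/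
theorem v13_meas_comp (he : IsEm em) {I : Set K} {f : (K → ℕ → ℕ) → ℕ → ℕ}
    (hf : Measurable[𝓑 I] f) : Measurable[genM B] fun ω => f (gen em ω) :=
  meas_subst hf fun δ _ => meas_gen he δ

/-- V1: closure of the names of the intermediate model under the operations. -/
theorem wk_op (he : IsEm em) {γ : K}
    (Op : ℕ → (Ult B → ℕ → ℕ) → (Ult B → ℕ → ℕ) → (Ult B → ℕ → ℕ))
    (hOp : ∀ i (F G : Ult B → ℕ → ℕ), Measurable[genM B] F → Measurable[genM B] G →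
      Measurable[genM B] (Op i F G))
    (hloc : ∀ i (F G F' G' : Ult B → ℕ → ℕ), Measurable[genM B] F → Measurable[genM B] G →
      Measurable[genM B] F' → Measurable[genM B] G' →
        ∀ᶠ ω in genN B, F ω = F' ω → G ω = G' ω → Op i F G ω = Op i F' G' ω)
    (hγ : ∀ i (f g : (K → ℕ → ℕ) → ℕ → ℕ), Measurable[𝓑 (Iio γ)] f →
      Measurable[𝓑 (Iio γ)] g →
        Strict em (Iio γ) (Op i (fun ω => f (gen em ω)) fun ω => g (gen em ω)))
    (i : ℕ) {F G : Ult B → ℕ → ℕ} (hF : Wk em (Iio γ) F) (hG : Wk em (Iio γ) G) :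
    Wk em (Iio γ) (Op i F G) := by
  refine ⟨hOp i F G hF.1 hG.1, fun p => ?_⟩
  obtain ⟨q₁, hq₁, f, hf, hfF⟩ := hF.2 p
  obtain ⟨q₂, hq₂, g, hg, hgG⟩ := hG.2 q₁
  obtain ⟨-, h1⟩ := (hγ i f g hf hg).wk he (isLowerSet_Iio γ)
  obtain ⟨q₃, hq₃, h, hh, hhH⟩ := h1 q₂
  refine ⟨q₃, hq₃.trans (hq₂.trans hq₁), h, hh, ?_⟩
  filter_upwards [hfF, hgG, hhH, hloc i F G _ _ hF.1 hG.1 (v13_meas_comp he hf)
    (v13_meas_comp he hg)] with ω e1 e2 e3 e4 hω
  have hω2 : ω.V (em q₂) := ω.mono (he.mono _ _ hq₃) hω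
  have hω1 : ω.V (em q₁) := ω.mono (he.mono _ _ hq₂) hω2
  rw [e4 (e1 hω1) (e2 hω2)]
  exact e3 hω

/-- V3, locally. -/
theorem v13_local (he : IsEm em) {γ : K}
    (Op : ℕ → (Ult B → ℕ → ℕ) → (Ult B → ℕ → ℕ) → (Ult B → ℕ → ℕ))
    (hloc : ∀ i (F G F' G' : Ult B → ℕ → ℕ), Measurable[genM B] F → Measurable[genM B] G →
      Measurable[genM B] F' → Measurable[genM B] G' →
        ∀ᶠ ω in genN B, F ω = F' ω → G ω = G' ω → Op i F G ω = Op i F' G' ω)
    (hγ : ∀ i (f g : (K → ℕ → ℕ) → ℕ → ℕ), Measurable[𝓑 (Iio γ)] f →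
      Measurable[𝓑 (Iio γ)] g →
        Strict em (Iio γ) (Op i (fun ω => f (gen em ω)) fun ω => g (gen em ω)))
    {v : Ult B → ℕ → ℕ} (hv : Wk em (Iio γ) v) (p : Cond K) :
    ∃ q ≤ p, ∃ s : (K → ℕ → ℕ) → ℕ → ℕ, Measurable[𝓑 (Iio γ)] s ∧
      ∀ᶠ ω in genN B, ω.V (em q) → (∀ i, {n | s (gen em ω) (Nat.pair i n) = 0}.Infinite) ∧
      ((∀ i, {n | Op 0 v (fun ω => s (gen em ω)) ω n = 0 ∧
        s (gen em ω) (Nat.pair i n) = 0}.Infinite) →
        ∀ᶠ k in atTop, Op 0 v (fun ω => s (gen em ω)) ω (gen em ω γ k) = 0) := by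
  classical
  obtain ⟨q₀, hq₀, vt, hvt, hvt'⟩ := hv.2 p
  let s : (K → ℕ → ℕ) → ℕ → ℕ := fun x m =>
    if ∃ k, nxt (q₀.t γ x) (Denumerable.ofNat (List ℕ) m.unpair.1) k = m.unpair.2 then 0 else 1
  have hs0 : ∀ x i n, s x (Nat.pair i n) = 0 ↔
      ∃ k, nxt (q₀.t γ x) (Denumerable.ofNat (List ℕ) i) k = n := by
    intro x i n
    simp only [s, Nat.unpair_pair]
    split_ifs with h <;> simp [h]
  have hs : Measurable[𝓑 (Iio γ)] s := by
    refine meas_real.2 fun m k => ?_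
    have hev : MeasurableSet[𝓑 (Iio γ)] {x | ∃ k,
        nxt (q₀.t γ x) (Denumerable.ofNat (List ℕ) m.unpair.1) k = m.unpair.2} :=
      meas_ex fun k => meas_nxt_eq (q₀.meas γ) _ _ _
    refine meas_ev _ (meas_or (meas_and hev (meas_const (0 = k)))
      (meas_and (meas_not hev) (meas_const (1 = k)))) fun x => ?_
    simp only [s, mem_ofPred_eq]
    split_ifs with h <;> simp [h]
  have hinf : ∀ x i, {n | s x (Nat.pair i n) = 0}.Infinite := by
    intro x i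
    have : {n | s x (Nat.pair i n) = 0} =
        range (nxt (q₀.t γ x) (Denumerable.ofNat (List ℕ) i)) := by
      ext n
      simp only [mem_ofPred_eq, hs0, mem_range]
    rw [this]
    exact infinite_range_of_injective (nxt_mono _ _).injective
  obtain ⟨-, hst⟩ := hγ 0 vt s hvt hs
  obtain ⟨q₁, hq₁, hq₁I, h, hh, hhH⟩ := hst (q₀.res (Iio γ)) (q₀.suppIn_res _)
  let A : Set (K → ℕ → ℕ) :=
    {x | ∀ i, {n | h x n = 0 ∧ s x (Nat.pair i n) = 0}.Infinite}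
  have hA : MeasurableSet[𝓑 (Iio γ)] A := by
    have h1 : ∀ x, x ∈ A ↔ ∀ i : ℕ, ∀ a : ℕ, ∃ n : ℕ, a ≤ n ∧ h x n = 0 ∧
        s x (Nat.pair i n) = 0 := by
      intro x
      refine forall_congr' fun i => ?_
      rw [← Nat.frequently_atTop_iff_infinite, frequently_atTop]
    have h2 : A = {x | ∀ i : ℕ, ∀ a : ℕ, ∃ n : ℕ, a ≤ n ∧ h x n = 0 ∧
        s x (Nat.pair i n) = 0} := by
      ext x
      exact h1 x
    rw [h2]
    exact meas_all fun i => meas_all fun a => meas_ex fun n =>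
      meas_and (meas_const _) (meas_and (meas_real.1 hh n 0) (meas_real.1 hs _ 0))
  obtain ⟨q₂, hq₂I, hq₂, hdec⟩ := ml_all (Iio γ) (isLowerSet_Iio γ) A q₁ hA hq₁I
  let q₃ : Cond K := Cond.glue (Iio γ) (isLowerSet_Iio γ) q₂ q₀
  have hq₃0 : q₃ ≤ q₀ := Cond.glue_le (hq₂.trans hq₁)
  have hq₃2 : q₃ ≤ q₂ := by
    intro x hx
    rw [Cond.mem_glue] at hx
    rw [← Cond.body_res_of_suppIn hq₂I, Cond.mem_res]
    exact hx.1
  have hq₃t : q₃.t γ = q₀.t γ := Cond.glue_t' (by simp)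
  have hop := hloc 0 v (fun ω => s (gen em ω)) _ (fun ω => s (gen em ω)) hv.1
    (v13_meas_comp he hs) (v13_meas_comp he hvt) (v13_meas_comp he hs)
  -- the value of the operation on `q₃`
  have hval : ∀ᶠ ω in genN B, ω.V (em q₃) →
      Op 0 v (fun ω => s (gen em ω)) ω = h (gen em ω) := by
    filter_upwards [hop, hvt', hhH] with ω e1 e2 e3 hω
    have h0 : ω.V (em q₀) := ω.mono (he.mono _ _ hq₃0) hω
    have h1 : ω.V (em q₁) := ω.mono (he.mono _ _ (hq₃2.trans hq₂)) hω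
    rw [e1 (e2 h0) rfl]
    exact e3 h1
  rcases hdec with hdec | hdec
  · obtain ⟨q, hq, hqh⟩ := hit γ q₃ h hh (by
      intro x hx τ
      have hxA : x ∈ A := hdec (hq₃2 hx)
      have h1 := hxA (Encodable.encode τ)
      rw [hq₃t]
      intro hfin
      apply h1
      refine (hfin.image (nxt (q₀.t γ x) τ)).subset ?_
      rintro n ⟨hn0, hn1⟩
      rw [hs0] at hn1
      obtain ⟨k, hk⟩ := hn1
      rw [Denumerable.ofNat_encode] at hk
      refine ⟨k, ?_, hk⟩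
      show h x (nxt (q₀.t γ x) τ k) = 0
      rw [hk]
      exact hn0)
    refine ⟨q, hq.trans (hq₃0.trans hq₀), s, hs, ?_⟩
    have hAm : MeasurableSet[𝓑 univ] {x : K → ℕ → ℕ | ∀ᶠ k in atTop, h x (x γ k) = 0} := by
      have h2 : {x : K → ℕ → ℕ | ∀ᶠ k in atTop, h x (x γ k) = 0} =
          {x | ∃ a : ℕ, ∀ k : ℕ, a ≤ k → h x (x γ k) = 0} := by
        ext x
        exact eventually_atTop
      rw [h2]
      refine meas_ex fun a => meas_all fun k => meas_imp (meas_const _) ?_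
      exact meas_sel_set (P := fun n x => h x n = 0)
        (f := fun x : K → ℕ → ℕ => x γ k)
        (fun n => meas_real.1 (meas_coord (mem_univ γ)) k n)
        fun n => meas_real.1 (Meas.mono (subset_univ _) hh) n 0
    filter_upwards [transfer he q hAm hqh, hval] with ω e1 e2 hω
    refine ⟨fun i => hinf _ i, fun _ => ?_⟩
    rw [e2 (ω.mono (he.mono _ _ hq) hω)]
    exact e1 hω
  · refine ⟨q₃, hq₃0.trans hq₀, s, hs, ?_⟩
    have hm : MeasurableSet[𝓑 univ] q₂.body := Cond.meas_body isLowerSet_univ q₂.suppIn_univ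
    filter_upwards [transfer he q₃ hm hq₃2, hval] with ω e1 e2 hω
    refine ⟨fun i => hinf _ i, fun hcon => ?_⟩
    exfalso
    rw [e2 hω] at hcon
    exact Set.disjoint_left.1 hdec (e1 hω) hcon

/-- V3: the genericity of the Laver real. -/
theorem wk_hit (he : IsEm em) {γ : K}
    (Op : ℕ → (Ult B → ℕ → ℕ) → (Ult B → ℕ → ℕ) → (Ult B → ℕ → ℕ))
    (hOp : ∀ i (F G : Ult B → ℕ → ℕ), Measurable[genM B] F → Measurable[genM B] G →
      Measurable[genM B] (Op i F G))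
    (hloc : ∀ i (F G F' G' : Ult B → ℕ → ℕ), Measurable[genM B] F → Measurable[genM B] G →
      Measurable[genM B] F' → Measurable[genM B] G' →
        ∀ᶠ ω in genN B, F ω = F' ω → G ω = G' ω → Op i F G ω = Op i F' G' ω)
    (hγ : ∀ i (f g : (K → ℕ → ℕ) → ℕ → ℕ), Measurable[𝓑 (Iio γ)] f →
      Measurable[𝓑 (Iio γ)] g →
        Strict em (Iio γ) (Op i (fun ω => f (gen em ω)) fun ω => g (gen em ω)))
    {v : Ult B → ℕ → ℕ} (hv : Wk em (Iio γ) v) :
    ∃ s, Wk em (Iio γ) s ∧ ∀ᶠ ω in genN B, (∀ i, {n | s ω (Nat.pair i n) = 0}.Infinite) ∧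
      ((∀ i, {n | Op 0 v s ω n = 0 ∧ s ω (Nat.pair i n) = 0}.Infinite) →
        ∀ᶠ k in atTop, Op 0 v s ω (gen em ω γ k) = 0) := by
  let R : Cond K → (Ult B → ℕ → ℕ) → Prop := fun q F =>
    ∃ s : (K → ℕ → ℕ) → ℕ → ℕ, Measurable[𝓑 (Iio γ)] s ∧ F = (fun ω => s (gen em ω)) ∧
      ∀ᶠ ω in genN B, ω.V (em q) → (∀ i, {n | F ω (Nat.pair i n) = 0}.Infinite) ∧
      ((∀ i, {n | Op 0 v F ω n = 0 ∧ F ω (Nat.pair i n) = 0}.Infinite) →
        ∀ᶠ k in atTop, Op 0 v F ω (gen em ω γ k) = 0)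
  obtain ⟨F, hF, hF2⟩ := gen_mix he R (by
    intro p
    obtain ⟨q, hq, s, hs, h⟩ := v13_local he Op hloc hγ hv p
    exact ⟨q, hq, _, v13_meas_comp he hs, s, hs, rfl, h⟩)
  refine ⟨F, ⟨hF, fun p => ?_⟩, gen_dense' he fun p => ?_⟩
  · obtain ⟨q, hq, q', F', hqq', ⟨s, hs, rfl, -⟩, hFF'⟩ := hF2 p
    refine ⟨q, hq, s, hs, ?_⟩
    filter_upwards [hFF'] with ω e1 hω
    exact e1 (ω.mono (he.mono _ _ hqq') hω)
  · obtain ⟨q, hq, q', F', hqq', ⟨s, hs, hF', hR⟩, hFF'⟩ := hF2 p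
    refine ⟨q, hq, ?_⟩
    have hF'm : Measurable[genM B] F' := by
      rw [hF']
      exact v13_meas_comp he hs
    filter_upwards [hFF', hR, hloc 0 v F v F' hv.1 hF hv.1 hF'm] with ω e1 e2 e3 hω
    have hω' : ω.V (em q') := ω.mono (he.mono _ _ hqq') hω
    have h1 := e1 hω'
    rw [e3 rfl h1, h1]
    exact e2 hω'

end Pool.Agent.MP_b00c97_gt.Lav
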